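import Pool.Agent.MP_ff6fba_gt.Mg.Spin
import Pool.Agent.MP_ff6fba_gt.Basic
import Pool.Agent.MP_ff6fba_gt.Chart

-- part MP_ff6fba_gt.Link
section

/-! Disjoint loops on an embedded sphere are unlinked. -/

namespace Pool.Agent.MP_ff6fba_gt

open Set Metric Filter Topology Pool.Agent.Lib.PlaneTop

theorem chain_of_rtg_link {A : Type*} {r : A → A → Prop} {a b : A}
    (h : Relation.ReflTransGen r a b) :
    ∃ (N : ℕ) (γ : ℕ → A), γ 0 = a ∧ (∀ j, N ≤ j → γ j = b) ∧ ∀ j < N, r (γ j) (γ (j + 1)) := by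
  induction h using Relation.ReflTransGen.head_induction_on with
  | refl => exact ⟨0, fun _ => b, rfl, fun _ _ => rfl, fun j hj => absurd hj (Nat.not_lt_zero j)⟩
  | @head a c hac _ ih =>
    obtain ⟨N, γ, h0, h1, h2⟩ := ih
    refine ⟨N + 1, fun j => Nat.casesOn j a γ, rfl, fun j hj => ?_, fun j hj => ?_⟩
    · obtain ⟨k, rfl⟩ : ∃ k, j = k + 1 := ⟨j - 1, by omega⟩
      exact h1 k (by omega)
    · rcases j with _ | k
      · show r a (γ 0)
        rw [h0]; exact hac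
      · exact h2 k (by omega)

theorem polar_step_link {z w : ℂ} {θ : ℝ} (hz : z ≠ 0)
    (h : z = (‖z‖ : ℂ) * Complex.exp (θ * Complex.I)) :
    w = (‖w‖ : ℂ) * Complex.exp ((θ + Complex.arg (w / z) : ℝ) * Complex.I) := by
  have h1 := Complex.norm_mul_exp_arg_mul_I (w / z)
  have hn : (‖z‖ : ℂ) ≠ 0 := by simpa using hz
  rw [norm_div] at h1
  push_cast at h1 ⊢
  rw [add_mul, Complex.exp_add]
  have h2 : w = z * (w / z) := by field_simp
  calc w = z * (w / z) := h2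
    _ = ((‖z‖ : ℂ) * Complex.exp (θ * Complex.I)) *
          ((‖w‖ : ℂ) / (‖z‖ : ℂ) * Complex.exp ((w / z).arg * Complex.I)) := by
        rw [← h, h1]
    _ = _ := by field_simp

/-- If `f` has no logarithm on `K` there is a closed chain with nonzero winding. -/
theorem exists_chain {X : Type*} [TopologicalSpace X] {f : X → ℂ} {K : Set X}
    (hf : ContinuousOn f K) (h0 : ∀ x ∈ K, f x ≠ 0) (C : X → X → Prop)
    (hs : ∀ x y, C x y → C y x) (hC : ∀ x ∈ K, ∀ᶠ y in 𝓝[K] x, C x y)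
    (hsl : ∀ x ∈ K, ∀ y ∈ K, C x y → f y / f x ∈ Complex.slitPlane) (h : ¬ HasLogOn f K) :
    ∃ (N : ℕ) (β : ℕ → X) (θ : ℕ → ℝ) (a : ℤ), a ≠ 0 ∧ (∀ j, β j ∈ K) ∧ β N = β 0 ∧
      θ N = θ 0 + 2 * Real.pi * a ∧
      (∀ j, f (β j) = (‖f (β j)‖ : ℂ) * Complex.exp (θ j * Complex.I)) ∧
      ∀ j < N, C (β j) (β (j + 1)) ∧ θ (j + 1) = θ j + Complex.arg (f (β (j + 1)) / f (β j)) := by
  classical
  let St : X × ℝ → X × ℝ → Prop := fun a b =>
    a.1 ∈ K ∧ b.1 ∈ K ∧ C a.1 b.1 ∧ b.2 = a.2 + Complex.arg (f b.1 / f a.1)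
  let Pol : X × ℝ → Prop := fun a =>
    a.1 ∈ K ∧ f a.1 = (‖f a.1‖ : ℂ) * Complex.exp (a.2 * Complex.I)
  have hSt : ∀ a b, St a b → St b a := by
    rintro a b ⟨ha, hb, hab, he⟩
    refine ⟨hb, ha, hs _ _ hab, ?_⟩
    have h1 := (Complex.mem_slitPlane_iff_arg.1 (hsl _ ha _ hb hab)).1
    rw [← inv_div, Complex.arg_inv, if_neg h1, he]; ring
  have hPol : ∀ a b, St a b → Pol a → Pol b := by
    rintro a b ⟨ha, hb, -, he⟩ hp
    refine ⟨hb, ?_⟩
    rw [he]; exact polar_step_link (h0 _ ha) hp.2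
  have hPolR : ∀ a b, Relation.ReflTransGen St a b → Pol a → Pol b := by
    intro a b hab hp
    induction hab with
    | refl => exact hp
    | tail _ hbc ih => exact hPol _ _ hbc ih
  have hRs : ∀ a b, Relation.ReflTransGen St a b → Relation.ReflTransGen St b a := by
    intro a b hab
    induction hab with
    | refl => exact .refl
    | tail _ hbc ih => exact .head (hSt _ _ hbc) ih
  by_cases hall : ∀ x θ θ', Pol (x, θ) → Relation.ReflTransGen St (x, θ) (x, θ') → θ' = θ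
  · exfalso
    apply h
    let S0 : X → X → Prop := fun x y => x ∈ K ∧ y ∈ K ∧ C x y
    have hlift : ∀ x y, Relation.ReflTransGen S0 x y → ∀ θ, ∃ θ',
        Relation.ReflTransGen St (x, θ) (y, θ') := by
      intro a b hab θ
      induction hab with
      | refl => exact ⟨θ, .refl⟩
      | @tail c d _ hbc ih =>
        obtain ⟨θ', ih⟩ := ih
        exact ⟨θ' + Complex.arg (f d / f c), ih.tail ⟨hbc.1, hbc.2.1, hbc.2.2, rfl⟩⟩
    have hbase : ∃ b : X → X, (∀ x, Relation.ReflTransGen S0 (b x) x) ∧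
        ∀ x y, S0 x y → b x = b y := by
      have hex : ∀ x, ∃ z, Relation.ReflTransGen S0 z x := fun x => ⟨x, .refl⟩
      refine ⟨fun x => Classical.choose (hex x), fun x => Classical.choose_spec (hex x),
        fun x y hxy => ?_⟩
      have : ∀ z, Relation.ReflTransGen S0 z x ↔ Relation.ReflTransGen S0 z y := fun z =>
        ⟨fun h => h.tail hxy, fun h => h.tail ⟨hxy.2.1, hxy.1, hs _ _ hxy.2.2⟩⟩
      simp only [this]
    obtain ⟨b, hb1, hb2⟩ := hbase
    have hbK : ∀ x ∈ K, b x ∈ K := by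
      intro x hx
      rcases (hb1 x).cases_head with h1 | ⟨c, h1, -⟩
      · rwa [h1]
      · exact h1.1
    choose θ hθ using fun x => hlift _ _ (hb1 x) (Complex.arg (f (b x)))
    have hθP : ∀ x ∈ K, Pol (x, θ x) := fun x hx =>
      hPolR _ _ (hθ x) ⟨hbK x hx, (Complex.norm_mul_exp_arg_mul_I _).symm⟩
    have hθe : ∀ x ∈ K, ∀ y ∈ K, C x y → θ y = θ x + Complex.arg (f y / f x) := by
      intro x hx y hy hxy
      have h1 := (hθ x).tail (c := (y, θ x + Complex.arg (f y / f x))) ⟨hx, hy, hxy, rfl⟩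
      have h2 := hθ y
      rw [← hb2 x y ⟨hx, hy, hxy⟩] at h2
      exact (hall _ _ _ (hθP y hy) ((hRs _ _ h2).trans h1)).symm
    have hθc : ContinuousOn θ K := by
      intro x hx
      have h1 : ContinuousWithinAt (fun y => θ x + Complex.arg (f y / f x)) K x := by
        refine continuousWithinAt_const.add ?_
        refine ContinuousAt.comp_continuousWithinAt (g := Complex.arg) (f := fun y => f y / f x) ?_
          ((hf x hx).div_const _)
        refine Complex.continuousAt_arg ?_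
        simp [div_self (h0 x hx)]
      refine h1.congr_of_eventuallyEq ?_ (by simp [div_self (h0 x hx)])
      filter_upwards [hC x hx, self_mem_nhdsWithin] with y hy hyK
      exact hθe x hx y hyK hy
    refine ⟨fun x => (Real.log ‖f x‖ : ℂ) + θ x * Complex.I, ?_, fun x hx => ?_⟩
    · refine ContinuousOn.add ?_ ?_
      · exact Complex.continuous_ofReal.comp_continuousOn
          (hf.norm.log fun x hx => norm_ne_zero_iff.2 (h0 x hx))
      · exact (Complex.continuous_ofReal.comp_continuousOn hθc).mul continuousOn_const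
    · rw [Complex.exp_add, ← Complex.ofReal_exp, Real.exp_log (norm_pos_iff.2 (h0 x hx))]
      exact (hθP x hx).2.symm
  · push Not at hall
    obtain ⟨x, θ, θ', hp, hR, hne⟩ := hall
    obtain ⟨N, γ, g0, g1, g2⟩ := chain_of_rtg_link hR
    have hp' := hPolR _ _ hR hp
    have hγ : ∀ j, Pol (γ j) := by
      intro j
      induction j with
      | zero => rwa [g0]
      | succ k ih =>
        by_cases hk : k < N
        · exact hPol _ _ (g2 k hk) ih
        · rwa [g1 _ (by omega)]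
    have he : Complex.exp (θ' * Complex.I) = Complex.exp (θ * Complex.I) := by
      have hn : (‖f x‖ : ℂ) ≠ 0 := by simpa using h0 x hp.1
      exact mul_left_cancel₀ hn (hp'.2.symm.trans hp.2)
    obtain ⟨a, ha⟩ := Complex.exp_eq_exp_iff_exists_int.1 he
    have ha' : θ' = θ + 2 * Real.pi * a := by
      have := congrArg Complex.im ha
      simp at this
      linarith
    refine ⟨N, fun j => (γ j).1, fun j => (γ j).2, a, ?_, fun j => (hγ j).1, ?_, ?_,
      fun j => (hγ j).2, fun j hj => ⟨(g2 j hj).2.2.1, (g2 j hj).2.2.2⟩⟩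
    · rintro rfl
      exact hne (by simpa using ha')
    · simp only [g0, g1 N le_rfl]
    · simp only [g0, g1 N le_rfl, ha']

theorem seg_link {C : Set E} (hC : Convex ℝ C) {a b z : E} (ha : a ∈ C) (hb : b ∈ C)
    (hz : z ∉ C) : ‖a - z‖ * ‖b - z‖ + inner ℝ (a - z) (b - z) ≠ 0 := by
  intro h
  have hA : 0 < ‖a - z‖ := norm_pos_iff.2 (sub_ne_zero.2 fun e => hz (e ▸ ha))
  have hB : 0 < ‖b - z‖ := norm_pos_iff.2 (sub_ne_zero.2 fun e => hz (e ▸ hb))
  have h1 : inner ℝ (a - z) (-(b - z)) = ‖a - z‖ * ‖-(b - z)‖ := by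
    rw [inner_neg_right, norm_neg]; linarith
  rw [inner_eq_norm_mul_iff_real, norm_neg] at h1
  set A := ‖a - z‖
  set B := ‖b - z‖
  have h2 : z = (B / (A + B)) • a + (A / (A + B)) • b := by
    have h3 : (A + B) • z = B • a + A • b := by
      rw [smul_sub, smul_neg, smul_sub] at h1
      rw [add_smul]
      linear_combination (norm := module) -h1
    have h4 : A + B ≠ 0 := by positivity
    calc z = (A + B)⁻¹ • ((A + B) • z) := by rw [smul_smul, inv_mul_cancel₀ h4, one_smul]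
      _ = _ := by rw [h3, smul_add, smul_smul, smul_smul, div_eq_inv_mul, div_eq_inv_mul]
  apply hz
  rw [h2]
  exact hC ha hb (by positivity) (by positivity) (by field_simp; ring)

theorem exists_nu_link : ∃ ν : E → Sph, ContinuousOn ν {0}ᶜ ∧
    ∀ w : E, w ≠ 0 → (ν w : E) = ‖w‖⁻¹ • w := by
  classical
  obtain ⟨p0⟩ : Nonempty Sph := inferInstance
  refine ⟨fun w => if h : w = 0 then p0 else ⟨‖w‖⁻¹ • w, by
    simp [norm_smul, inv_mul_cancel₀ (norm_ne_zero_iff.2 h)]⟩, ?_, fun w hw => by simp [hw]⟩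
  rw [Topology.IsInducing.subtypeVal.continuousOn_iff]
  refine ContinuousOn.congr (f := fun w : E => ‖w‖⁻¹ • w) ?_ fun w hw => ?_
  · exact (continuous_norm.continuousOn.inv₀ fun w hw => norm_ne_zero_iff.2 hw).smul
      continuousOn_id
  · have hw' : w ≠ 0 := hw
    simp [hw']

/-- half-space like convex region -/
def CdLink (θ : ℝ) : Set E :=
  {z | (‖z‖ ^ 2 + 1) / 10 ≤ 2 * (Real.cos θ * z 0 + Real.sin θ * z 1)}

theorem convex_CdLink (θ : ℝ) : Convex ℝ (CdLink θ) := by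
  intro x hx y hy a b ha hb hab
  simp only [CdLink, mem_ofPred_eq, PiLp.add_apply, PiLp.smul_apply, smul_eq_mul] at hx hy ⊢
  have h1 : ‖a • x + b • y‖ ≤ a * ‖x‖ + b * ‖y‖ := by
    refine (norm_add_le _ _).trans ?_
    rw [norm_smul, norm_smul, Real.norm_of_nonneg ha, Real.norm_of_nonneg hb]
  have h2 : ‖a • x + b • y‖ ^ 2 ≤ (a * ‖x‖ + b * ‖y‖) ^ 2 := by gcongr
  have h3 : (a * ‖x‖ + b * ‖y‖) ^ 2 ≤ a * ‖x‖ ^ 2 + b * ‖y‖ ^ 2 := by
    obtain rfl : b = 1 - a := by linarith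
    nlinarith [mul_nonneg (mul_nonneg ha hb) (sq_nonneg (‖x‖ - ‖y‖))]
  have h4 := mul_le_mul_of_nonneg_left hx ha
  have h5 := mul_le_mul_of_nonneg_left hy hb
  obtain rfl : b = 1 - a := by linarith
  nlinarith

theorem corner_mem_link {θ : ℝ} {m : ℤ} (h : |2 * Real.pi * m / 3 - θ| ≤ 13 / 10) :
    corner m ∈ CdLink θ := by
  have hn : ‖corner m‖ ^ 2 = 1 := by
    rw [EuclideanSpace.real_norm_sq_eq]
    simp [corner, Fin.sum_univ_three]
  have h1 := Real.one_sub_sq_div_two_le_cos (x := 2 * Real.pi * m / 3 - θ)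
  have h2 : (2 * Real.pi * m / 3 - θ) ^ 2 ≤ (13 / 10) ^ 2 := by
    rw [← sq_abs]; gcongr
  rw [Real.cos_sub] at h1
  simp only [CdLink, mem_ofPred_eq, hn]
  simp only [corner, PiLp.toLp_apply, Matrix.cons_val_zero, Matrix.cons_val_one]
  nlinarith

theorem corner_add_link (m a : ℤ) : corner (m + 3 * a) = corner m := by
  have : 2 * Real.pi * ((m + 3 * a : ℤ) : ℝ) / 3 = 2 * Real.pi * m / 3 + a * (2 * Real.pi) := by
    push_cast; ring
  simp only [corner, this, Real.cos_add_int_mul_two_pi, Real.sin_add_int_mul_two_pi]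

theorem mem_Cd_link {z : E} {θ θ' : ℝ} (hz : (‖z‖ ^ 2 + 1) ^ 2 ≤ 68 * (z 0 ^ 2 + z 1 ^ 2))
    (hp : (z 0 : ℂ) + z 1 * Complex.I =
      (‖(z 0 : ℂ) + z 1 * Complex.I‖ : ℂ) * Complex.exp (θ' * Complex.I))
    (hθ : |θ' - θ| ≤ 1 / 4) : z ∈ CdLink θ := by
  have hr : ‖(z 0 : ℂ) + z 1 * Complex.I‖ ^ 2 = z 0 ^ 2 + z 1 ^ 2 := by
    rw [Complex.sq_norm, Complex.normSq_add_mul_I]
  have hr0 := norm_nonneg ((z 0 : ℂ) + z 1 * Complex.I)
  generalize ‖(z 0 : ℂ) + z 1 * Complex.I‖ = ρ at hp hr hr0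
  have e0 : z 0 = ρ * Real.cos θ' := by
    have := congrArg Complex.re hp
    simpa [Complex.exp_ofReal_mul_I_re] using this
  have e1 : z 1 = ρ * Real.sin θ' := by
    have := congrArg Complex.im hp
    simpa [Complex.exp_ofReal_mul_I_im] using this
  have h1 := Real.one_sub_sq_div_two_le_cos (x := θ' - θ)
  have h2 : (θ' - θ) ^ 2 ≤ (1 / 4) ^ 2 := by
    rw [← sq_abs]; gcongr
  have h3 : ‖z‖ ^ 2 + 1 ≤ 9 * ρ := by
    refine le_of_sq_le_sq ?_ (by positivity)
    nlinarith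
  have h4 : Real.cos θ * z 0 + Real.sin θ * z 1 = ρ * Real.cos (θ' - θ) := by
    rw [e0, e1, Real.cos_sub]; ring
  simp only [CdLink, mem_ofPred_eq, h4]
  have h5 : ρ * (1 / 2) ≤ ρ * Real.cos (θ' - θ) := by gcongr; linarith
  linarith

theorem not_mem_Cd_link {z : E} (θ : ℝ)
    (hz : 4 * (z 0 ^ 2 + z 1 ^ 2) ≤ (1 / 50 * (‖z‖ ^ 2 + 1)) ^ 2) : z ∉ CdLink θ := by
  intro h
  simp only [CdLink, mem_ofPred_eq] at h
  have h1 : 2 * (Real.cos θ * z 0 + Real.sin θ * z 1) ≤ 1 / 50 * (‖z‖ ^ 2 + 1) := by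
    refine le_of_sq_le_sq ?_ (by positivity) |> (le_abs_self _).trans
    rw [sq_abs]
    nlinarith [Real.sin_sq_add_cos_sq θ, sq_nonneg (Real.cos θ * z 1 - Real.sin θ * z 0)]
  nlinarith [sq_nonneg ‖z‖]

theorem link_core (u : Sph → E) (hu : Continuous u) (K KE : Set Sph) (hK : IsClosed K)
    (hKE : IsClosed KE)
    (hK1 : ∀ p ∈ K, 4 * (u p 0 ^ 2 + u p 1 ^ 2) ≤ (1 / 50 * (‖u p‖ ^ 2 + 1)) ^ 2)
    (hK2 : ∀ p ∈ KE, (‖u p‖ ^ 2 + 1) ^ 2 ≤ 68 * (u p 0 ^ 2 + u p 1 ^ 2))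
    (hinj : ∀ p ∈ K, ∀ q, u q = u p → q = p)
    (hX : ¬ HasLogOn (fun p => (u p 0 : ℂ) + u p 1 * Complex.I) KE) :
    HasLogOn (fun p => ((‖u p‖ ^ 2 - 1 : ℝ) : ℂ) + (2 * u p 2 : ℝ) * Complex.I) K := by
  obtain ⟨W, hWc, hW0, hW1, hW2⟩ := exists_W
  obtain ⟨ν, hνc, hν⟩ := exists_nu_link
  have hdis : ∀ p ∈ K, ∀ q ∈ KE, q ≠ p := by
    rintro p hp q hq rfl
    have h1 := hK1 _ hp
    have h2 := hK2 _ hq
    nlinarith [sq_nonneg ‖u q‖, sq_nonneg (‖u q‖ ^ 2)]
  let w : ℝ × Sph × Sph → E := fun z => (1 - z.1) • (z.2.2 : E) - z.1 • (z.2.1 : E)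
  let S : Set (ℝ × Sph × Sph) := Icc 0 1 ×ˢ K ×ˢ KE
  have hS : IsCompact S := isCompact_Icc.prod (hK.isCompact.prod hKE.isCompact)
  have hkey : ∀ z ∈ S, ∀ c : ℝ, 0 ≤ c → w z ≠ c • (z.2.1 : E) := by
    rintro ⟨t, p, q⟩ ⟨ht, hp, hq⟩ c hc h
    simp only [w] at h ht hp hq
    have h1 : (1 - t) • (q : E) = (c + t) • (p : E) := by
      rw [add_smul, ← h]; abel
    have h2 := congrArg norm h1
    rw [norm_smul, norm_smul, norm_eq_of_mem_sphere, norm_eq_of_mem_sphere,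
      Real.norm_of_nonneg (by linarith [ht.2]), Real.norm_of_nonneg (by linarith [ht.1])] at h2
    have h3 : c + t = 1 - t := by linarith
    have h4 : 1 - t ≠ 0 := by
      intro h5
      have : t = 1 := by linarith
      linarith
    rw [h3] at h1
    exact hdis p hp q hq (Subtype.ext (smul_right_injective E h4 h1))
  have hw0 : ∀ z ∈ S, w z ≠ 0 := fun z hz => by simpa using hkey z hz 0 le_rfl
  let v : ℝ × Sph × Sph → E := fun z => u (ν (w z)) - u z.2.1
  have hvc : ContinuousOn v S := by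
    refine ContinuousOn.sub (hu.comp_continuousOn (hνc.comp ?_ hw0)) (by fun_prop)
    simp only [w]; fun_prop
  have hv0 : ∀ z ∈ S, v z ≠ 0 := by
    intro z hz h
    have h1 := hinj _ hz.2.1 _ (sub_eq_zero.1 h)
    have h2 := hν _ (hw0 z hz)
    rw [h1] at h2
    apply hkey z hz ‖w z‖ (norm_nonneg _)
    rw [h2, smul_smul, mul_inv_cancel₀ (norm_ne_zero_iff.2 (hw0 z hz)), one_smul]
  obtain ⟨m0, hm0, hm1⟩ := hS.exists_forall_le' (a := (0 : ℝ)) hvc.norm
    fun z hz => norm_pos_iff.2 (hv0 z hz)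
  obtain ⟨δ, hδ, hδ1⟩ := Metric.uniformContinuousOn_iff.1
    (hS.uniformContinuousOn_of_continuous hvc) m0 hm0
  let f : Sph → ℂ := fun p => (u p 0 : ℂ) + u p 1 * Complex.I
  have hfc : Continuous f := by simp only [f]; fun_prop
  have hf0 : ∀ p ∈ KE, f p ≠ 0 := by
    intro p hp h
    have e0 : u p 0 = 0 := by simpa [f] using congrArg Complex.re h
    have e1 : u p 1 = 0 := by simpa [f] using congrArg Complex.im h
    have := hK2 p hp
    rw [e0, e1] at this
    nlinarith [sq_nonneg ‖u p‖, sq_nonneg (‖u p‖ ^ 2)]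
  obtain ⟨N, β, θ, a, ha, hβ, hβN, hθN, hpol, hstep⟩ := exists_chain (f := f) (K := KE)
    hfc.continuousOn hf0 (fun q q' => dist q q' < δ ∧ |Complex.arg (f q' / f q)| < 1 / 4)
    (fun x y h => ⟨by rw [dist_comm]; exact h.1, by
      rw [← inv_div, Complex.abs_arg_inv]; exact h.2⟩)
    (fun x hx => by
      refine Filter.Eventually.filter_mono nhdsWithin_le_nhds (Filter.Eventually.and ?_ ?_)
      · filter_upwards [ball_mem_nhds x hδ] with y hy
        rw [dist_comm]; exact hy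
      · have h1 : ContinuousAt (fun y => |Complex.arg (f y / f x)|) x := by
          refine ContinuousAt.abs ?_
          refine ContinuousAt.comp (g := Complex.arg) (f := fun y => f y / f x) ?_
            (hfc.continuousAt.div_const _)
          refine Complex.continuousAt_arg ?_
          simp [div_self (hf0 x hx)]
        refine h1.eventually_lt continuousAt_const ?_
        simp [div_self (hf0 x hx)])
    (fun x hx y hy h => by
      refine Complex.mem_slitPlane_iff_arg.2 ⟨fun e => ?_, div_ne_zero (hf0 y hy) (hf0 x hx)⟩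
      have h2 := h.2
      rw [e, abs_of_pos Real.pi_pos] at h2
      linarith [Real.pi_gt_three])
    hX
  have hθs : ∀ j < N, |θ (j + 1) - θ j| ≤ 1 / 4 := fun j hj => by
    rw [(hstep j hj).2, add_sub_cancel_left]; exact (hstep j hj).1.2.le
  -- first homotopy
  have H1 : HasLogOn (fun p => W N (fun j => u (β j) - u p)) K := by
    have hcont : ContinuousOn (fun z : ℝ × Sph => W N (fun j => v (z.1, z.2, β j)))
        (Icc 0 1 ×ˢ K) := by
      refine (hWc N).comp_continuousOn (continuousOn_pi.2 fun j => ?_)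
      exact hvc.comp (f := fun z : ℝ × Sph => (z.1, z.2, β j)) (by fun_prop)
        fun z hz => ⟨hz.1, hz.2, hβ j⟩
    have hend : ∀ p ∈ K, (fun j => v (1, p, β j)) = fun _ => v (1, p, β 0) := by
      intro p _
      funext j
      simp [v, w]
    have := HasLogOn.homotopy' (H := fun t p => W N (fun j => v (t, p, β j))) (K := K) hcont
      (fun t ht p hp => by
        refine hW0 N _ (by simp only [hβN]) (hv0 _ ⟨ht, hp, hβ 0⟩) fun j hj => ?_
        have h1 := hδ1 (t, p, β (j + 1)) ⟨ht, hp, hβ _⟩ (t, p, β j) ⟨ht, hp, hβ _⟩ (by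
          simp only [Prod.dist_eq, dist_self]
          rw [dist_comm]
          exact max_lt hδ (max_lt hδ (hstep j hj).1.1))
        have h2 := seg_link (convex_ball (v (t, p, β j)) m0) (mem_ball_self hm0) h1 (z := 0) (by
          rw [mem_ball, dist_zero_left, not_lt]
          exact hm1 _ ⟨ht, hp, hβ _⟩)
        simpa using h2)
      (by
        refine hasLogOn_slit ?_ fun p hp => ?_
        · exact hcont.comp (f := fun p : Sph => ((1 : ℝ), p)) (by fun_prop)
            fun p hp => ⟨by simp, hp⟩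
        · simp only [hend p hp]
          exact hW1 N _ (hv0 _ ⟨by simp, hp, hβ 0⟩))
    refine this.congr fun p _ => ?_
    congr 1
    funext j
    have h1 : ν (β j : E) = β j := by
      apply Subtype.ext
      rw [hν _ (ne_zero_of_mem_unit_sphere _), norm_eq_of_mem_sphere]; simp
    simp [v, w, h1]
  -- second homotopy
  let m : ℕ → ℤ := fun j => round (3 * θ j / (2 * Real.pi))
  have hm : ∀ j, |2 * Real.pi * m j / 3 - θ j| ≤ 21 / 20 := by
    intro j
    have h1 := abs_sub_round (3 * θ j / (2 * Real.pi))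
    have h2 : 2 * Real.pi * m j / 3 - θ j =
        -(2 * Real.pi / 3) * (3 * θ j / (2 * Real.pi) - m j) := by
      field_simp; ring
    rw [h2, abs_mul, abs_neg, abs_of_pos (by positivity)]
    calc _ ≤ 2 * Real.pi / 3 * (1 / 2) := by gcongr
      _ ≤ _ := by linarith [Real.pi_lt_d2]
  have hmN : m N = m 0 + 3 * a := by
    have : 3 * θ N / (2 * Real.pi) = 3 * θ 0 / (2 * Real.pi) + ((3 * a : ℤ) : ℝ) := by
      rw [hθN]; push_cast; field_simp
    simp only [m, this, round_add_intCast]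
  have hmem : ∀ t ∈ Icc (0 : ℝ) 1, ∀ i j, |θ i - θ j| ≤ 1 / 4 →
      (1 - t) • u (β i) + t • corner (m i) ∈ CdLink (θ j) := by
    intro t ht i j hij
    refine convex_CdLink _ (mem_Cd_link (hK2 _ (hβ i)) (hpol i) hij) (corner_mem_link ?_)
      (by linarith [ht.2]) ht.1 (by ring)
    have := abs_sub_le (2 * Real.pi * m i / 3) (θ i) (θ j)
    linarith [hm i]
  have H2 := HasLogOn.homotopy
    (H := fun t p => W N (fun j => (1 - t) • u (β j) + t • corner (m j) - u p)) (K := K)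
    ((hWc N).comp (continuous_pi fun j => by fun_prop)).continuousOn
    (fun t ht p hp => by
      refine hW0 N _ (by simp only [hβN, hmN, corner_add_link]) (fun e => ?_) fun j hj => ?_
      · exact not_mem_Cd_link (θ 0) (hK1 p hp) (sub_eq_zero.1 e ▸ hmem t ht 0 0 (by simp))
      · exact seg_link (convex_CdLink (θ j)) (hmem t ht j j (by simp))
          (hmem t ht (j + 1) j (hθs j hj)) (not_mem_Cd_link _ (hK1 p hp)))
    (by simpa using H1)
  refine hW2 N m a ha hmN (fun j hj => ?_) u K hu.continuousOn hK1 (by simpa using H2)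
  have h1 := abs_le.1 (hm j)
  have h2 := abs_le.1 (hm (j + 1))
  have h3 := abs_le.1 (hθs j hj)
  have h4 : |(m (j + 1) : ℝ) - m j| < 2 := by
    rw [abs_lt]
    constructor <;> nlinarith [Real.pi_gt_three]
  have h5 : |m (j + 1) - m j| < 2 := by exact_mod_cast h4
  omega

theorem link (X Y : Sph → ℂ) (hX : Continuous X) (hY : Continuous Y)
    (h0 : ∀ p, X p = 0 → Y p ∈ Complex.slitPlane) (K : Set Sph) (hK : IsClosed K)
    (hK1 : ∀ p ∈ K, ‖X p‖ ≤ 1 / 50 * ‖Y p‖)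
    (hinj : ∀ p ∈ K, ∀ q, ∀ s : ℝ, 0 < s → X q = s * X p → Y q = s * Y p → q = p) :
    HasLogOn Y K ∨ HasLogOn X {p | 1 / 4 * ‖Y p‖ ≤ ‖X p‖} := by
  let n : Sph → ℝ := fun p => Real.sqrt (‖X p‖ ^ 2 + ‖Y p‖ ^ 2)
  have hn0 : ∀ p, 0 ≤ n p := fun p => Real.sqrt_nonneg _
  have hXn : ∀ p, ‖X p‖ ^ 2 = (X p).re ^ 2 + (X p).im ^ 2 := fun p => by
    rw [Complex.sq_norm, Complex.normSq_apply]; ring
  have hYn : ∀ p, ‖Y p‖ ^ 2 = (Y p).re ^ 2 + (Y p).im ^ 2 := fun p => by
    rw [Complex.sq_norm, Complex.normSq_apply]; ring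
  have hn2 : ∀ p, n p ^ 2 = ‖X p‖ ^ 2 + ‖Y p‖ ^ 2 := fun p => Real.sq_sqrt (by positivity)
  let d : Sph → ℝ := fun p => n p + (Y p).re
  have hdc : Continuous d := by simp only [d, n]; fun_prop
  have hd : ∀ p, 0 < d p := by
    intro p
    by_contra h
    simp only [d, not_lt] at h
    have h1 := hn2 p
    have h2 := hYn p
    have h3 := hn0 p
    have h4 : n p ^ 2 ≤ (Y p).re ^ 2 := by nlinarith
    have h5 : ‖X p‖ ^ 2 = 0 := by nlinarith [sq_nonneg ‖X p‖, sq_nonneg (Y p).im]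
    have h6 : (Y p).im ^ 2 = 0 := by nlinarith [sq_nonneg ‖X p‖, sq_nonneg (Y p).im]
    rcases h0 p (by simpa using h5) with h7 | h7
    · linarith
    · exact h7 (by simpa using h6)
  let u : Sph → E := fun p => !₂[(X p).re / d p, (X p).im / d p, (Y p).im / d p]
  have hu : Continuous u := by
    refine (PiLp.continuous_toLp 2 _).comp (continuous_pi fun i => ?_)
    fin_cases i
    · exact Continuous.div (by fun_prop) hdc fun p => (hd p).ne'
    · exact Continuous.div (by fun_prop) hdc fun p => (hd p).ne'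
    · exact Continuous.div (by fun_prop) hdc fun p => (hd p).ne'
  have u0 : ∀ p, u p 0 = (X p).re / d p := fun p => rfl
  have u1 : ∀ p, u p 1 = (X p).im / d p := fun p => rfl
  have u2 : ∀ p, u p 2 = (Y p).im / d p := fun p => rfl
  have hun : ∀ p, ‖u p‖ ^ 2 = (n p - (Y p).re) / d p := by
    intro p
    rw [EuclideanSpace.real_norm_sq_eq, Fin.sum_univ_three, u0, u1, u2]
    have h1 := hn2 p
    rw [hXn, hYn] at h1
    have h2 := (hd p).ne'
    field_simp
    simp only [d]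
    linarith
  have hp1 : ∀ p, ‖u p‖ ^ 2 + 1 = 2 * n p / d p := fun p => by
    have h2 := (hd p).ne'
    rw [hun]; field_simp; simp only [d]; ring
  have hm1 : ∀ p, ‖u p‖ ^ 2 - 1 = -2 * (Y p).re / d p := fun p => by
    have h2 := (hd p).ne'
    rw [hun]; field_simp; simp only [d]; ring
  have h01 : ∀ p, u p 0 ^ 2 + u p 1 ^ 2 = ‖X p‖ ^ 2 / d p ^ 2 := fun p => by
    rw [u0, u1, hXn]; ring
  have hdl : ∀ L : Set Sph, HasLogOn (fun p => (d p : ℂ)) L := fun L =>
    hasLogOn_slit (by fun_prop) fun p _ => Complex.ofReal_mem_slitPlane.2 (hd p)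
  have hXe : ∀ p, X p = d p * ((u p 0 : ℂ) + u p 1 * Complex.I) := fun p => by
    have h2 := (hd p).ne'
    apply Complex.ext <;> simp [u0, u1] <;> field_simp
  have hYe : ∀ p, Y p = d p * (-(1 / 2) * (starRingEnd ℂ)
      (((‖u p‖ ^ 2 - 1 : ℝ) : ℂ) + (2 * u p 2 : ℝ) * Complex.I)) := fun p => by
    have h2 := (hd p).ne'
    rw [hm1, u2]
    apply Complex.ext
    · simp only [Complex.mul_re, Complex.mul_im, Complex.ofReal_re, Complex.ofReal_im,
        Complex.conj_re, Complex.conj_im, Complex.add_re, Complex.add_im, Complex.I_re,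
        Complex.I_im, Complex.neg_re, Complex.neg_im]
      norm_num
      field_simp
    · simp only [Complex.mul_re, Complex.mul_im, Complex.ofReal_re, Complex.ofReal_im,
        Complex.conj_re, Complex.conj_im, Complex.add_re, Complex.add_im, Complex.I_re,
        Complex.I_im, Complex.neg_re, Complex.neg_im]
      norm_num
      field_simp
  by_cases hE : HasLogOn (fun p => (u p 0 : ℂ) + u p 1 * Complex.I) {p | 1 / 4 * ‖Y p‖ ≤ ‖X p‖}
  · exact Or.inr (((hdl _).mul hE).congr fun p _ => hXe p)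
  left
  have := link_core u hu K _ hK (isClosed_le (by fun_prop) (by fun_prop)) (fun p hp => ?_)
    (fun p hp => ?_) (fun p hp q hq => ?_) hE
  · exact ((hdl _).mul ((hasLogOn_const (c := -(1 / 2)) (by norm_num) K).mul
      (log_conj this))).congr fun p _ => hYe p
  · rw [h01, hp1]
    have h1 : ‖X p‖ ^ 2 ≤ (1 / 50 * ‖Y p‖) ^ 2 := by gcongr; exact hK1 p hp
    have h2 : (1 / 50 * (2 * n p / d p)) ^ 2 = 4 * ((1 / 50) ^ 2 * n p ^ 2 / d p ^ 2) := by ring
    rw [h2, hn2]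
    gcongr
    nlinarith [sq_nonneg ‖X p‖]
  · rw [h01, hp1]
    have h1 : (1 / 4 * ‖Y p‖) ^ 2 ≤ ‖X p‖ ^ 2 := by gcongr; exact hp
    have h2 : (2 * n p / d p) ^ 2 = 4 * n p ^ 2 / d p ^ 2 := by ring
    rw [h2, hn2, ← mul_div_assoc]
    gcongr ?_ / _
    nlinarith
  · have h1 := (hd p).ne'
    have h2 : (d p : ℂ) ≠ 0 := by exact_mod_cast h1
    refine hinj p hp q (d q / d p) (div_pos (hd q) (hd p)) ?_ ?_
    · rw [hXe q, hXe p, hq]; push_cast; field_simp
    · rw [hYe q, hYe p, hq]; push_cast; field_simp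

end Pool.Agent.MP_ff6fba_gt

end

-- part MP_ff6fba_gt.Glue
section

/-! The longitude of the trefoil has infinite order. -/

namespace Pool.Agent.MP_ff6fba_gt

open Set Metric Filter Topology Pool.Agent.Lib.PlaneTop

theorem exists_ab : ∃ (a b : Equiv.Perm ℤ) (μ : Equiv.Perm ℤ → ℤ), a ^ 2 = 1 ∧ b ^ 3 = 1 ∧
    ∀ γ, μ (γ * (b⁻¹ * a)) = μ γ + 1 := by
  let fa : ℤ → ℤ := fun n => if n % 3 = 2 then n + 1 else if n % 3 = 0 then n - 1 else n
  have ha : Function.Involutive fa := fun n => by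
    simp only [fa]
    split_ifs <;> omega
  let b : Equiv.Perm ℤ :=
    { toFun := fun n => if n % 3 = 2 then n - 2 else n + 1
      invFun := fun n => if n % 3 = 0 then n + 2 else n - 1
      left_inv := fun n => by
        simp only
        split_ifs <;> omega
      right_inv := fun n => by
        simp only
        split_ifs <;> omega }
  let pot : ℤ → ℤ := fun z =>
    if z % 3 = 0 then 2 * (z / 3) else if z % 3 = 1 then 2 * (z / 3) + 1 else -(z / 3)
  refine ⟨ha.toPerm, b, fun γ => pot (γ⁻¹ 0), ?_, ?_, fun γ => ?_⟩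
  · ext n
    exact ha n
  · ext n
    change b (b (b n)) = n
    simp only [b, Equiv.coe_fn_mk]
    split_ifs <;> omega
  · change pot (fa (b (γ⁻¹ 0))) = pot (γ⁻¹ 0) + 1
    generalize γ⁻¹ 0 = n
    simp only [pot, fa, b, Equiv.coe_fn_mk]
    split_ifs <;> omega

/-- locally constant at a point -/
def LCglue {α : Type*} (f : Sph → α) (p : Sph) : Prop := ∀ᶠ q in 𝓝 p, f q = f p

theorem LCglue.of_eq {α β : Type*} {f : Sph → α} {g : Sph → β} {p : Sph} (h : LCglue f p)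
    (F : α → β) (e : ∀ᶠ q in 𝓝 p, g q = F (f q)) : LCglue g p := by
  filter_upwards [h, e] with q h1 h2
  rw [h2, h1, e.self_of_nhds]

theorem LCglue.prod {α β : Type*} {f : Sph → α} {g : Sph → β} {p : Sph} (h : LCglue f p)
    (h' : LCglue g p) : LCglue (fun q => (f q, g q)) p := by
  filter_upwards [h, h'] with q h1 h2
  rw [h1, h2]

theorem lc_of_cont_glue {k : Sph → ℤ} {r : Sph → ℝ} {p : Sph} (hr : ContinuousAt r p)
    (e : ∀ᶠ q in 𝓝 p, r q = 2 * Real.pi * k q) : LCglue k p := by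
  have h1 : ContinuousAt (fun q => (k q : ℝ)) p := by
    refine (hr.div_const (2 * Real.pi)).congr (e.mono fun q hq => ?_)
    simp only [hq]
    field_simp
  have h2 : ContinuousAt k p := Int.isClosedEmbedding_coe_real.isInducing.continuousAt_iff.2 h1
  rwa [ContinuousAt, nhds_discrete ℤ, tendsto_pure] at h2

theorem int_of_angle_glue {θ : ℝ} (h : (θ : Real.Angle) = 0) :
    ∃ k : ℤ, θ = 2 * Real.pi * k := by
  obtain ⟨k, hk⟩ := Real.Angle.coe_eq_zero_iff.1 h
  exact ⟨k, by rw [← hk, zsmul_eq_mul, mul_comm]⟩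

theorem branch_glue {f : Sph → ℂ} (hf : Continuous f) (p0 : Sph) : ∃ k : Sph → ℤ, ∀ p,
    f p / f p0 ∈ Complex.slitPlane →
      ContinuousAt (fun q => (f q).arg + 2 * Real.pi * k q) p := by
  have h1 : ∀ q, f q / f p0 ≠ 0 →
      ∃ k : ℤ, (f p0).arg + (f q / f p0).arg - (f q).arg = 2 * Real.pi * k := fun q hq => by
    rw [div_ne_zero_iff] at hq
    refine int_of_angle_glue ?_
    rw [Real.Angle.coe_sub, Real.Angle.coe_add, Complex.arg_div_coe_angle hq.1 hq.2]
    abel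
  choose! k hk using h1
  refine ⟨k, fun p hp => ?_⟩
  have h2 : Continuous fun q => f q / f p0 := hf.div_const _
  refine ((continuousAt_const (y := (f p0).arg)).add
    ((Complex.continuousAt_arg hp).comp (f := fun q => f q / f p0) h2.continuousAt)).congr ?_
  filter_upwards [h2.continuousAt.eventually_ne (Complex.slitPlane_ne_zero hp)] with q hq
  have := hk q hq
  simp only [Pi.add_apply, Function.comp]
  linarith

open Classical in
theorem cover_glue (A1 A2 V : Set Sph) (B : Sph → Set Sph) (h1 : IsOpen A1) (h2 : IsOpen A2)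
    (hB : ∀ o, IsOpen (B o)) (hBV : ∀ o, B o ⊆ V) (cov : ∀ p, p ∈ A1 ∨ p ∈ A2 ∨ p ∈ B p)
    (P Q s t : Sph → ℤ) (n : Sph → Sph → ℤ)
    (hP : ∀ p ∈ A1, ∃ k : Sph → ℤ, LCglue (fun q => P q + 3 * k q) p)
    (hQ : ∀ p ∈ A2, ∃ k : Sph → ℤ, LCglue (fun q => Q q + 2 * k q) p)
    (hJ : ∀ o, ∀ p ∈ A1, p ∈ B o → LCglue (fun q => 3 * s q - P q - 6 * n o q) p)
    (hJ' : ∀ o, ∀ p ∈ A2, p ∈ B o → LCglue (fun q => 2 * t q - Q q - 6 * n o q) p)
    (hn : ∀ o o', ∀ p ∈ B o, p ∈ B o' → LCglue (fun q => n o q - n o' q) p)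
    (hd : ∀ p ∈ A1, p ∈ A2 → p ∈ V →
      2 * t p - Q p = 3 * s p - P p ∨ 2 * t p - Q p = 3 * s p - P p + 1) :
    ∃ m : Sph → ℤ, ∀ o, ∀ p ∈ B o, LCglue (fun q => m q - 6 * n o q) p := by
  obtain ⟨a, b, μ, ha, hb, hμ⟩ := exists_ab
  set ν := b⁻¹ * a with hν
  have hμ' : ∀ (k : ℤ) γ, μ (γ * ν ^ k) = μ γ + k := fun k => by
    induction k using Int.induction_on with
    | zero => simp
    | succ k ih => intro γ; rw [zpow_add_one, ← mul_assoc, hμ, ih]; ring
    | pred k ih =>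
      intro γ
      have := hμ (γ * ν ^ (-(k : ℤ) - 1))
      rw [mul_assoc, ← zpow_add_one, sub_add_cancel, ih] at this
      omega
  have ea : ∀ i j : ℤ, a ^ (i + 2 * j) = a ^ i := fun i j => by
    rw [zpow_add, zpow_mul, zpow_ofNat, ha, one_zpow, mul_one]
  have eb : ∀ i j : ℤ, b ^ (i + 3 * j) = b ^ i := fun i j => by
    rw [zpow_add, zpow_mul, zpow_ofNat, hb, one_zpow, mul_one]
  set hV : Sph → Equiv.Perm ℤ := fun q => if q ∈ A1 then
    a ^ (3 * s q - P q) * ν ^ (3 * s q - P q) else b ^ (2 * t q - Q q) * ν ^ (2 * t q - Q q)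
    with hhV
  set h : Option (Option Sph) → Sph → Equiv.Perm ℤ := fun i q => i.elim 1 fun j =>
    j.elim (if q ∈ A1 then a ^ Q q * b ^ P q else 1) fun o => hV q * ν ^ (-(6 * n o q)) with hh
  set A : Option (Option Sph) → Set Sph := fun i => i.elim A1 fun j => j.elim A2 B with hA
  have symm : ∀ i j p, LCglue (fun q => (h i q)⁻¹ * h j q) p →
      LCglue (fun q => (h j q)⁻¹ * h i q) p := fun i j p hp =>
    hp.of_eq (·⁻¹) (Eventually.of_forall fun q => by simp)
  have refl : ∀ i p, LCglue (fun q => (h i q)⁻¹ * h i q) p := fun i p =>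
    Eventually.of_forall fun q => by simp
  have l12 : ∀ p ∈ A1, p ∈ A2 → LCglue (fun q => (h none q)⁻¹ * h (some none) q) p := by
    intro p p1 p2
    obtain ⟨k, hk⟩ := hP p p1
    obtain ⟨k', hk'⟩ := hQ p p2
    refine (hk.prod hk').of_eq (fun z => a ^ z.2 * b ^ z.1) ?_
    filter_upwards [h1.mem_nhds p1] with q hq
    simp [hh, hq, ea, eb]
  have l1B : ∀ o, ∀ p ∈ A1, p ∈ B o →
      LCglue (fun q => (h none q)⁻¹ * h (some (some o)) q) p := by
    intro o p p1 p2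
    refine (hJ o p p1 p2).of_eq (fun z => a ^ z * ν ^ z) ?_
    filter_upwards [h1.mem_nhds p1] with q hq
    simp only [hh, hhV, Option.elim, if_pos hq, inv_one, one_mul]
    rw [mul_assoc, ← zpow_add, ← sub_eq_add_neg, ← ea (_ - 6 * n o q) (3 * n o q)]
    congr 2
    ring
  have l2B : ∀ o, ∀ p ∈ A2, p ∈ B o →
      LCglue (fun q => (h (some none) q)⁻¹ * h (some (some o)) q) p := by
    intro o p p1 p2
    refine (hJ' o p p1 p2).of_eq (fun z => b ^ z * ν ^ z) ?_
    filter_upwards [h2.mem_nhds p1, (hB o).mem_nhds p2] with q hq hq'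
    have e1 : (h (some none) q)⁻¹ * hV q = b ^ (2 * t q - Q q) * ν ^ (2 * t q - Q q) := by
      by_cases h3 : q ∈ A1
      · simp only [hh, hhV, Option.elim, if_pos h3]
        have e2 : a ^ Q q = a ^ (2 * t q - Q q) := by
          rw [← ea (Q q) (t q - Q q)]; congr 1; ring
        have e3 : b ^ P q = b ^ (-(3 * s q - P q)) := by
          rw [← eb (P q) (-s q)]; congr 1; ring
        rw [inv_mul_eq_iff_eq_mul, e2, e3]
        rcases hd q h3 hq (hBV o hq') with h4 | h4 <;> rw [h4] <;>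
          generalize 3 * s q - P q = J
        · group
        · have e4 : a * b * ν = 1 := by rw [hν, mul_assoc, mul_inv_cancel_left, ← sq, ha]
          calc a ^ J * ν ^ J = a ^ J * (a * b * ν) * ν ^ J := by rw [e4, mul_one]
            _ = _ := by group
      · simp only [hh, hhV, Option.elim, if_neg h3, inv_one, one_mul]
    change (h (some none) q)⁻¹ * (hV q * _) = _
    rw [← mul_assoc, e1, mul_assoc, ← zpow_add, ← sub_eq_add_neg,
      ← eb (_ - 6 * n o q) (2 * n o q)]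
    congr 2
    ring
  have lBB : ∀ o o', ∀ p ∈ B o, p ∈ B o' →
      LCglue (fun q => (h (some (some o)) q)⁻¹ * h (some (some o')) q) p := by
    intro o o' p p1 p2
    refine (hn o o' p p1 p2).of_eq (fun z => ν ^ (6 * z)) (Eventually.of_forall fun q => ?_)
    simp only [hh, Option.elim]
    group
  obtain ⟨β, hβ⟩ := sph_charts A (by rintro (_ | _ | o); exacts [h1, h2, hB o])
    (fun p => by
      rcases cov p with h3 | h3 | h3
      exacts [⟨none, h3⟩, ⟨some none, h3⟩, ⟨some (some p), h3⟩]) h (by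
      rintro (_ | _ | o) (_ | _ | o') p p1 p2
      exacts [refl _ p, l12 p p1 p2, l1B _ p p1 p2, symm _ _ p (l12 p p2 p1), refl _ p,
        l2B _ p p1 p2, symm _ _ p (l1B _ p p2 p1), symm _ _ p (l2B _ p p2 p1), lBB _ _ p p1 p2])
  refine ⟨fun q => μ (β q * hV q), fun o p hp => ?_⟩
  refine LCglue.of_eq (f := fun q => β q * h (some (some o)) q) (hβ (some (some o)) p hp) μ
    (Eventually.of_forall fun q => ?_)
  simp only [hh, Option.elim]
  rw [← mul_assoc, hμ', sub_eq_add_neg]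

theorem glue (x y : Sph → ℂ) (hx : Continuous x) (hy : Continuous y)
    (h0 : ∀ p, x p ≠ 0 ∨ y p ≠ 0)
    (hG : HasLogOn (fun p => GG (x p) (y p)) {p | 1 / 4 * ‖y p‖ ^ 3 ≤ ‖GG (x p) (y p)‖}) :
    HasLogOn (fun p => x p * (starRingEnd ℂ) (y p))
      {p | ‖GG (x p) (y p)‖ < 1 / 2 * ‖y p‖ ^ 3} := by
  obtain ⟨Φ, hΦ, hΦe⟩ := hG
  set X : Sph → ℂ := fun p => (‖x p‖ : ℂ) * x p ^ 2 with hX
  set G : Sph → ℂ := fun p => GG (x p) (y p) with hGd
  set e : Sph → ℂ := fun p => x p * (starRingEnd ℂ) (y p) with he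
  have hGX : ∀ p, G p = X p - y p ^ 3 := fun p => rfl
  have cX : Continuous X := by fun_prop
  have cG : Continuous G := cX.sub (hy.pow 3)
  have ce : Continuous e := hx.mul (Complex.continuous_conj.comp hy)
  have hX0 : ∀ p, x p ≠ 0 → X p ≠ 0 := fun p hp => by simp [hX, hp]
  have hXa : ∀ p, x p ≠ 0 → ((X p).arg : Real.Angle) = 2 • ((x p).arg : Real.Angle) :=
    fun p hp => by rw [hX, Complex.arg_real_mul _ (norm_pos_iff.2 hp), Complex.arg_pow_coe_angle]
  set U : Set Sph := {p | 1 / 4 * ‖y p‖ ^ 3 < ‖G p‖} with hU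
  set V : Set Sph := {p | ‖G p‖ < 1 / 2 * ‖y p‖ ^ 3} with hV
  have oU : IsOpen U := isOpen_lt (by fun_prop) (by fun_prop)
  have oV : IsOpen V := isOpen_lt (by fun_prop) (by fun_prop)
  have op : ∀ (W : Set Sph) (f g : Sph → ℂ), IsOpen W → Continuous f → Continuous g →
      IsOpen (W ∩ {p | f p / g p ∈ Complex.slitPlane}) := fun W f g hW hf hg => by
    refine hW.inter (isOpen_iff_mem_nhds.2 fun p hp => ?_)
    exact (hf.continuousAt.div hg.continuousAt
      (div_ne_zero_iff.1 (Complex.slitPlane_ne_zero hp)).2) (Complex.isOpen_slitPlane.mem_nhds hp)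
  have ca : ∀ (f g : Sph → ℂ) (p : Sph), Continuous f → Continuous g →
      f p / g p ∈ Complex.slitPlane → ContinuousAt (fun q => (f q / g q).arg) p :=
    fun f g p hf hg hp => (Complex.continuousAt_arg hp).comp (f := fun q => f q / g q)
      (hf.continuousAt.div hg.continuousAt (div_ne_zero_iff.1 (Complex.slitPlane_ne_zero hp)).2)
  have cφ : ∀ p ∈ U, ContinuousAt (fun q => (Φ q).im) p := fun p hp =>
    Complex.continuous_im.continuousAt.comp
      (hΦ.continuousAt (mem_of_superset (oU.mem_nhds hp) fun q hq => le_of_lt (α := ℝ) hq))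
  have aG : ∀ p ∈ U, ((G p).arg : Real.Angle) = (Φ p).im := fun p hp => by
    rw [← hΦe p (le_of_lt (α := ℝ) hp), Complex.arg_exp, Real.Angle.coe_toIocMod]
  have hVy : ∀ p ∈ V, y p ≠ 0 := fun p hp h => by
    have := norm_nonneg (G p)
    simp only [hV, mem_ofPred_eq, h, norm_zero] at hp
    linarith
  have hVw : ∀ p ∈ V, 0 < (X p / y p ^ 3).re := fun p hp => by
    have h1 : X p / y p ^ 3 - 1 = G p / y p ^ 3 := by
      rw [hGX, sub_div, div_self (pow_ne_zero _ (hVy p hp))]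
    have h2 : ‖X p / y p ^ 3 - 1‖ < 1 / 2 := by
      rwa [h1, norm_div, norm_pow, div_lt_iff₀ (pow_pos (norm_pos_iff.2 (hVy p hp)) 3)]
    have h3 := (abs_le.1 (Complex.abs_re_le_norm (X p / y p ^ 3 - 1))).1
    rw [Complex.sub_re, Complex.one_re] at h3
    linarith
  have hVx : ∀ p ∈ V, x p ≠ 0 := fun p hp h => by simpa [hX, h] using hVw p hp
  have hVe : ∀ p ∈ V, e p ≠ 0 := fun p hp => mul_ne_zero (hVx p hp) (by simpa using hVy p hp)
  have ae : ∀ p ∈ V, ((e p).arg : Real.Angle) = (x p).arg - (y p).arg := fun p hp => by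
    rw [he, Complex.arg_mul_coe_angle (hVx p hp) (by simpa using hVy p hp),
      Complex.arg_conj_coe_angle, sub_eq_add_neg]
  have aw : ∀ p ∈ V, ((X p / y p ^ 3).arg : Real.Angle) =
      2 • ((x p).arg : Real.Angle) - 3 • ((y p).arg : Real.Angle) := fun p hp => by
    rw [Complex.arg_div_coe_angle (hX0 p (hVx p hp)) (pow_ne_zero _ (hVy p hp)), hXa p (hVx p hp),
      Complex.arg_pow_coe_angle]
  set A1 := U ∩ {p | -G p / y p ^ 3 ∈ Complex.slitPlane} with hA1
  set A2 := U ∩ {p | G p / X p ∈ Complex.slitPlane} with hA2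
  have o1 : IsOpen A1 := op U _ _ oU cG.neg (hy.pow 3)
  have o2 : IsOpen A2 := op U _ _ oU cG cX
  have c2 : ∀ θ : ℝ, ((2 * θ : ℝ) : Real.Angle) = 2 • (θ : Real.Angle) := fun θ => by
    rw [← Real.Angle.coe_nsmul, nsmul_eq_mul, Nat.cast_ofNat]
  have c3 : ∀ θ : ℝ, ((3 * θ : ℝ) : Real.Angle) = 3 • (θ : Real.Angle) := fun θ => by
    rw [← Real.Angle.coe_nsmul, nsmul_eq_mul, Nat.cast_ofNat]
  have y1 : ∀ p ∈ A1, y p ≠ 0 := fun p hp =>
    ne_zero_pow (by norm_num) (div_ne_zero_iff.1 (Complex.slitPlane_ne_zero hp.2)).2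
  have x2 : ∀ p ∈ A2, x p ≠ 0 := fun p hp h =>
    (div_ne_zero_iff.1 (Complex.slitPlane_ne_zero hp.2)).2 (by simp [hX, h])
  have eP : ∀ p ∈ A1, ∃ k : ℤ, 3 * (y p).arg - (Φ p).im + (-G p / y p ^ 3).arg + Real.pi =
      2 * Real.pi * k := fun p hp => int_of_angle_glue (by
    have h1 := div_ne_zero_iff.1 (Complex.slitPlane_ne_zero hp.2)
    rw [Real.Angle.coe_add, Real.Angle.coe_add, Real.Angle.coe_sub, c3,
      Complex.arg_div_coe_angle h1.1 h1.2, Complex.arg_neg_coe_angle (neg_ne_zero.1 h1.1),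
      aG p hp.1, Complex.arg_pow_coe_angle, ← Real.Angle.coe_pi_add_coe_pi]
    abel)
  have eQ : ∀ p ∈ A2, ∃ k : ℤ, 2 * (x p).arg - (Φ p).im + (G p / X p).arg =
      2 * Real.pi * k := fun p hp => int_of_angle_glue (by
    have h1 := div_ne_zero_iff.1 (Complex.slitPlane_ne_zero hp.2)
    rw [Real.Angle.coe_add, Real.Angle.coe_sub, c2, Complex.arg_div_coe_angle h1.1 h1.2,
      aG p hp.1, hXa p (x2 p hp)]
    abel)
  have es : ∀ p ∈ V, ∃ k : ℤ, (y p).arg - 2 * (e p).arg + (X p / y p ^ 3).arg =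
      2 * Real.pi * k := fun p hp => int_of_angle_glue (by
    rw [Real.Angle.coe_add, Real.Angle.coe_sub, c2, ae p hp, aw p hp]
    abel)
  have et : ∀ p ∈ V, ∃ k : ℤ, (x p).arg - 3 * (e p).arg + (X p / y p ^ 3).arg =
      2 * Real.pi * k := fun p hp => int_of_angle_glue (by
    rw [Real.Angle.coe_add, Real.Angle.coe_sub, c3, ae p hp, aw p hp]
    abel)
  choose! P eP using eP
  choose! Q eQ using eQ
  choose! s es using es
  choose! t et using et
  choose n hn using branch_glue ce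
  have cψ : ∀ p ∈ V, ContinuousAt (fun q => (X q / y q ^ 3).arg) p := fun p hp =>
    ca _ _ p cX (hy.pow 3) (Or.inl (hVw p hp))
  have one : ∀ z : ℂ, z ≠ 0 → z / z ∈ Complex.slitPlane := fun z hz => by
    rw [div_self hz]; exact Complex.one_mem_slitPlane
  have oB : ∀ o, IsOpen (V ∩ {p | e p / e o ∈ Complex.slitPlane}) := fun o =>
    op V _ _ oV ce continuous_const
  refine (cover_glue A1 A2 V (fun o => V ∩ {p | e p / e o ∈ Complex.slitPlane}) o1 o2
    oB (fun o => inter_subset_left) (fun p => ?_) P Q s t n (fun p hp => ?_) (fun p hp => ?_)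
    (fun o p hp hp' => ?_) (fun o p hp hp' => ?_) (fun o o' p hp hp' => ?_)
    fun p h1 h2 h3 => ?_).elim fun m hm => ?_
  rotate_right
  · refine log_root ce.continuousOn (a := 6) (by norm_num)
      ⟨fun p => (6 * Real.log ‖e p‖ : ℝ) +
        (6 * (e p).arg + 2 * Real.pi * m p : ℝ) * Complex.I, fun p hp => ?_, fun p hp => ?_⟩
    · have h1 : ContinuousAt (fun q => 6 * (e q).arg + 2 * Real.pi * m q) p := by
        refine (((hn p p (one _ (hVe p hp))).const_mul 6).add (continuousAt_const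
          (y := 2 * Real.pi * (m p - 6 * n p p : ℤ)))).congr ?_
        filter_upwards [hm p p ⟨hp, one _ (hVe p hp)⟩] with q hq
        simp only [Pi.add_apply, ← hq]
        push_cast
        ring
      have h2 : ContinuousAt (fun q => Real.log ‖e q‖) p :=
        ce.norm.continuousAt.log (norm_ne_zero_iff.2 (hVe p hp))
      exact ((Complex.continuous_ofReal.continuousAt.comp (h2.const_mul 6)).add
        ((Complex.continuous_ofReal.continuousAt.comp h1).mul_const _)).continuousWithinAt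
    · have h1 : ((6 * Real.log ‖e p‖ : ℝ) + (6 * (e p).arg + 2 * Real.pi * m p : ℝ) * Complex.I
          : ℂ) = (6 : ℕ) * Complex.log (e p) + m p * (2 * Real.pi * Complex.I) := by
        rw [Complex.log]
        push_cast
        ring
      beta_reduce
      rw [h1, Complex.exp_add, Complex.exp_nat_mul, Complex.exp_log (hVe p hp),
        Complex.exp_int_mul_two_pi_mul_I, mul_one, zpow_ofNat]
  · by_cases hp : p ∈ V
    · exact Or.inr (Or.inr ⟨hp, one _ (hVe p hp)⟩)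
    have hp' : 1 / 2 * ‖y p‖ ^ 3 ≤ ‖G p‖ := not_lt.1 hp
    by_cases hy0 : y p = 0
    · have h1 := hX0 p ((h0 p).resolve_right (not_not.2 hy0))
      have h2 : G p = X p := by rw [hGX, hy0]; simp
      refine Or.inr (Or.inl ⟨?_, by simpa only [mem_ofPred_eq, h2] using one _ h1⟩)
      simpa [hU, hy0, h2] using h1
    have hy3 := pow_pos (norm_pos_iff.2 hy0) 3
    have hpU : p ∈ U := by
      change 1 / 4 * ‖y p‖ ^ 3 < ‖G p‖
      linarith
    have hG0 : G p ≠ 0 := norm_pos_iff.1 (by linarith)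
    by_contra hc
    simp only [not_or, hA1, hA2, mem_inter_iff, hpU, true_and, mem_ofPred_eq,
      Complex.mem_slitPlane_iff, not_lt, not_not] at hc
    obtain ⟨⟨h1, h2⟩, ⟨h3, h4⟩, -⟩ := hc
    set u := -G p / y p ^ 3 with hu
    have h5 : u = (u.re : ℂ) := Complex.ext rfl (by simpa using h2)
    have h6 : G p = -u * y p ^ 3 := by rw [hu]; field_simp
    have h7 : X p = (1 - u) * y p ^ 3 := by
      have := hGX p
      rw [h6] at this
      linear_combination -this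
    have h8 : u.re ≠ 0 := fun h => hG0 (by rw [h6, h5, h]; simp)
    rw [h6, h7, mul_div_mul_right _ _ (pow_ne_zero _ hy0), h5] at h3
    norm_cast at h3
    exact absurd h3 (not_le.2 (div_pos (neg_pos.2 (lt_of_le_of_ne h1 h8)) (by linarith)))
  · obtain ⟨k, hk⟩ := branch_glue hy p
    refine ⟨k, lc_of_cont_glue (((((hk p (one _ (y1 p hp))).const_mul 3).sub (cφ p hp.1)).add
      (ca _ _ p cG.neg (hy.pow 3) hp.2)).add_const Real.pi) ?_⟩
    filter_upwards [o1.mem_nhds hp] with q hq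
    have := eP q hq
    simp only [Pi.add_apply, Pi.sub_apply, Pi.neg_apply, Pi.pow_apply]
    push_cast
    linarith
  · obtain ⟨k, hk⟩ := branch_glue hx p
    refine ⟨k, lc_of_cont_glue ((((hk p (one _ (x2 p hp))).const_mul 2).sub (cφ p hp.1)).add
      (ca _ _ p cG cX hp.2)) ?_⟩
    filter_upwards [o2.mem_nhds hp] with q hq
    have := eQ q hq
    simp only [Pi.add_apply, Pi.sub_apply]
    push_cast
    linarith
  · refine lc_of_cont_glue (((((cφ p hp.1).sub ((hn o p hp'.2).const_mul 6)).add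
      ((cψ p hp'.1).const_mul 3)).sub (ca _ _ p cG.neg (hy.pow 3) hp.2)).sub_const Real.pi) ?_
    filter_upwards [o1.mem_nhds hp, oV.mem_nhds hp'.1] with q hq hq'
    have := eP q hq
    have := es q hq'
    simp only [Pi.add_apply, Pi.sub_apply, Pi.neg_apply, Pi.pow_apply]
    push_cast
    linarith
  · refine lc_of_cont_glue ((((cφ p hp.1).sub ((hn o p hp'.2).const_mul 6)).add
      ((cψ p hp'.1).const_mul 2)).sub (ca _ _ p cG cX hp.2)) ?_
    filter_upwards [o2.mem_nhds hp, oV.mem_nhds hp'.1] with q hq hq'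
    have := eQ q hq
    have := et q hq'
    simp only [Pi.add_apply, Pi.sub_apply]
    push_cast
    linarith
  · refine lc_of_cont_glue ((hn o p hp.2).sub (hn o' p hp'.2)) (Eventually.of_forall fun q => ?_)
    simp only [Pi.sub_apply]
    push_cast
    ring
  · have e1 := eP p h1
    have e2 := eQ p h2
    have e3 := es p h3
    have e4 := et p h3
    have e5 := abs_lt.1 (Complex.abs_arg_lt_pi_div_two_iff.2 (Or.inl (hVw p h3)))
    have e6 := Complex.neg_pi_lt_arg (-G p / y p ^ 3)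
    have e7 := Complex.arg_le_pi (-G p / y p ^ 3)
    have e8 := Complex.neg_pi_lt_arg (G p / X p)
    have e9 := Complex.arg_le_pi (G p / X p)
    have hπ := Real.pi_pos
    set d : ℤ := 2 * t p - Q p - (3 * s p - P p) with hd
    have h4 : 2 * Real.pi * d = (-G p / y p ^ 3).arg + Real.pi - (G p / X p).arg -
        (X p / y p ^ 3).arg := by
      rw [hd]; push_cast; linarith
    have h5 : (-1 : ℝ) < d := by nlinarith
    have h6 : (d : ℝ) < 2 := by nlinarith
    have h7 : -1 < d := by exact_mod_cast h5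
    have h8 : d < 2 := by exact_mod_cast h6
    omega

end Pool.Agent.MP_ff6fba_gt

end

-- part MP_ff6fba_gt.Lock
section

/-! The longitudinal angle lifts near the trefoil on an embedded sphere. -/

namespace Pool.Agent.MP_ff6fba_gt

open Set Metric Filter Topology Pool.Agent.Lib.PlaneTop

/-- cut-off weight -/
noncomputable def lkW (x y : ℂ) : ℝ := max 0 (min (‖y‖ ^ 3) (2 * ‖y‖ ^ 3 - 4 * ‖GG x y‖))

/-- correction factor -/
noncomputable def lkS (x y : ℂ) : ℂ := 1 + ((lkW x y / ‖y‖ ^ 3 : ℝ) : ℂ) * (GG x y / y ^ 3)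

/-- first straightened coordinate -/
noncomputable def lkX (x y : ℂ) : ℂ := GG x y * lkS x y ^ 3

/-- second straightened coordinate -/
noncomputable def lkY (x y : ℂ) : ℂ :=
  ((lkW x y * ‖lkS x y‖ ^ 3 / ‖x * (starRingEnd ℂ) y‖ : ℝ) : ℂ) * (x * (starRingEnd ℂ) y)

theorem lkW_nonneg (x y : ℂ) : 0 ≤ lkW x y := le_max_left _ _

theorem lkW_le (x y : ℂ) : lkW x y ≤ ‖y‖ ^ 3 :=
  max_le (by positivity) (min_le_left _ _)

theorem lkW_of_neg {x y : ℂ} (h : 2 * ‖y‖ ^ 3 - 4 * ‖GG x y‖ ≤ 0) : lkW x y = 0 :=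
  max_eq_left ((min_le_right _ _).trans h)

theorem lkW_of_small {x y : ℂ} (h : ‖GG x y‖ ≤ 1 / 4 * ‖y‖ ^ 3) : lkW x y = ‖y‖ ^ 3 := by
  have h1 : ‖y‖ ^ 3 ≤ 2 * ‖y‖ ^ 3 - 4 * ‖GG x y‖ := by linarith
  rw [lkW, min_eq_left h1, max_eq_right (by positivity)]

theorem lk_neg_of_e {x y : ℂ} (h0 : x ≠ 0 ∨ y ≠ 0) (he : x * (starRingEnd ℂ) y = 0) :
    2 * ‖y‖ ^ 3 - 4 * ‖GG x y‖ < 0 := by
  rcases mul_eq_zero.1 he with hx | hy
  · have hy : y ≠ 0 := h0.resolve_left (by simp [hx])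
    have : 0 < ‖y‖ ^ 3 := pow_pos (norm_pos_iff.2 hy) 3
    have h1 : ‖GG x y‖ = ‖y‖ ^ 3 := by simp [GG, hx]
    rw [h1]; linarith
  · have hy' : y = 0 := by simpa using hy
    have hx : x ≠ 0 := h0.resolve_right (by simp [hy'])
    have : 0 < ‖x‖ := norm_pos_iff.2 hx
    have h1 : ‖GG x y‖ = ‖x‖ * ‖x‖ ^ 2 := by simp [GG, hy']
    rw [h1, hy']
    have : 0 < ‖x‖ * ‖x‖ ^ 2 := by positivity
    simp only [norm_zero]
    linarith

theorem lk_e_ne {x y : ℂ} (h0 : x ≠ 0 ∨ y ≠ 0) (h : ‖GG x y‖ ≤ 1 / 4 * ‖y‖ ^ 3) :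
    x * (starRingEnd ℂ) y ≠ 0 := by
  intro he
  have := lk_neg_of_e h0 he
  have h2 : 0 ≤ ‖y‖ ^ 3 := by positivity
  linarith

theorem lkS_re (x y : ℂ) : 0 < (lkS x y).re := by
  by_cases h : 2 * ‖y‖ ^ 3 - 4 * ‖GG x y‖ ≤ 0
  · simp [lkS, lkW_of_neg h]
  · push Not at h
    have hy : 0 < ‖y‖ ^ 3 := by
      have := norm_nonneg (GG x y); linarith
    have h1 : ‖((lkW x y / ‖y‖ ^ 3 : ℝ) : ℂ) * (GG x y / y ^ 3)‖ ≤ 1 / 2 := by
      rw [norm_mul, norm_div, norm_pow, Complex.norm_real, Real.norm_eq_abs,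
        abs_of_nonneg (div_nonneg (lkW_nonneg x y) hy.le)]
      have a1 : lkW x y / ‖y‖ ^ 3 ≤ 1 := (div_le_one hy).2 (lkW_le x y)
      have a2 : ‖GG x y‖ / ‖y‖ ^ 3 ≤ 1 / 2 := by
        rw [div_le_iff₀ hy]; linarith
      have a3 : 0 ≤ ‖GG x y‖ / ‖y‖ ^ 3 := by positivity
      nlinarith
    have h2 := (Complex.abs_re_le_norm _).trans h1
    have h3 := (abs_le.1 h2).1
    rw [lkS, Complex.add_re, Complex.one_re]
    linarith

theorem lkS_slit (x y : ℂ) : lkS x y ∈ Complex.slitPlane := Or.inl (lkS_re x y)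

theorem lkS_ne (x y : ℂ) : lkS x y ≠ 0 := Complex.slitPlane_ne_zero (lkS_slit x y)

theorem norm_lkX (x y : ℂ) : ‖lkX x y‖ = ‖GG x y‖ * ‖lkS x y‖ ^ 3 := by
  rw [lkX, norm_mul, norm_pow]

theorem norm_lkY {x y : ℂ} (he : x * (starRingEnd ℂ) y ≠ 0) :
    ‖lkY x y‖ = lkW x y * ‖lkS x y‖ ^ 3 := by
  have h1 : 0 < ‖x * (starRingEnd ℂ) y‖ := norm_pos_iff.2 he
  have h2 := lkW_nonneg x y
  rw [lkY, norm_mul, Complex.norm_real, Real.norm_eq_abs, abs_of_nonneg (by positivity)]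
  field_simp

theorem norm_lkY_le (x y : ℂ) : ‖lkY x y‖ ≤ ‖y‖ ^ 3 * ‖lkS x y‖ ^ 3 := by
  by_cases he : x * (starRingEnd ℂ) y = 0
  · rw [lkY, he, mul_zero, norm_zero]; positivity
  · rw [norm_lkY he]
    exact mul_le_mul_of_nonneg_right (lkW_le x y) (by positivity)

section cont

variable {Z : Type*} [TopologicalSpace Z] {x y : Z → ℂ}

theorem lk_cont_G (hx : Continuous x) (hy : Continuous y) :
    Continuous fun p => GG (x p) (y p) := by
  unfold GG; fun_prop

theorem lk_cont_W (hx : Continuous x) (hy : Continuous y) :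
    Continuous fun p => lkW (x p) (y p) := by
  have := lk_cont_G hx hy
  unfold lkW; fun_prop

theorem lk_ev (hx : Continuous x) (hy : Continuous y) {p : Z} (h0 : x p ≠ 0 ∨ y p ≠ 0)
    (he : x p * (starRingEnd ℂ) (y p) = 0) : ∀ᶠ q in 𝓝 p, lkW (x q) (y q) = 0 := by
  have hG := lk_cont_G hx hy
  have hc : Continuous fun q => 2 * ‖y q‖ ^ 3 - 4 * ‖GG (x q) (y q)‖ := by fun_prop
  filter_upwards [hc.continuousAt.eventually_lt continuousAt_const (lk_neg_of_e h0 he)] with q hq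
  exact lkW_of_neg hq.le

theorem lk_cont_S (hx : Continuous x) (hy : Continuous y) (h0 : ∀ p, x p ≠ 0 ∨ y p ≠ 0) :
    Continuous fun p => lkS (x p) (y p) := by
  have hG := lk_cont_G hx hy
  have hW := lk_cont_W hx hy
  refine continuous_iff_continuousAt.2 fun p => ?_
  by_cases he : x p * (starRingEnd ℂ) (y p) = 0
  · refine (continuousAt_const (y := (1 : ℂ))).congr ?_
    filter_upwards [lk_ev hx hy (h0 p) he] with q hq
    simp [lkS, hq]
  · have hy0 : y p ≠ 0 := fun h => he (by simp [h])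
    have h1 : ‖y p‖ ^ 3 ≠ 0 := pow_ne_zero _ (norm_ne_zero_iff.2 hy0)
    have h2 : y p ^ 3 ≠ 0 := pow_ne_zero _ hy0
    have a1 : ContinuousAt (fun q => lkW (x q) (y q) / ‖y q‖ ^ 3) p :=
      hW.continuousAt.div (by fun_prop) h1
    have a2 : ContinuousAt (fun q => GG (x q) (y q) / y q ^ 3) p :=
      hG.continuousAt.div (by fun_prop) h2
    exact continuousAt_const.add ((Complex.continuous_ofReal.continuousAt.comp a1).mul a2)

theorem lk_cont_X (hx : Continuous x) (hy : Continuous y) (h0 : ∀ p, x p ≠ 0 ∨ y p ≠ 0) :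
    Continuous fun p => lkX (x p) (y p) :=
  (lk_cont_G hx hy).mul ((lk_cont_S hx hy h0).pow 3)

theorem lk_cont_e (hx : Continuous x) (hy : Continuous y) :
    Continuous fun p => x p * (starRingEnd ℂ) (y p) :=
  hx.mul (Complex.continuous_conj.comp hy)

theorem lk_cont_Y (hx : Continuous x) (hy : Continuous y) (h0 : ∀ p, x p ≠ 0 ∨ y p ≠ 0) :
    Continuous fun p => lkY (x p) (y p) := by
  have hS := lk_cont_S hx hy h0
  have hW := lk_cont_W hx hy
  have hE := lk_cont_e hx hy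
  refine continuous_iff_continuousAt.2 fun p => ?_
  by_cases he : x p * (starRingEnd ℂ) (y p) = 0
  · refine (continuousAt_const (y := (0 : ℂ))).congr ?_
    filter_upwards [lk_ev hx hy (h0 p) he] with q hq
    simp [lkY, hq]
  · have a1 : ContinuousAt (fun q => lkW (x q) (y q) * ‖lkS (x q) (y q)‖ ^ 3 /
        ‖x q * (starRingEnd ℂ) (y q)‖) p :=
      (hW.mul (hS.norm.pow 3)).continuousAt.div hE.norm.continuousAt (norm_ne_zero_iff.2 he)
    exact (Complex.continuous_ofReal.continuousAt.comp a1).mul hE.continuousAt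

end cont

theorem lk_polar (x : ℂ) (hx : x ≠ 0) : ∃ a : ℂ, ‖a‖ = 1 ∧ x = (‖x‖ : ℂ) * a := by
  have h : (‖x‖ : ℂ) ≠ 0 := by exact_mod_cast norm_ne_zero_iff.2 hx
  refine ⟨x / ‖x‖, ?_, by field_simp⟩
  rw [norm_div, Complex.norm_real, norm_norm, div_self (norm_ne_zero_iff.2 hx)]

/-- the straightened coordinates in polar form, near the knot -/
theorem lk_form {r ρ : ℝ} {a b : ℂ} (hr : 0 < r) (hρ : 0 < ρ) (ha : ‖a‖ = 1) (hb : ‖b‖ = 1)
    (h : ‖GG (r * a) (ρ * b)‖ ≤ 1 / 4 * ‖(ρ : ℂ) * b‖ ^ 3) :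
    lkY (r * a) (ρ * b) = ((r ^ 9 / ρ ^ 6 : ℝ) : ℂ) * (a / b) ∧
    lkX (r * a) (ρ * b) = ((r ^ 9 / ρ ^ 6 : ℝ) : ℂ) * ((a / b) ^ 6 *
      ((((r / ρ) ^ 3 : ℝ) : ℂ) * (a ^ 2 / b ^ 3) - 1)) := by
  have hb0 : b ≠ 0 := by rintro rfl; simp at hb
  have hρ0 : (ρ : ℂ) ≠ 0 := by exact_mod_cast hρ.ne'
  have hr0 : (r : ℂ) ≠ 0 := by exact_mod_cast hr.ne'
  have hnx : ‖(r : ℂ) * a‖ = r := by
    rw [norm_mul, ha, Complex.norm_real, Real.norm_eq_abs, abs_of_pos hr, mul_one]
  have hny : ‖(ρ : ℂ) * b‖ = ρ := by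
    rw [norm_mul, hb, Complex.norm_real, Real.norm_eq_abs, abs_of_pos hρ, mul_one]
  have hW := lkW_of_small h
  have hS : lkS (r * a) (ρ * b) = (((r / ρ) ^ 3 : ℝ) : ℂ) * (a ^ 2 / b ^ 3) := by
    rw [lkS, hW, div_self (by rw [hny]; positivity), GG, hnx]
    push_cast
    field_simp
    ring
  have hnS : ‖lkS (r * a) (ρ * b)‖ = (r / ρ) ^ 3 := by
    rw [hS, norm_mul, norm_div, norm_pow, norm_pow, ha, hb, Complex.norm_real, Real.norm_eq_abs,
      abs_of_pos (by positivity)]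
    simp
  have hcb : (starRingEnd ℂ) b = b⁻¹ := by
    rw [Complex.inv_def, Complex.normSq_eq_norm_sq, hb]; simp
  have hne : ‖(r : ℂ) * a * (starRingEnd ℂ) ((ρ : ℂ) * b)‖ = r * ρ := by
    rw [norm_mul, hnx, Complex.norm_conj, hny]
  constructor
  · rw [lkY, hW, hnS, hne, hny, map_mul, hcb, Complex.conj_ofReal]
    push_cast
    field_simp
  · rw [lkX, hS, GG, hnx]
    push_cast
    field_simp

theorem lk_inj {x y x' y' : ℂ} (h0 : x ≠ 0 ∨ y ≠ 0) (h0' : x' ≠ 0 ∨ y' ≠ 0)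
    (h : ‖GG x y‖ ≤ 1 / 4 * ‖y‖ ^ 3) (h' : ‖GG x' y'‖ ≤ 1 / 4 * ‖y'‖ ^ 3) {s : ℝ} (hs : 0 < s)
    (hX : lkX x' y' = s * lkX x y) (hY : lkY x' y' = s * lkY x y) :
    ∃ t : ℝ, 0 < t ∧ x' = t * x ∧ y' = t * y := by
  have he := lk_e_ne h0 h
  have he' := lk_e_ne h0' h'
  have hx : x ≠ 0 := left_ne_zero_of_mul he
  have hy : y ≠ 0 := fun hh => he (by simp [hh])
  have hx' : x' ≠ 0 := left_ne_zero_of_mul he'
  have hy' : y' ≠ 0 := fun hh => he' (by simp [hh])
  obtain ⟨a, ha, hxa⟩ := lk_polar x hx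
  obtain ⟨b, hb, hyb⟩ := lk_polar y hy
  obtain ⟨a', ha', hxa'⟩ := lk_polar x' hx'
  obtain ⟨b', hb', hyb'⟩ := lk_polar y' hy'
  have hr : 0 < ‖x‖ := norm_pos_iff.2 hx
  have hρ : 0 < ‖y‖ := norm_pos_iff.2 hy
  have hr' : 0 < ‖x'‖ := norm_pos_iff.2 hx'
  have hρ' : 0 < ‖y'‖ := norm_pos_iff.2 hy'
  generalize ‖x‖ = r at hxa hr
  generalize ‖x'‖ = r' at hxa' hr'
  obtain ⟨ρ, hρe⟩ : ∃ ρ, ρ = ‖y‖ := ⟨_, rfl⟩
  obtain ⟨ρ', hρe'⟩ : ∃ ρ', ρ' = ‖y'‖ := ⟨_, rfl⟩
  rw [← hρe] at hyb hρ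
  rw [← hρe'] at hyb' hρ'
  clear hρe hρe'
  subst hxa hyb hxa' hyb'
  obtain ⟨e1, e2⟩ := lk_form hr hρ ha hb h
  obtain ⟨e1', e2'⟩ := lk_form hr' hρ' ha' hb' h'
  rw [e1, e1'] at hY
  rw [e2, e2'] at hX
  have ha0 : a ≠ 0 := by rintro rfl; simp at ha
  have hb0 : b ≠ 0 := by rintro rfl; simp at hb
  have hb0' : b' ≠ 0 := by rintro rfl; simp at hb'
  have hn : r' ^ 9 / ρ' ^ 6 = s * (r ^ 9 / ρ ^ 6) := by
    have := congrArg norm hY
    rw [norm_mul, norm_mul, norm_mul, norm_div a, norm_div a', ha, hb, ha', hb', Complex.norm_real,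
      Complex.norm_real, Complex.norm_real, Real.norm_eq_abs, Real.norm_eq_abs, Real.norm_eq_abs,
      abs_of_pos (by positivity), abs_of_pos hs, abs_of_pos (by positivity)] at this
    simpa using this
  have hc : ((s * (r ^ 9 / ρ ^ 6) : ℝ) : ℂ) ≠ 0 := by
    exact_mod_cast (by positivity : s * (r ^ 9 / ρ ^ 6) ≠ 0)
  rw [hn, ← mul_assoc (s : ℂ), ← Complex.ofReal_mul] at hX hY
  have hu : a' / b' = a / b := mul_left_cancel₀ hc hY
  have hX1 := mul_left_cancel₀ hc hX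
  rw [hu] at hX1
  have hab : a / b ≠ 0 := div_ne_zero ha0 hb0
  have hw := sub_left_inj.1 (mul_left_cancel₀ (pow_ne_zero 6 hab) hX1)
  have hq : (r' / ρ') ^ 3 = (r / ρ) ^ 3 := by
    have := congrArg norm hw
    rw [norm_mul, norm_mul, norm_div, norm_div, norm_pow, norm_pow, norm_pow, norm_pow, ha, hb, ha',
      hb', Complex.norm_real, Complex.norm_real, Real.norm_eq_abs, Real.norm_eq_abs,
      abs_of_pos (by positivity), abs_of_pos (by positivity)] at this
    simpa using this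
  have hq1 : r' / ρ' = r / ρ := (pow_left_inj₀ (by positivity) (by positivity) (by norm_num)).1 hq
  have hq0 : (((r / ρ) ^ 3 : ℝ) : ℂ) ≠ 0 := by
    exact_mod_cast (by positivity : (r / ρ) ^ 3 ≠ 0)
  rw [hq] at hw
  have hw1 := mul_left_cancel₀ hq0 hw
  have hbb : b' = b := by
    have f1 : a' ^ 2 / b' ^ 3 = (a' / b') ^ 2 * b'⁻¹ := by field_simp
    have f2 : a ^ 2 / b ^ 3 = (a / b) ^ 2 * b⁻¹ := by field_simp
    rw [f1, f2, hu] at hw1
    exact inv_injective (mul_left_cancel₀ (pow_ne_zero 2 hab) hw1)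
  subst hbb
  have haa : a' = a := by
    have := hu
    field_simp at this
    exact this
  subst haa
  refine ⟨ρ' / ρ, by positivity, ?_, ?_⟩
  · have : r' = ρ' / ρ * r := by
      field_simp at hq1 ⊢
      linarith
    rw [this]; push_cast; ring
  · have hρ0 : (ρ : ℂ) ≠ 0 := by exact_mod_cast hρ.ne'
    push_cast; field_simp

theorem lock_core (x y : Sph → ℂ) (hx : Continuous x) (hy : Continuous y)
    (h0 : ∀ p, x p ≠ 0 ∨ y p ≠ 0)
    (hinf : ∀ p, GG (x p) (y p) = 0 → x p * (starRingEnd ℂ) (y p) ∈ Complex.slitPlane)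
    (K : Set Sph) (hK : IsClosed K) (hK1 : ∀ p ∈ K, ‖GG (x p) (y p)‖ ≤ 1 / 50 * ‖y p‖ ^ 3)
    (hinj : ∀ p ∈ K, ∀ q, ∀ s : ℝ, 0 < s → x q = s * x p → y q = s * y p → q = p) :
    HasLogOn (fun p => x p * (starRingEnd ℂ) (y p)) K := by
  have small : ∀ p, ‖GG (x p) (y p)‖ ≤ 1 / 50 * ‖y p‖ ^ 3 →
      ‖GG (x p) (y p)‖ ≤ 1 / 4 * ‖y p‖ ^ 3 := fun p hp => by
    have : 0 ≤ ‖y p‖ ^ 3 := by positivity
    linarith
  have hS := lk_cont_S hx hy h0
  have hW := lk_cont_W hx hy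
  have hE := lk_cont_e hx hy
  have hpos : ∀ p, ‖GG (x p) (y p)‖ ≤ 1 / 4 * ‖y p‖ ^ 3 → 0 < ‖y p‖ ^ 3 := fun p hp => by
    have he := lk_e_ne (h0 p) hp
    have hy0 : y p ≠ 0 := fun hh => he (by simp [hh])
    exact pow_pos (norm_pos_iff.2 hy0) 3
  have hc : ∀ p, ‖GG (x p) (y p)‖ ≤ 1 / 4 * ‖y p‖ ^ 3 →
      0 < lkW (x p) (y p) * ‖lkS (x p) (y p)‖ ^ 3 / ‖x p * (starRingEnd ℂ) (y p)‖ := fun p hp => by
    have h1 := norm_pos_iff.2 (lk_e_ne (h0 p) hp)
    have h2 := norm_pos_iff.2 (lkS_ne (x p) (y p))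
    have h3 := hpos p hp
    rw [lkW_of_small hp]
    positivity
  have hXY : ∀ p ∈ K, ‖lkX (x p) (y p)‖ ≤ 1 / 50 * ‖lkY (x p) (y p)‖ := fun p hp => by
    rw [norm_lkX, norm_lkY (lk_e_ne (h0 p) (small p (hK1 p hp))), lkW_of_small (small p (hK1 p hp)),
      ← mul_assoc]
    exact mul_le_mul_of_nonneg_right (hK1 p hp) (by positivity)
  have H0 : ∀ p, lkX (x p) (y p) = 0 → lkY (x p) (y p) ∈ Complex.slitPlane := by
    intro p hp
    have hG : GG (x p) (y p) = 0 :=
      (mul_eq_zero.1 hp).resolve_right (pow_ne_zero _ (lkS_ne _ _))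
    have h1 : ‖GG (x p) (y p)‖ ≤ 1 / 4 * ‖y p‖ ^ 3 := by rw [hG, norm_zero]; positivity
    have h2 := hc p h1
    have h3 := hinf p hG
    simp only [lkY]
    generalize lkW (x p) (y p) * ‖lkS (x p) (y p)‖ ^ 3 / ‖x p * (starRingEnd ℂ) (y p)‖ = c at h2
    generalize x p * (starRingEnd ℂ) (y p) = e at h3
    rcases h3 with h3 | h3
    · left; simpa using mul_pos h2 h3
    · right; simpa using ⟨h2.ne', h3⟩
  have H1 : ∀ p ∈ K, ∀ q, ∀ s : ℝ, 0 < s → lkX (x q) (y q) = s * lkX (x p) (y p) →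
      lkY (x q) (y q) = s * lkY (x p) (y p) → q = p := by
    intro p hp q s hs hXq hYq
    have hq : ‖GG (x q) (y q)‖ ≤ 1 / 50 * ‖y q‖ ^ 3 := by
      have a1 := hXY p hp
      have a2 : ‖lkX (x q) (y q)‖ ≤ 1 / 50 * ‖lkY (x q) (y q)‖ := by
        have b1 : ‖lkX (x q) (y q)‖ = s * ‖lkX (x p) (y p)‖ := by
          have := congrArg norm hXq
          simpa [abs_of_pos hs] using this
        have b2 : ‖lkY (x q) (y q)‖ = s * ‖lkY (x p) (y p)‖ := by
          have := congrArg norm hYq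
          simpa [abs_of_pos hs] using this
        rw [b1, b2]
        nlinarith [mul_le_mul_of_nonneg_left a1 hs.le]
      have a3 := norm_lkY_le (x q) (y q)
      rw [norm_lkX] at a2
      have a4 : 0 < ‖lkS (x q) (y q)‖ ^ 3 := pow_pos (norm_pos_iff.2 (lkS_ne _ _)) 3
      refine le_of_mul_le_mul_right ?_ a4
      linarith
    obtain ⟨t, ht, h1, h2⟩ := lk_inj (h0 p) (h0 q) (small p (hK1 p hp)) (small q hq) hs hXq hYq
    exact hinj p hp q t ht h1 h2
  rcases link (fun p => lkX (x p) (y p)) (fun p => lkY (x p) (y p)) (lk_cont_X hx hy h0)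
    (lk_cont_Y hx hy h0) H0 K hK hXY H1 with h | h
  · have h1 : HasLogOn (fun p => ((lkW (x p) (y p) * ‖lkS (x p) (y p)‖ ^ 3 /
        ‖x p * (starRingEnd ℂ) (y p)‖ : ℝ) : ℂ)) K := by
      refine hasLogOn_slit (Complex.continuous_ofReal.comp_continuousOn ?_) fun p hp => ?_
      · exact (hW.mul (hS.norm.pow 3)).continuousOn.div hE.norm.continuousOn fun p hp =>
          norm_ne_zero_iff.2 (lk_e_ne (h0 p) (small p (hK1 p hp)))
      · exact Complex.ofReal_mem_slitPlane.2 (hc p (small p (hK1 p hp)))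
    refine (h.div h1).congr fun p hp => ?_
    have h2 : ((lkW (x p) (y p) * ‖lkS (x p) (y p)‖ ^ 3 /
        ‖x p * (starRingEnd ℂ) (y p)‖ : ℝ) : ℂ) ≠ 0 := by
      exact_mod_cast (hc p (small p (hK1 p hp))).ne'
    simp only [lkY]
    rw [mul_div_cancel_left₀ _ h2]
  · have h1 : HasLogOn (fun p => lkS (x p) (y p))
        {p | 1 / 4 * ‖y p‖ ^ 3 ≤ ‖GG (x p) (y p)‖} :=
      hasLogOn_slit hS.continuousOn fun p _ => lkS_slit _ _
    have h2 : HasLogOn (fun p => lkX (x p) (y p))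
        {p | 1 / 4 * ‖y p‖ ^ 3 ≤ ‖GG (x p) (y p)‖} := by
      refine h.mono fun p hp => ?_
      have hp' : 1 / 4 * ‖y p‖ ^ 3 ≤ ‖GG (x p) (y p)‖ := hp
      change 1 / 4 * ‖lkY (x p) (y p)‖ ≤ ‖lkX (x p) (y p)‖
      rw [norm_lkX]
      have a1 := norm_lkY_le (x p) (y p)
      have a2 : 0 ≤ ‖lkS (x p) (y p)‖ ^ 3 := by positivity
      nlinarith [mul_le_mul_of_nonneg_right hp' a2]
    have h3 : HasLogOn (fun p => GG (x p) (y p))
        {p | 1 / 4 * ‖y p‖ ^ 3 ≤ ‖GG (x p) (y p)‖} := by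
      refine (h2.div ((h1.mul h1).mul h1)).congr fun p _ => ?_
      have := lkS_ne (x p) (y p)
      simp only [lkX]
      field_simp
    refine (glue x y hx hy h0 h3).mono fun p hp => ?_
    have a1 := hK1 p hp
    have a2 := hpos p (small p a1)
    change ‖GG (x p) (y p)‖ < 1 / 2 * ‖y p‖ ^ 3
    linarith

end Pool.Agent.MP_ff6fba_gt

end

-- part MP_ff6fba_gt.ModelB
section

/-! The long trefoil in `E`: the lock property. -/

namespace Pool.Agent.MP_ff6fba_gt

open Set Metric Filter Topology Pool.Agent.Lib.PlaneTop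

/-- difference between the passage function and the normalised argument -/
noncomputable def mbD (z : ℂ) : ℝ := hz z - Complex.arg z / (2 * Real.pi)

theorem mb_hz_cont {z : ℂ} (h : z ∈ Complex.slitPlane) : ContinuousAt hz z := by
  have := Complex.continuousAt_arg h
  unfold hz
  exact continuousAt_const.max (continuousAt_const.min
    ((this.div_const _).add continuousAt_const))

theorem mbD_neg {z : ℂ} (h : z.re < 0) : mbD z = 1 / 2 - Complex.arg (-z) / (2 * Real.pi) := by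
  have hpi := Real.pi_pos
  rcases lt_or_ge z.im 0 with h1 | h1
  · rw [mbD, (hz_of_re_neg h).2 h1, Complex.arg_neg_eq_arg_add_pi_of_im_neg h1]
    field_simp
    ring
  · rw [mbD, (hz_of_re_neg h).1 h1]
    rcases h1.eq_or_lt with h2 | h2
    · have a1 : Complex.arg z = Real.pi := Complex.arg_eq_pi_iff.2 ⟨h, h2.symm⟩
      have a2 : Complex.arg (-z) = 0 := Complex.arg_eq_zero_iff.2 ⟨by simp; linarith, by simp [← h2]⟩
      rw [a1, a2]
      field_simp
      ring
    · rw [Complex.arg_neg_eq_arg_sub_pi_of_im_pos h2]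
      field_simp
      ring

theorem mbD_cont {z : ℂ} (h : z ≠ 0) : ContinuousAt mbD z := by
  by_cases hs : z ∈ Complex.slitPlane
  · exact (mb_hz_cont hs).sub ((Complex.continuousAt_arg hs).div_const _)
  · have h1 : z.re < 0 := by
      rw [Complex.mem_slitPlane_iff, not_or, not_lt, not_not] at hs
      refine lt_of_le_of_ne hs.1 fun h2 => h (Complex.ext h2 hs.2)
    have h2 : -z ∈ Complex.slitPlane := Or.inl (by simpa using h1)
    have h3 : ContinuousAt (fun w : ℂ => 1 / 2 - Complex.arg (-w) / (2 * Real.pi)) z :=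
      continuousAt_const.sub
        (((Complex.continuousAt_arg h2).comp (f := fun w : ℂ => -w) (by fun_prop)).div_const _)
    refine h3.congr ?_
    filter_upwards [Complex.continuous_re.continuousAt.eventually_lt continuousAt_const h1]
      with w hw
    exact (mbD_neg hw).symm

theorem mb_cont_ee : Continuous ee := lk_cont_e continuous_sx continuous_sy

theorem mb_int {ω z : ℂ} (h : Complex.exp ω = z) :
    ∃ n : ℤ, ω.im / (2 * Real.pi) + mbD z - hz z = n := by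
  have hz0 : z ≠ 0 := h ▸ Complex.exp_ne_zero ω
  obtain ⟨n, hn⟩ := Complex.exp_eq_exp_iff_exists_int.1 (h.trans (Complex.exp_log hz0).symm)
  refine ⟨n, ?_⟩
  have h1 : ω.im = Complex.arg z + n * (2 * Real.pi) := by
    rw [hn]; simp [Complex.log_im]
  have hpi := Real.pi_pos
  rw [mbD, h1]
  field_simp
  ring

theorem mb_lock {R : ℝ} (hR : ∀ u : E, R ≤ ‖u‖ →
    ‖GG (sx u) (sy u)‖ < 1 / 100 * ‖sy u‖ ^ 3 ∧ (ee u).re < 0)
    (σ : Sph → E) (hσ : Continuous σ) (hinj : ∀ p q, ‖σ p‖ < R → σ p = σ q → p = q) :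
    ∃ f : Sph → ℝ, Continuous f ∧ (∀ p, R ≤ ‖σ p‖ → ∃ n : ℤ, f p = n) ∧
      ∀ p, σ p ∈ Om → ∃ n : ℤ, f p - hz (ee (σ p)) = n := by
  have hx : Continuous fun p => sx (σ p) := continuous_sx.comp hσ
  have hy : Continuous fun p => sy (σ p) := continuous_sy.comp hσ
  have hG := lk_cont_G hx hy
  have hE : Continuous fun p => ee (σ p) := mb_cont_ee.comp hσ
  let A : Set Sph := {p | 1 / 100 * ‖sy (σ p)‖ ^ 3 ≤ ‖GG (sx (σ p)) (sy (σ p))‖}
  let B : Set Sph := {p | ‖GG (sx (σ p)) (sy (σ p))‖ ≤ 1 / 50 * ‖sy (σ p)‖ ^ 3}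
  have hA : IsClosed A := isClosed_le (by fun_prop) hG.norm
  have hB : IsClosed B := isClosed_le hG.norm (by fun_prop)
  have hAB : A ∪ B = univ := by
    refine eq_univ_of_forall fun p => ?_
    by_cases h : p ∈ B
    · exact Or.inr h
    · left
      have h1 : ¬ ‖GG (sx (σ p)) (sy (σ p))‖ ≤ 1 / 50 * ‖sy (σ p)‖ ^ 3 := h
      have h2 : 0 ≤ ‖sy (σ p)‖ ^ 3 := by positivity
      change 1 / 100 * ‖sy (σ p)‖ ^ 3 ≤ ‖GG (sx (σ p)) (sy (σ p))‖
      linarith
  have hne : ∀ p ∈ B, ee (σ p) ≠ 0 := fun p hp => by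
    have h1 : ‖GG (sx (σ p)) (sy (σ p))‖ ≤ 1 / 50 * ‖sy (σ p)‖ ^ 3 := hp
    have h2 : 0 ≤ ‖sy (σ p)‖ ^ 3 := by positivity
    exact lk_e_ne (sxy_ne _) (by linarith)
  have hK : HasLogOn (fun p => ee (σ p)) (A ∩ B) := by
    refine lock_core (fun p => sx (σ p)) (fun p => sy (σ p)) hx hy (fun p => sxy_ne _)
      (fun p hp => ee_slit hp) (A ∩ B) (hA.inter hB) (fun p hp => hp.2) ?_
    intro p hp q s hs h1 h2
    have h3 : σ q = σ p := sxy_inj hs h1 h2
    refine (hinj p q ?_ h3.symm).symm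
    by_contra h4
    have h5 := (hR _ (not_lt.1 h4)).1
    have h6 : 1 / 100 * ‖sy (σ p)‖ ^ 3 ≤ ‖GG (sx (σ p)) (sy (σ p))‖ := hp.1
    linarith
  obtain ⟨ω, hω, hexp⟩ := log_of_overlap hA hB hAB hE.continuousOn hne hK
  have hf0 : ContinuousOn (fun p => (ω p).im / (2 * Real.pi) + mbD (ee (σ p))) B := by
    refine ((Complex.continuous_im.comp_continuousOn hω).div_const _).add fun p hp => ?_
    exact ((mbD_cont (hne p hp)).comp (f := fun p => ee (σ p)) hE.continuousAt).continuousWithinAt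
  obtain ⟨g, hg⟩ := ContinuousMap.exists_restrict_eq hB
    (⟨_, continuousOn_iff_continuous_domRestrict.1 hf0⟩ : C(B, ℝ))
  have hgB : ∀ p ∈ B, g p = (ω p).im / (2 * Real.pi) + mbD (ee (σ p)) := fun p hp =>
    DFunLike.congr_fun hg ⟨p, hp⟩
  have key : ∀ p ∈ B, ∃ n : ℤ, g p - hz (ee (σ p)) = n := fun p hp => by
    rw [hgB p hp]; exact mb_int (hexp p hp)
  refine ⟨g, g.continuous, fun p hp => ?_, fun p hp => key p (le_of_lt hp.1)⟩
  obtain ⟨h1, h2⟩ := hR _ hp
  have h3 : p ∈ B := by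
    have h2 : 0 ≤ ‖sy (σ p)‖ ^ 3 := by positivity
    change ‖GG (sx (σ p)) (sy (σ p))‖ ≤ 1 / 50 * ‖sy (σ p)‖ ^ 3
    linarith
  obtain ⟨n, hn⟩ := key p h3
  rcases lt_or_ge (ee (σ p)).im 0 with h4 | h4
  · rw [(hz_of_re_neg h2).2 h4] at hn
    exact ⟨n, by linarith⟩
  · rw [(hz_of_re_neg h2).1 h4] at hn
    exact ⟨n + 1, by push_cast; linarith⟩

theorem exists_model : ∃ (Ω : Set E) (hm : E → ℝ) (R l : ℝ), IsModel Ω hm R l := by
  obtain ⟨R, hR0, hR⟩ := exists_far
  obtain ⟨l, hl, hax, hpath⟩ := exists_path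
  have hG := lk_cont_G continuous_sx continuous_sy
  have hsy := continuous_sy
  refine ⟨Om, fun u => hz (ee u), R, l, ?_, ?_, fun u => le_max_left _ _,
    fun u => max_le zero_le_one (min_le_left _ _), hR0, hl, ?_, mb_lock hR, exists_side, hax, hpath⟩
  · exact (isOpen_lt hG.norm (by fun_prop)).inter
      (Complex.isOpen_slitPlane.preimage mb_cont_ee)
  · intro u hu
    exact ((mb_hz_cont hu.2).comp mb_cont_ee.continuousAt).continuousWithinAt
  · intro u _ h0 h1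
    by_contra h
    have h2 := (hR u (not_lt.1 h)).2
    rcases lt_or_ge (ee u).im 0 with h4 | h4
    · rw [(hz_of_re_neg h2).2 h4] at h0
      exact lt_irrefl _ h0
    · rw [(hz_of_re_neg h2).1 h4] at h1
      exact lt_irrefl _ h1

end Pool.Agent.MP_ff6fba_gt

end

-- part MP_ff6fba_gt.Fine
section

/-! A long chain of small knots. -/

namespace Pool.Agent.MP_ff6fba_gt

open Set Metric Filter Topology

theorem ax0_fine : ax 0 = 0 := by simp [ax]
theorem ax1_fine : ax 1 = 0 := by simp [ax]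
theorem ax2_fine : ax 2 = 1 := by simp [ax]
theorem norm_ax_fine : ‖ax‖ = 1 := by simp [ax]

theorem norm_le_fine (u : E) : ‖u‖ ≤ |u 0| + |u 1| + |u 2| := by
  have h0 := abs_nonneg (u 0)
  have h1 := abs_nonneg (u 1)
  have h2 := abs_nonneg (u 2)
  refine abs_le_of_sq_le_sq' ?_ (by positivity) |>.2
  rw [EuclideanSpace.real_norm_sq_eq, Fin.sum_univ_three, ← sq_abs (u 0), ← sq_abs (u 1),
    ← sq_abs (u 2)]
  nlinarith [mul_nonneg h0 h1, mul_nonneg h0 h2, mul_nonneg h1 h2]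

theorem coord_le_fine (u : E) (i : Fin 3) : |u i| ≤ ‖u‖ := by
  simpa using PiLp.norm_apply_le u i

/-- model coordinates centred at height `a` -/
noncomputable def Wf (r a : ℝ) (u : E) : E := r⁻¹ • u - a • ax

theorem Wf0 (r a : ℝ) (u : E) : Wf r a u 0 = r⁻¹ * u 0 := by simp [Wf, ax0_fine]
theorem Wf1 (r a : ℝ) (u : E) : Wf r a u 1 = r⁻¹ * u 1 := by simp [Wf, ax1_fine]
theorem Wf2 (r a : ℝ) (u : E) : Wf r a u 2 = r⁻¹ * u 2 - a := by simp [Wf, ax2_fine]

theorem continuous_Wf (r a : ℝ) : Continuous (Wf r a) := by unfold Wf; fun_prop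

theorem Wf_smul {r : ℝ} (hr : 0 < r) (a : ℝ) (v : E) : Wf r a (r • v) = v - a • ax := by
  simp [Wf, smul_smul, inv_mul_cancel₀ hr.ne']

theorem Wf_inj {r : ℝ} (hr : 0 < r) (a : ℝ) {u v : E} (h : Wf r a u = Wf r a v) : u = v := by
  have h1 : r⁻¹ • u = r⁻¹ • v := sub_left_injective h
  exact smul_right_injective E (inv_ne_zero hr.ne') h1

theorem mem_ball_Wf {r : ℝ} (hr : 0 < r) (a R : ℝ) (u : E) :
    u ∈ ball ((r * a) • ax) (r * R) ↔ ‖Wf r a u‖ < R := by
  have : u - (r * a) • ax = r • Wf r a u := by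
    simp [Wf, smul_sub, smul_smul, mul_inv_cancel₀ hr.ne']
  rw [mem_ball, dist_eq_norm, this, norm_smul, Real.norm_of_nonneg hr.le,
    mul_lt_mul_iff_right₀ hr]

/-- the tube -/
def Tf (Ω : Set E) (r l D B : ℝ) (n : ℕ) : Set E :=
  {u | |r⁻¹ * u 0| < B + 1 ∧ |r⁻¹ * u 1| < B + 1 ∧ -(B + 1) < r⁻¹ * u 2 - l ∧
    r⁻¹ * u 2 - l < n * D + B + 1 ∧ ∀ k < n + 1, Wf r (k * D + l) u ∈ Ω}

theorem isOpen_Tf {Ω : Set E} (hΩ : IsOpen Ω) (r l D B : ℝ) (n : ℕ) :
    IsOpen (Tf Ω r l D B n) := by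
  have h5 : IsOpen {u : E | ∀ k < n + 1, Wf r (k * D + l) u ∈ Ω} := by
    have : {u : E | ∀ k < n + 1, Wf r (k * D + l) u ∈ Ω} =
        ⋂ k ∈ Iio (n + 1), Wf r (k * D + l) ⁻¹' Ω := by
      ext u; simp
    rw [this]
    exact (finite_Iio _).isOpen_biInter fun k _ => hΩ.preimage (continuous_Wf _ _)
  have h1 : IsOpen {u : E | |r⁻¹ * u 0| < B + 1} := isOpen_lt (by fun_prop) continuous_const
  have h2 : IsOpen {u : E | |r⁻¹ * u 1| < B + 1} := isOpen_lt (by fun_prop) continuous_const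
  have h3 : IsOpen {u : E | -(B + 1) < r⁻¹ * u 2 - l} :=
    isOpen_lt continuous_const (by fun_prop)
  have h4 : IsOpen {u : E | r⁻¹ * u 2 - l < n * D + B + 1} :=
    isOpen_lt (by fun_prop) continuous_const
  exact h1.inter (h2.inter (h3.inter (h4.inter h5)))

theorem smul_mem_Tf {Ω : Set E} {r l D B : ℝ} {n : ℕ} (hr : 0 < r) {v : E}
    (h0 : |v 0| < B + 1) (h1 : |v 1| < B + 1) (h2 : -(B + 1) < v 2 - l)
    (h3 : v 2 - l < n * D + B + 1) (h4 : ∀ k < n + 1, v - ((k : ℝ) * D + l) • ax ∈ Ω) :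
    r • v ∈ Tf Ω r l D B n := by
  have e : ∀ i, r⁻¹ * (r • v) i = v i := fun i => by
    simp [← mul_assoc, inv_mul_cancel₀ hr.ne']
  refine ⟨by rwa [e], by rwa [e], by rwa [e], by rwa [e], fun k hk => ?_⟩
  rw [Wf_smul hr]
  exact h4 k hk

theorem cast_lt_fine {k k' : ℕ} (h : k < k') {D : ℝ} (hD : 0 ≤ D) :
    (k : ℝ) * D + D ≤ k' * D := by
  have : (k : ℝ) + 1 ≤ k' := by exact_mod_cast h
  nlinarith

theorem cast_le_fine {k k' : ℕ} (h : k ≤ k') {D : ℝ} (hD : 0 ≤ D) :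
    (k : ℝ) * D ≤ k' * D :=
  mul_le_mul_of_nonneg_right (by exact_mod_cast h) hD

theorem long_fine {Ω : Set E} {hm : E → ℝ} {R l : ℝ} (h : IsModel Ω hm R l) {r D B R' : ℝ}
    (hr : 0 < r) (γ : Path ((-l) • ax) (l • ax)) (hγ : ∀ t, γ t ∈ Ω) (hB : ∀ t, ‖γ t‖ ≤ B)
    (hB0 : 0 ≤ B) (hD : B + |R'| ≤ D) (hl : 2 * l ≤ D)
    (hs : ∀ u : E, |u 0| ≤ B + 1 → |u 1| ≤ B + 1 →
      (R' ≤ u 2 → u ∈ Ω ∧ hm u = 1) ∧ (u 2 ≤ -R' → u ∈ Ω ∧ hm u = 0)) (n : ℕ) :
    ∀ k < n + 1, JoinedIn (Tf Ω r l D B n) 0 (r • (((k : ℝ) * D + 2 * l) • ax)) := by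
  have hl0 := h.l_pos
  have hD0 : 0 ≤ D := by linarith
  have hR' := le_abs_self R'
  have knot : ∀ k < n + 1, JoinedIn (Tf Ω r l D B n) (r • (((k : ℝ) * D) • ax))
      (r • (((k : ℝ) * D + 2 * l) • ax)) := by
    intro k hk
    refine JoinedIn.ofLine (f := fun t => r • (γ.extend t + ((k : ℝ) * D + l) • ax))
      (by fun_prop) ?_ ?_ ?_
    · simp only [Path.extend_zero]
      rw [← add_smul]; congr 2; ring
    · simp only [Path.extend_one]
      rw [← add_smul]; congr 2; ring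
    · rintro _ ⟨t, ht, rfl⟩
      simp only
      rw [Path.extend_apply γ ht]
      set v := γ ⟨t, ht⟩ with hv
      have b0 := (coord_le_fine v 0).trans (hB _)
      have b1 := (coord_le_fine v 1).trans (hB _)
      have b2 := abs_le.1 ((coord_le_fine v 2).trans (hB _))
      have hkn := cast_le_fine (Nat.lt_succ_iff.1 hk) hD0
      have hk0 : 0 ≤ (k : ℝ) * D := by positivity
      refine smul_mem_Tf hr ?_ ?_ ?_ ?_ fun k' _ => ?_
      · simp only [PiLp.add_apply, PiLp.smul_apply, ax0_fine, smul_zero, add_zero]; linarith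
      · simp only [PiLp.add_apply, PiLp.smul_apply, ax1_fine, smul_zero, add_zero]; linarith
      · simp only [PiLp.add_apply, PiLp.smul_apply, ax2_fine, smul_eq_mul, mul_one]; linarith
      · simp only [PiLp.add_apply, PiLp.smul_apply, ax2_fine, smul_eq_mul, mul_one]; linarith
      · have hs' := hs (v + ((k : ℝ) * D + l) • ax - ((k' : ℝ) * D + l) • ax)
          (by simp only [PiLp.add_apply, PiLp.sub_apply, PiLp.smul_apply, ax0_fine, smul_zero,
              add_zero, sub_zero]; linarith)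
          (by simp only [PiLp.add_apply, PiLp.sub_apply, PiLp.smul_apply, ax1_fine, smul_zero,
              add_zero, sub_zero]; linarith)
        simp only [PiLp.add_apply, PiLp.sub_apply, PiLp.smul_apply, ax2_fine, smul_eq_mul,
          mul_one] at hs'
        rcases lt_trichotomy k' k with hlt | rfl | hlt
        · exact (hs'.1 (by linarith [cast_lt_fine hlt hD0])).1
        · rw [add_sub_cancel_right]; exact hγ _
        · exact (hs'.2 (by linarith [cast_lt_fine hlt hD0])).1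
  have seg : ∀ k, k + 1 < n + 1 → JoinedIn (Tf Ω r l D B n)
      (r • (((k : ℝ) * D + 2 * l) • ax)) (r • ((((k + 1 : ℕ) : ℝ) * D) • ax)) := by
    intro k hk
    refine JoinedIn.ofLine (f := fun t => r • (((k : ℝ) * D + 2 * l + t * (D - 2 * l)) • ax))
      (by fun_prop) ?_ ?_ ?_
    · simp
    · congr 2; push_cast; ring
    · rintro _ ⟨t, ht, rfl⟩
      have t0 : 0 ≤ t * (D - 2 * l) := mul_nonneg ht.1 (by linarith)
      have t1 : t * (D - 2 * l) ≤ D - 2 * l := mul_le_of_le_one_left (by linarith) ht.2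
      have hkn := cast_lt_fine (show k < n by omega) hD0
      have hk0 : 0 ≤ (k : ℝ) * D := by positivity
      refine smul_mem_Tf hr ?_ ?_ ?_ ?_ fun k' _ => ?_
      · simp only [PiLp.smul_apply, ax0_fine, smul_zero, abs_zero]; linarith
      · simp only [PiLp.smul_apply, ax1_fine, smul_zero, abs_zero]; linarith
      · simp only [PiLp.smul_apply, ax2_fine, smul_eq_mul, mul_one]; linarith
      · simp only [PiLp.smul_apply, ax2_fine, smul_eq_mul, mul_one]; linarith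
      · rw [← sub_smul]
        refine h.axis _ ?_
        rcases le_or_gt k' k with hle | hlt
        · exact le_abs.2 (Or.inl (by linarith [cast_le_fine hle hD0]))
        · exact le_abs.2 (Or.inr (by linarith [cast_lt_fine hlt hD0]))
  intro k
  induction k with
  | zero => intro hk; simpa using knot 0 hk
  | succ k ih => intro hk; exact ((ih (by omega)).trans (seg k hk)).trans (knot _ hk)

theorem exists_fine {Ω : Set E} {hm : E → ℝ} {R l : ℝ} (h : IsModel Ω hm R l) {δ : ℝ}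
    (hδ : 0 < δ) : ∃ (m : ℕ) (τ : PreTube E m) (c : ℕ → E) (ρ : ℝ), IsFine τ c ρ δ := by
  obtain ⟨γ, hγ⟩ := h.path
  obtain ⟨B, hB⟩ : ∃ B : ℝ, ∀ t, ‖γ t‖ ≤ B := by
    obtain ⟨B, hB⟩ := (isCompact_range γ.continuous).isBounded.exists_norm_le
    exact ⟨B, fun t => hB _ ⟨t, rfl⟩⟩
  have hB0 : 0 ≤ B := (norm_nonneg _).trans (hB 0)
  obtain ⟨R', hs⟩ := h.side (B + 1)
  have hl := h.l_pos
  have hR := h.R_pos
  have hR' := le_abs_self R'
  have hR0 := abs_nonneg R'
  obtain ⟨D, hD⟩ : ∃ D : ℝ, D = 2 * (B + 1 + |R'| + 3 * R + l) := ⟨_, rfl⟩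
  have hD0 : 0 < D := by rw [hD]; positivity
  obtain ⟨r, hr, hr1, hrδ⟩ : ∃ r : ℝ, 0 < r ∧ r * D ≤ 1 / 10 ∧ r * D ≤ δ / 10 := by
    refine ⟨min δ 1 / (10 * D), by positivity, ?_, ?_⟩
    · have : min δ 1 / (10 * D) * D = min δ 1 / 10 := by field_simp
      rw [this]; linarith [min_le_right δ 1]
    · have : min δ 1 / (10 * D) * D = min δ 1 / 10 := by field_simp
      rw [this]; linarith [min_le_left δ 1]
  have hrD : 0 < r * D := by positivity
  obtain ⟨n, hn1, hn2⟩ : ∃ n : ℕ, 1 ≤ r * (n * D) ∧ r * (n * D) ≤ 1 + r * D := by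
    refine ⟨⌈1 / (r * D)⌉₊, ?_, ?_⟩
    · have := (div_le_iff₀ hrD).1 (Nat.le_ceil (1 / (r * D)))
      linarith
    · have h1 := (Nat.ceil_lt_add_one (show 0 ≤ 1 / (r * D) by positivity)).le
      have h2 := mul_le_mul_of_nonneg_right h1 hrD.le
      rw [add_mul, div_mul_cancel₀ _ hrD.ne'] at h2
      linarith
  have unscale : ∀ x a : ℝ, |r⁻¹ * x| ≤ a → |x| ≤ r * a := by
    intro x a hx
    rw [abs_mul, abs_of_pos (inv_pos.2 hr), inv_mul_le_iff₀ hr] at hx
    exact hx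
  let τ : PreTube E (n + 1) :=
    { T := Tf Ω r l D B n
      Q := fun k => ball ((r * (k * D + l)) • ax) (r * R)
      hh := fun k u => hm (Wf r (k * D + l) u)
      T_open := isOpen_Tf h.isOpen _ _ _ _ _
      Q_open := fun _ => isOpen_ball
      Q_disj := by
        intro k k' _ _ hne
        refine ball_disjoint_ball ?_
        rw [dist_eq_norm, ← sub_smul, norm_smul, norm_ax_fine, mul_one, ← mul_sub, norm_mul,
          Real.norm_of_nonneg hr.le, ← mul_add, Real.norm_eq_abs]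
        refine mul_le_mul_of_nonneg_left ?_ hr.le
        rcases lt_or_gt_of_ne hne with hlt | hlt
        · exact le_abs.2 (Or.inr (by linarith [cast_lt_fine hlt hD0.le]))
        · exact le_abs.2 (Or.inl (by linarith [cast_lt_fine hlt hD0.le]))
      hh_cont := fun k hk =>
        h.cont.comp (continuous_Wf _ _).continuousOn fun u hu => hu.2.2.2.2 k hk
      hh_lo := fun _ _ _ _ => h.lo _
      hh_hi := fun _ _ _ _ => h.hi _
      hh_Q := fun k hk u hu h0 h1 => (mem_ball_Wf hr _ _ _).2 (h.mid _ (hu.2.2.2.2 k hk) h0 h1)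
      hh_mono := by
        intro u hu k k' hlt _
        have := cast_lt_fine hlt hD0.le
        rcases le_or_gt (D / 2) (r⁻¹ * u 2 - (k * D + l)) with hc | hc
        · left
          refine ((hs _ ?_ ?_).1 ?_).2
          · rw [Wf0]; exact hu.1.le
          · rw [Wf1]; exact hu.2.1.le
          · rw [Wf2]; linarith
        · right
          refine ((hs _ ?_ ?_).2 ?_).2
          · rw [Wf0]; exact hu.1.le
          · rw [Wf1]; exact hu.2.1.le
          · rw [Wf2]; linarith }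
  have box : ∀ j ≤ n + 1, ∀ u ∈ τ.S j, |r⁻¹ * u 0| ≤ D / 2 ∧ |r⁻¹ * u 1| ≤ D / 2 ∧
      |r⁻¹ * u 2 - (j * D + l - D / 2)| ≤ D := by
    have hq : ∀ (k : ℕ) (u : E), u ∈ τ.Q k → |r⁻¹ * u 0| ≤ D / 2 ∧ |r⁻¹ * u 1| ≤ D / 2 ∧
        |r⁻¹ * u 2 - (k * D + l)| ≤ D / 2 := by
      intro k u hu
      have h1 := (mem_ball_Wf hr _ _ _).1 hu
      have c0 := coord_le_fine (Wf r (k * D + l) u) 0
      have c1 := coord_le_fine (Wf r (k * D + l) u) 1
      have c2 := coord_le_fine (Wf r (k * D + l) u) 2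
      rw [Wf0] at c0; rw [Wf1] at c1; rw [Wf2] at c2
      exact ⟨by linarith, by linarith, by linarith⟩
    rintro j hj u (⟨hu, ha, hb⟩ | ⟨-, hu⟩ | ⟨k, rfl, hu⟩)
    · have side := fun k : ℕ => hs (Wf r (k * D + l) u) (by rw [Wf0]; exact hu.1.le)
        (by rw [Wf1]; exact hu.2.1.le)
      refine ⟨by linarith [hu.1], by linarith [hu.2.1], abs_le.2 ⟨?_, ?_⟩⟩
      · rcases j with _ | k
        · have := hu.2.2.1
          push_cast; linarith
        · have h1 : 1 / 2 < hm (Wf r (k * D + l) u) := ha k (by omega)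
          by_contra hc
          have h2 := ((side k).2 (by rw [Wf2]; push_cast at hc; linarith)).2
          linarith
      · rcases hj.lt_or_eq with hlt | rfl
        · have h1 : hm (Wf r (j * D + l) u) < 1 / 2 := hb j le_rfl hlt
          by_contra hc
          have h2 := ((side j).1 (by rw [Wf2]; linarith)).2
          linarith
        · have := hu.2.2.2.1
          push_cast; linarith
    · obtain ⟨a0, a1, a2⟩ := hq j u hu
      exact ⟨a0, a1, abs_le.2 ⟨by linarith [(abs_le.1 a2).1], by linarith [(abs_le.1 a2).2]⟩⟩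
    · obtain ⟨a0, a1, a2⟩ := hq k u hu
      refine ⟨a0, a1, abs_le.2 ⟨?_, ?_⟩⟩
      · push_cast; linarith [(abs_le.1 a2).1]
      · push_cast; linarith [(abs_le.1 a2).2]
  refine ⟨n + 1, τ, fun k => (r * (k * D + l)) • ax, r * R, by positivity, fun _ _ => rfl,
    ?_, ?_, ?_, ?_, ?_⟩
  · intro k hk
    refine closedBall_subset_ball' ?_
    have hkn := cast_le_fine (Nat.lt_succ_iff.1 hk) hD0.le
    rw [dist_zero_right, norm_smul, norm_ax_fine, mul_one,
      Real.norm_of_nonneg (by positivity)]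
    have h1 := mul_le_mul_of_nonneg_left hkn hr.le
    have h2 : r * (3 * R + l) ≤ r * D := mul_le_mul_of_nonneg_left (by linarith) hr.le
    linarith
  · intro u hu
    have a0 := unscale _ _ (show |r⁻¹ * u 0| ≤ D by linarith [hu.1])
    have a1 := unscale _ _ (show |r⁻¹ * u 1| ≤ D by linarith [hu.2.1])
    have hn0 : 0 ≤ (n : ℝ) * D := by positivity
    have a2 := unscale _ _ (show |r⁻¹ * u 2| ≤ n * D + D from
      abs_le.2 ⟨by linarith [hu.2.2.1], by linarith [hu.2.2.2.1]⟩)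
    rw [mem_ball, dist_zero_right]
    linarith [norm_le_fine u]
  · intro k hk σ hσ hinj
    obtain ⟨f, f1, f2, f3⟩ := h.lock (fun p => Wf r (k * D + l) (σ p))
      ((continuous_Wf _ _).comp hσ)
      fun p q hp hpq => hinj p q ((mem_ball_Wf hr _ _ _).2 hp) (Wf_inj hr _ hpq)
    exact ⟨f, f1, fun x hx => f2 x (not_lt.1 fun hc => hx ((mem_ball_Wf hr _ _ _).2 hc)),
      fun x hx => f3 x (hx.2.2.2.2 k hk)⟩
  · intro j hj u hu u' hu'
    obtain ⟨a0, a1, a2⟩ := box j hj u hu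
    obtain ⟨b0, b1, b2⟩ := box j hj u' hu'
    rw [abs_le] at a0 a1 a2 b0 b1 b2
    have c0 := unscale (u 0 - u' 0) D (abs_le.2 ⟨by linarith, by linarith⟩)
    have c1 := unscale (u 1 - u' 1) D (abs_le.2 ⟨by linarith, by linarith⟩)
    have c2 := unscale (u 2 - u' 2) (2 * D) (abs_le.2 ⟨by linarith, by linarith⟩)
    have := norm_le_fine (u - u')
    simp only [PiLp.sub_apply] at this
    linarith
  · refine ⟨_, ?_, long_fine h hr γ hγ hB hB0 (by linarith) (by linarith) hs n n (by omega)⟩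
    rw [norm_smul, norm_smul, norm_ax_fine, mul_one, Real.norm_of_nonneg hr.le,
      Real.norm_of_nonneg (by positivity)]
    nlinarith

end Pool.Agent.MP_ff6fba_gt

end

-- part MP_ff6fba_gt.Diffeo
section

/-! Pushing a point along a path by a diffeomorphism supported near the path. -/

namespace Pool.Agent.MP_ff6fba_gt

open Set Metric Filter Topology
open scoped ContDiff

theorem IsPush.symm {M : Type*} [TopologicalSpace M] {T : Set M} {p : M ≃ₜ M} (h : IsPush T p) :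
    IsPush T p.symm := by
  obtain ⟨S, P, h1, h2, h3, h4, h5, h6⟩ := h
  have fix : ∀ x, x ∉ S → p x = x := fun x hx => (h4 x).symm.trans (h5 1 x hx)
  refine ⟨S, ⟨fun z => P (unitInterval.symm z.1, p.symm z.2), by fun_prop⟩, h1, h2,
    fun x => by simp [h4], fun x => by simp [h3], fun s x hx => ?_, fun s x hx => h6 _ _ ?_⟩
  · have : p.symm x = x := p.symm_apply_eq.2 (fix x hx).symm
    simp [this, h5 _ x hx]
  · by_contra c
    have := fix _ fun z => c (h2 z)
    rw [p.apply_symm_apply] at this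
    exact c (this ▸ hx)

theorem IsPush.comp {M : Type*} [TopologicalSpace M] {T : Set M} {p q : M → M} (hp : IsPush T p)
    (hq : IsPush T q) : IsPush T (q ∘ p) := by
  obtain ⟨S, P, h1, h2, h3, h4, h5, h6⟩ := hp
  obtain ⟨S', Q, k1, k2, k3, k4, k5, k6⟩ := hq
  exact ⟨S ∪ S', ⟨fun z => Q (z.1, P z), by fun_prop⟩, h1.union k1, union_subset h2 k2,
    fun x => by simp [h3, k3], fun x => by simp [h4, k4],
    fun s x hx => by simp [h5 s x fun z => hx (Or.inl z), k5 s x fun z => hx (Or.inr z)],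
    fun s x hx => k6 _ _ (h6 s x hx)⟩

theorem local_push {T : Set E} (hT : IsOpen T) {a : E} (ha : a ∈ T) : ∀ᶠ b in 𝓝 a,
    ∃ p : E ≃ₜ E, ContDiff ℝ ∞ p ∧ ContDiff ℝ ∞ p.symm ∧ p a = b ∧ IsPush T p := by
  obtain ⟨R, R0, hR⟩ := nhds_basis_closedBall.mem_iff.1 (hT.mem_nhds ha)
  let β : ContDiffBump a := ⟨R / 4, R / 2, by positivity, by linarith⟩
  obtain ⟨L, hL⟩ := ContDiff.lipschitzWith_of_hasCompactSupport β.hasCompactSupport
    (β.contDiff (n := 1)) one_ne_zero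
  filter_upwards [closedBall_mem_nhds a (half_pos R0),
    closedBall_mem_nhds a (show 0 < 1 / (2 * ((L : ℝ) + 1)) by positivity)] with b b1 b2
  rw [mem_closedBall_iff_norm] at b1 b2
  set g : E → E := fun x => β x • (b - a) with hg
  have lg : LipschitzWith (1 / 2) g := LipschitzWith.of_dist_le_mul fun x y => by
    rw [dist_eq_norm, hg, ← sub_smul, norm_smul, ← dist_eq_norm, mul_comm]
    refine (mul_le_mul b2 (hL.dist_le_mul x y) dist_nonneg (by positivity)).trans ?_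
    rw [← mul_assoc]
    refine mul_le_mul_of_nonneg_right ?_ dist_nonneg
    rw [one_div_mul_eq_div, div_le_iff₀ (by positivity)]
    push_cast; linarith
  have cg : ContDiff ℝ ∞ g := β.contDiff.smul contDiff_const
  have ap : ApproximatesLinearOn (fun x => x + g x)
      (ContinuousLinearEquiv.refl ℝ E : E →L[ℝ] E) univ (1 / 2) := fun x _ y _ => by
    have := lg.dist_le_mul x y
    rw [dist_eq_norm, dist_eq_norm] at this
    refine le_trans (le_of_eq ?_) this
    congr 1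
    simp only [ContinuousLinearEquiv.coe_refl, ContinuousLinearMap.coe_id', id]
    abel
  let p := ApproximatesLinearOn.toHomeomorph (f' := ContinuousLinearEquiv.refl ℝ E) _ ap (Or.inr (by
    rw [ContinuousLinearEquiv.refl_symm, ContinuousLinearEquiv.coe_refl,
      ContinuousLinearMap.nnnorm_id]
    norm_num))
  have cp : ContDiff ℝ ∞ p := contDiff_id.add cg
  have nd : ∀ x, ‖-fderiv ℝ g x‖ < 1 := fun x => by
    rw [norm_neg]
    exact (norm_fderiv_le_of_lipschitz ℝ lg).trans_lt (by norm_num)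
  refine ⟨p, cp, p.contDiff_symm (f₀' := fun x => ContinuousLinearEquiv.unitsEquiv ℝ E
    (Units.oneSub _ (nd x))) (fun x => ?_) cp, ?_, closedBall a (R / 2),
    ⟨fun z => z.2 + (z.1 : ℝ) • g z.2, by have := cg.continuous; fun_prop⟩, isClosed_closedBall,
    (closedBall_subset_closedBall (by linarith)).trans hR, fun x => by simp, fun x => ?_,
    fun s x hx => ?_, fun s x hx => ?_⟩
  · refine ((hasFDerivAt_id x).add (cg.differentiable (by simp) x).hasFDerivAt).congr_fderiv ?_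
    ext1 v
    simp
  · change a + β a • (b - a) = b
    rw [β.one_of_mem_closedBall (mem_closedBall_self β.rIn_pos.le), one_smul, add_sub_cancel]
  · change x + ((1 : unitInterval) : ℝ) • g x = x + g x
    simp
  · simp [hg, β.zero_of_le_dist (not_le.1 hx).le]
  · by_cases c : x ∈ closedBall a (R / 2)
    · refine hR (mem_closedBall_iff_norm.2 ?_)
      change ‖x + (s : ℝ) • β x • (b - a) - a‖ ≤ R
      rw [add_sub_right_comm]
      refine (norm_add_le_of_le (mem_closedBall_iff_norm.1 c) (show _ ≤ R / 2 from ?_)).trans_eq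
        (add_halves R)
      rw [norm_smul, norm_smul, Real.norm_of_nonneg s.2.1, Real.norm_of_nonneg β.nonneg]
      exact (mul_le_of_le_one_left (mul_nonneg β.nonneg (norm_nonneg _)) s.2.2).trans
        ((mul_le_of_le_one_left (norm_nonneg _) β.le_one).trans b1)
    · simpa [hg, β.zero_of_le_dist (not_le.1 c).le] using hx

theorem exists_push {T : Set E} (hT : IsOpen T) {a b : E} (h : JoinedIn T a b) :
    ∃ p : E ≃ₜ E, ContDiff ℝ ∞ p ∧ ContDiff ℝ ∞ p.symm ∧ p a = b ∧ IsPush T p := by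
  obtain ⟨γ, hγ⟩ := h
  refine (isPreconnected_range γ.continuous).induction₂ (fun a b => ∃ p : E ≃ₜ E,
    ContDiff ℝ ∞ p ∧ ContDiff ℝ ∞ p.symm ∧ p a = b ∧ IsPush T p) (fun x ⟨t, ht⟩ =>
      (local_push hT (ht ▸ hγ t)).filter_mono nhdsWithin_le_nhds) ?_ ?_ ⟨0, γ.source⟩ ⟨1, γ.target⟩
  · rintro x y z - - - ⟨p, p1, p2, rfl, p4⟩ ⟨q, q1, q2, rfl, q4⟩
    exact ⟨p.trans q, q1.comp p1, p2.comp q2, rfl, p4.comp q4⟩
  · rintro x y - - ⟨p, p1, p2, rfl, p4⟩
    exact ⟨p.symm, p2, p1, p.symm_apply_apply x, p4.symm⟩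

end Pool.Agent.MP_ff6fba_gt

end

-- part MP_ff6fba_gt.Comap
section

/-! Transport of a fine knotted tube to a manifold. -/

namespace Pool.Agent.MP_ff6fba_gt

open Set Metric Filter Topology

/-- cut-off used in the retraction -/
noncomputable def kapComap (ρ A s : ℝ) : ℝ := max 0 (min 1 ((s - ρ) / (2 * (A - ρ))))

/-- the vector field vanishing only at `0` and `a` -/
noncomputable def wComap (ρ : ℝ) (a v : E) : E :=
  (1 - kapComap ρ ‖a‖ ‖v‖) • v - kapComap ρ ‖a‖ ‖v‖ • a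

theorem continuous_wComap (ρ : ℝ) (a : E) : Continuous (wComap ρ a) := by
  unfold wComap kapComap
  fun_prop

theorem wComap_small {ρ : ℝ} {a v : E} (ha : ρ < ‖a‖) (hv : ‖v‖ ≤ ρ) : wComap ρ a v = v := by
  have h : kapComap ρ ‖a‖ ‖v‖ = 0 := by
    unfold kapComap
    apply max_eq_left
    refine (min_le_right _ _).trans ?_
    apply div_nonpos_of_nonpos_of_nonneg <;> linarith
  simp [wComap, h]

theorem wComap_big {ρ : ℝ} {a v : E} (ha : ρ < ‖a‖) (ha2 : ‖a‖ < 2 * ρ) (hv : 3 * ρ ≤ ‖v‖) :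
    wComap ρ a v = -a := by
  have h : kapComap ρ ‖a‖ ‖v‖ = 1 := by
    unfold kapComap
    rw [min_eq_left, max_eq_right zero_le_one]
    rw [le_div_iff₀ (by linarith)]
    linarith
  simp [wComap, h]

theorem wComap_ne {ρ : ℝ} {a v : E} (hρ : 0 < ρ) (ha : ρ < ‖a‖) (hv : ρ ≤ ‖v‖) (hne : v ≠ a) :
    wComap ρ a v ≠ 0 := by
  intro h0
  have hD : 0 < 2 * (‖a‖ - ρ) := by linarith
  set t := (‖v‖ - ρ) / (2 * (‖a‖ - ρ)) with ht
  have ht0 : 0 ≤ t := div_nonneg (by linarith) hD.le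
  have htD : t * (2 * (‖a‖ - ρ)) = ‖v‖ - ρ := div_mul_cancel₀ _ hD.ne'
  have he : (1 - kapComap ρ ‖a‖ ‖v‖) • v = kapComap ρ ‖a‖ ‖v‖ • a := sub_eq_zero.1 h0
  rcases le_total 1 t with h1 | h1
  · have hk : kapComap ρ ‖a‖ ‖v‖ = 1 := by
      unfold kapComap
      rw [← ht, min_eq_left h1, max_eq_right zero_le_one]
    rw [hk] at he
    have : a = 0 := by simpa using he.symm
    rw [this, norm_zero] at ha
    linarith
  · have hk : kapComap ρ ‖a‖ ‖v‖ = t := by
      unfold kapComap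
      rw [← ht, min_eq_right h1, max_eq_right ht0]
    rw [hk] at he
    have hn := congrArg norm he
    rw [norm_smul, norm_smul, Real.norm_of_nonneg (by linarith), Real.norm_of_nonneg ht0] at hn
    have h2 : (‖v‖ - ‖a‖) * (‖v‖ + ρ) = 0 := by
      have : ((1 - t) * ‖v‖ - t * ‖a‖) * (2 * (‖a‖ - ρ)) = 0 := by rw [hn]; ring
      have e2 : ((1 - t) * ‖v‖ - t * ‖a‖) * (2 * (‖a‖ - ρ)) =
          ‖v‖ * (2 * (‖a‖ - ρ)) - (t * (2 * (‖a‖ - ρ))) * (‖v‖ + ‖a‖) := by ring
      rw [e2, htD] at this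
      linarith
    have h3 : ‖v‖ = ‖a‖ := by
      rcases mul_eq_zero.1 h2 with h | h
      · linarith
      · linarith
    have h4 : t = 1 / 2 := by
      rw [ht, h3, div_eq_iff hD.ne']
      ring
    rw [h4] at he
    apply hne
    have h5 : (1 - 1 / 2 : ℝ) = 1 / 2 := by norm_num
    rw [h5] at he
    exact smul_right_injective E (by norm_num : (1 / 2 : ℝ) ≠ 0) he

/-- A retraction of `E` minus a point onto a closed ball, constant far away. -/
theorem exists_theta_comap {ρ : ℝ} (hρ : 0 < ρ) (c z : E) (hz1 : ρ < ‖z - c‖)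
    (hz2 : ‖z - c‖ < 2 * ρ) : ∃ (Θ : E → E) (w : E), (∀ u, u ≠ z → ContinuousAt Θ u) ∧
      (∀ u ∈ ball c ρ, Θ u = u) ∧ (∀ u, u ≠ z → u ∉ ball c ρ → Θ u ∉ ball c ρ) ∧
      (∀ u, u ∉ closedBall c (3 * ρ) → Θ u = w) ∧ w ∉ ball c ρ := by
  set a := z - c with ha
  let Θ : E → E := fun u => c + (min ‖u - c‖ ρ / ‖wComap ρ a (u - c)‖) • wComap ρ a (u - c)
  have hid : ∀ u ∈ ball c ρ, Θ u = u := by
    intro u hu
    rw [mem_ball, dist_eq_norm] at hu
    simp only [Θ]
    rw [wComap_small hz1 hu.le, min_eq_left hu.le]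
    by_cases h0 : u - c = 0
    · rw [h0, smul_zero, add_zero]; exact (sub_eq_zero.1 h0).symm
    · rw [div_self (norm_ne_zero_iff.2 h0), one_smul]; abel
  have hne : ∀ u, u ≠ z → u ∉ ball c ρ → wComap ρ a (u - c) ≠ 0 := by
    intro u hu hb
    rw [mem_ball, dist_eq_norm, not_lt] at hb
    refine wComap_ne hρ hz1 hb ?_
    intro h
    exact hu (sub_left_injective h)
  have hout : ∀ u, u ≠ z → u ∉ ball c ρ → Θ u ∉ ball c ρ := by
    intro u hu hb
    have h1 := hne u hu hb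
    rw [mem_ball, dist_eq_norm, not_lt] at hb ⊢
    simp only [Θ]
    rw [add_sub_cancel_left, min_eq_right hb, norm_smul,
      Real.norm_of_nonneg (div_nonneg hρ.le (norm_nonneg _)),
      div_mul_cancel₀ _ (norm_ne_zero_iff.2 h1)]
  have ha0 : ‖a‖ ≠ 0 := by linarith
  refine ⟨Θ, c + (ρ / ‖a‖) • (-a), ?_, hid, hout, ?_, ?_⟩
  · intro u hu
    by_cases hb : u ∈ ball c ρ
    · have : Θ =ᶠ[𝓝 u] id := by
        filter_upwards [isOpen_ball.mem_nhds hb] with y hy using hid y hy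
      exact continuousAt_id.congr this.symm
    · have h1 := hne u hu hb
      have hw : Continuous fun u : E => wComap ρ a (u - c) :=
        (continuous_wComap ρ a).comp (continuous_id.sub continuous_const)
      have hm : Continuous fun u : E => min ‖u - c‖ ρ := by fun_prop
      exact continuousAt_const.add ((hm.continuousAt.div hw.norm.continuousAt
        (norm_ne_zero_iff.2 h1)).smul hw.continuousAt)
  · intro u hu
    rw [mem_closedBall, dist_eq_norm, not_le] at hu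
    simp only [Θ]
    rw [wComap_big hz1 hz2 hu.le, min_eq_right (by linarith), norm_neg]
  · rw [mem_ball, dist_eq_norm, not_lt, add_sub_cancel_left, norm_smul, norm_neg,
      Real.norm_of_nonneg (div_nonneg hρ.le (norm_nonneg _)), div_mul_cancel₀ _ ha0]

/-- A sphere with nowhere dense image is transported to `E` without changing it in a ball. -/
theorem exists_sphere_comap {M : Type*} [TopologicalSpace M] [T2Space M]
    (φ : OpenPartialHomeomorph M E) {c : E} {ρ : ℝ} (hρ : 0 < ρ)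
    (hc : closedBall c (3 * ρ) ⊆ φ.target) (σ : Sph → M) (hσ : Continuous σ)
    (hi : interior (range σ) = ∅) : ∃ σ' : Sph → E, Continuous σ' ∧
      (∀ x, σ x ∈ φ.source ∩ φ ⁻¹' ball c ρ → σ' x = φ (σ x)) ∧
      ∀ x, σ x ∉ φ.source ∩ φ ⁻¹' ball c ρ → σ' x ∉ ball c ρ := by
  classical
  let A : Set E := {z | ρ < ‖z - c‖ ∧ ‖z - c‖ < 2 * ρ}
  have hA : IsOpen A := by
    have hn : Continuous fun z : E => ‖z - c‖ := by fun_prop
    exact (isOpen_lt continuous_const hn).and (isOpen_lt hn continuous_const)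
  have hU : IsOpen (φ.source ∩ φ ⁻¹' A) := φ.isOpen_inter_preimage hA
  have hax : ‖ax‖ = 1 := by simp [ax]
  have hn : ‖(c + (3 / 2 * ρ) • ax) - c‖ = 3 / 2 * ρ := by
    rw [add_sub_cancel_left, norm_smul, hax, mul_one, Real.norm_of_nonneg (by linarith)]
  have ht : c + (3 / 2 * ρ) • ax ∈ φ.target := by
    apply hc
    rw [mem_closedBall, dist_eq_norm, hn]
    linarith
  obtain ⟨w, ⟨hw1, hw2⟩, hw3⟩ : ∃ w ∈ φ.source ∩ φ ⁻¹' A, w ∉ range σ := by
    by_contra hcon
    push Not at hcon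
    have h1 : φ.source ∩ φ ⁻¹' A ⊆ interior (range σ) := interior_maximal hcon hU
    have h2 : φ.symm (c + (3 / 2 * ρ) • ax) ∈ φ.source ∩ φ ⁻¹' A := by
      refine ⟨φ.map_target ht, ?_⟩
      rw [mem_preimage, φ.right_inv ht]
      constructor <;> rw [hn] <;> linarith
    have := h1 h2
    rw [hi] at this
    exact this
  obtain ⟨Θ, w0, hΘ1, hΘ2, hΘ3, hΘ4, hΘ5⟩ := exists_theta_comap hρ c (φ w) hw2.1 hw2.2
  have hneq : ∀ x, σ x ∈ φ.source → φ (σ x) ≠ φ w := by
    intro x hx h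
    exact hw3 ⟨x, φ.injOn hx hw1 h⟩
  refine ⟨fun x => if σ x ∈ φ.source then Θ (φ (σ x)) else w0, ?_, ?_, ?_⟩
  · rw [continuous_iff_continuousAt]
    intro x
    by_cases hx : σ x ∈ φ.source
    · have h1 : ContinuousAt (fun x => Θ (φ (σ x))) x :=
        ContinuousAt.comp (f := fun x => φ (σ x)) (hΘ1 _ (hneq x hx))
          ((φ.continuousAt hx).comp hσ.continuousAt)
      refine h1.congr ?_
      filter_upwards [(φ.open_source.preimage hσ).mem_nhds hx] with y hy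
      rw [if_pos (show σ y ∈ φ.source from hy)]
    · have hK : IsClosed (φ.symm '' closedBall c (3 * ρ)) :=
        ((isCompact_closedBall c (3 * ρ)).image_of_continuousOn
          (φ.continuousOn_symm.mono hc)).isClosed
      have hxK : σ x ∈ (φ.symm '' closedBall c (3 * ρ))ᶜ := by
        rintro ⟨u, hu, hu'⟩
        exact hx (hu' ▸ φ.map_target (hc hu))
      refine (continuousAt_const (y := w0)).congr ?_
      filter_upwards [(hK.isOpen_compl.preimage hσ).mem_nhds hxK] with y hy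
      by_cases hys : σ y ∈ φ.source
      · rw [if_pos hys, hΘ4]
        intro hb
        exact hy ⟨_, hb, φ.left_inv hys⟩
      · rw [if_neg hys]
  · intro x hx
    simp only
    rw [if_pos hx.1, hΘ2 _ hx.2]
  · intro x hx
    simp only
    by_cases hxs : σ x ∈ φ.source
    · rw [if_pos hxs]
      exact hΘ3 _ (hneq x hxs) fun hb => hx ⟨hxs, hb⟩
    · rw [if_neg hxs]
      exact hΘ5

/-- the transported tube -/
def PreTube.comap {M : Type*} [TopologicalSpace M] (φ : OpenPartialHomeomorph M E) {m : ℕ}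
    (τ : PreTube E m) : PreTube M m where
  T := φ.source ∩ φ ⁻¹' τ.T
  Q k := φ.source ∩ φ ⁻¹' τ.Q k
  hh k u := τ.hh k (φ u)
  T_open := φ.isOpen_inter_preimage τ.T_open
  Q_open k := φ.isOpen_inter_preimage (τ.Q_open k)
  Q_disj k k' hk hk' hne :=
    ((τ.Q_disj k k' hk hk' hne).preimage φ).mono inter_subset_right inter_subset_right
  hh_cont k hk := (τ.hh_cont k hk).comp (φ.continuousOn.mono inter_subset_left) fun _ hu => hu.2
  hh_lo k hk _ hu := τ.hh_lo k hk _ hu.2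
  hh_hi k hk _ hu := τ.hh_hi k hk _ hu.2
  hh_Q k hk _ hu h0 h1 := ⟨hu.1, τ.hh_Q k hk _ hu.2 h0 h1⟩
  hh_mono _ hu k k' h h' := τ.hh_mono _ hu.2 k k' h h'

theorem exists_comap {M : Type*} [TopologicalSpace M] [T2Space M]
    (φ : OpenPartialHomeomorph M E) (hφ : closedBall 0 30 ⊆ φ.target) {m : ℕ}
    {τ : PreTube E m} {c : ℕ → E} {ρ δ : ℝ} (h : IsFine τ c ρ δ) :
    ∃ τ' : PreTube M m, τ'.Locked ∧ τ'.T = φ.source ∩ φ ⁻¹' τ.T ∧
      ∀ j, τ'.S j ⊆ φ.source ∩ φ ⁻¹' τ.S j := by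
  refine ⟨τ.comap φ, ?_, rfl, ?_⟩
  · intro k hk σ hσ hinj hi
    have hc : closedBall (c k) (3 * ρ) ⊆ φ.target :=
      (h.Q_sub k hk).trans (ball_subset_closedBall.trans
        ((closedBall_subset_closedBall (by norm_num)).trans hφ))
    obtain ⟨σ', h1, h2, h3⟩ := exists_sphere_comap φ h.ρ_pos hc σ hσ hi
    rw [← h.Q_eq k hk] at h2 h3
    obtain ⟨f, hf1, hf2, hf3⟩ := h.lock k hk σ' h1 (by
      intro p q hp hpq
      have hp' : σ p ∈ φ.source ∩ φ ⁻¹' τ.Q k := by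
        by_contra hc
        exact h3 p hc hp
      have hq' : σ q ∈ φ.source ∩ φ ⁻¹' τ.Q k := by
        by_contra hc
        exact h3 q hc (hpq ▸ hp)
      rw [h2 p hp', h2 q hq'] at hpq
      exact hinj (φ.injOn hp'.1 hq'.1 hpq))
    refine ⟨f, hf1, fun x hx => hf2 x (h3 x hx), fun x hx => ?_⟩
    by_cases hQ : σ x ∈ φ.source ∩ φ ⁻¹' τ.Q k
    · have e := h2 x hQ
      have := hf3 x (by rw [e]; exact hx.2)
      rw [e] at this
      exact this
    · obtain ⟨n, hn⟩ := hf2 x (h3 x hQ)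
      have hlo := τ.hh_lo k hk _ hx.2
      have hhi := τ.hh_hi k hk _ hx.2
      change ∃ n : ℤ, f x - τ.hh k (φ (σ x)) = n
      rcases hlo.eq_or_lt with h0 | h0
      · exact ⟨n, by rw [← h0, hn, sub_zero]⟩
      · rcases hhi.eq_or_lt with h1' | h1'
        · exact ⟨n - 1, by rw [h1', hn]; push_cast; ring⟩
        · exact absurd ⟨hx.1, τ.hh_Q k hk _ hx.2 h0 h1'⟩ hQ
  · rintro j u (⟨hu, h1, h2⟩ | ⟨hj, hu⟩ | ⟨k, hk, hu⟩)
    · exact ⟨hu.1, Or.inl ⟨hu.2, h1, h2⟩⟩
    · exact ⟨hu.1, Or.inr (Or.inl ⟨hj, hu.2⟩)⟩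
    · exact ⟨hu.1, Or.inr (Or.inr ⟨k, hk, hu.2⟩)⟩

end Pool.Agent.MP_ff6fba_gt

end

-- part MP_ff6fba_gt.Main
section

/-! The coarser group topology. -/

namespace Pool.Agent.MP_ff6fba_gt

open Set Metric Filter Topology
open scoped Manifold ContDiff

variable {M : Type*} [TopologicalSpace M] [ChartedSpace E M]

/-- test objects: balls whose boundary sphere is embedded and has empty interior -/
def Test (M : Type*) [TopologicalSpace M] : Type _ :=
  {Φ : C(Bl, M) // Function.Injective (Φ ∘ inc) ∧ interior (range (Φ ∘ inc)) = ∅}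

/-- the action of homeomorphisms on test objects -/
def Test.act {M : Type*} [TopologicalSpace M] (g : M ≃ₜ M) (Φ : Test M) : Test M :=
  ⟨(g : C(M, M)).comp Φ.1, g.injective.comp Φ.2.1, by
    have : range (((g : C(M, M)).comp Φ.1) ∘ inc) = g '' range (Φ.1 ∘ inc) := by
      rw [← range_comp]; rfl
    rw [this, ← g.image_interior, Φ.2.2, image_empty]⟩

/-- observers -/
def Obs (M : Type*) [TopologicalSpace M] [ChartedSpace E M] : Type _ :=
  {q : C(M, F) // (∀ u, Ok 0 (q u)) ∧ ∀ (g₀ : diffGroup M) (δ : ℝ), 0 < δ →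
    {g : diffGroup M | ∀ u, ‖q ((g : M ≃ₜ M) u) - q ((g₀ : M ≃ₜ M) u)‖ ≤ δ} ∈
      @nhds _ (compactOpen M) g₀}

theorem continuous_mul_left_co (h : diffGroup M) :
    Continuous[compactOpen M, compactOpen M] fun g => h * g := by
  refine continuous_generateFrom_iff.2 ?_
  rintro _ ⟨K, U, hK, hU, rfl⟩
  exact TopologicalSpace.isOpen_generateFrom_of_mem
    ⟨K, (h : M ≃ₜ M) ⁻¹' U, hK, hU.preimage (h : M ≃ₜ M).continuous, rfl⟩

/-- the action on observers -/
def Obs.act (q : Obs M) (h : diffGroup M) : Obs M :=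
  ⟨q.1.comp ((h : M ≃ₜ M) : C(M, M)), fun u => q.2.1 _, fun g₀ δ hδ => by
    letI := compactOpen M
    exact (continuous_mul_left_co h).continuousAt.preimage_mem_nhds (q.2.2 (h * g₀) δ hδ)⟩

/-- the observed cost -/
noncomputable def ev (q : Obs M) (Φ : Test M) : ℝ := cost (q.1.comp Φ.1)

/-- basic neighbourhoods of the identity -/
def nb (s : Set (Obs M)) (ε : ℝ) : Set (diffGroup M) :=
  {g | ∀ q ∈ s, ∀ Φ : Test M, |ev q (Test.act (g : M ≃ₜ M) Φ) - ev q Φ| ≤ ε}

theorem act_mul (g h : diffGroup M) (Φ : Test M) :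
    Test.act ((g * h : diffGroup M) : M ≃ₜ M) Φ =
      Test.act (g : M ≃ₜ M) (Test.act (h : M ≃ₜ M) Φ) := rfl

theorem act_one (Φ : Test M) : Test.act ((1 : diffGroup M) : M ≃ₜ M) Φ = Φ := rfl

theorem ev_act (q : Obs M) (h : diffGroup M) (Φ : Test M) :
    ev (q.act h) Φ = ev q (Test.act (h : M ≃ₜ M) Φ) := rfl

/-- the filter basis of the coarser topology -/
@[reducible] noncomputable def basis (M : Type*) [TopologicalSpace M] [ChartedSpace E M] :
    GroupFilterBasis (diffGroup M) where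
  sets := {U | ∃ (s : Set (Obs M)) (ε : ℝ), s.Finite ∧ 0 < ε ∧ U = nb s ε}
  nonempty := ⟨_, ∅, 1, finite_empty, one_pos, rfl⟩
  inter_sets := by
    rintro _ _ ⟨s, ε, hs, hε, rfl⟩ ⟨s', ε', hs', hε', rfl⟩
    exact ⟨_, ⟨s ∪ s', min ε ε', hs.union hs', lt_min hε hε', rfl⟩, fun g hg =>
      ⟨fun q hq Φ => (hg q (Or.inl hq) Φ).trans (min_le_left _ _),
        fun q hq Φ => (hg q (Or.inr hq) Φ).trans (min_le_right _ _)⟩⟩
  one' := by
    rintro _ ⟨s, ε, -, hε, rfl⟩ q _ Φ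
    rw [act_one, sub_self, abs_zero]; exact hε.le
  mul' := by
    rintro _ ⟨s, ε, hs, hε, rfl⟩
    refine ⟨_, ⟨s, ε / 2, hs, half_pos hε, rfl⟩, ?_⟩
    rintro _ ⟨g, hg, h, hh, rfl⟩ q hq Φ
    have := abs_sub_le (ev q (Test.act (g : M ≃ₜ M) (Test.act (h : M ≃ₜ M) Φ)))
      (ev q (Test.act (h : M ≃ₜ M) Φ)) (ev q Φ)
    show |ev q (Test.act ((g * h : diffGroup M) : M ≃ₜ M) Φ) - ev q Φ| ≤ ε
    rw [act_mul]
    linarith [hg q hq (Test.act (h : M ≃ₜ M) Φ), hh q hq Φ]
  inv' := by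
    rintro _ ⟨s, ε, hs, hε, rfl⟩
    refine ⟨_, ⟨s, ε, hs, hε, rfl⟩, fun g hg q hq Φ => ?_⟩
    have := hg q hq (Test.act ((g⁻¹ : diffGroup M) : M ≃ₜ M) Φ)
    rwa [← act_mul, mul_inv_cancel, act_one, abs_sub_comm] at this
  conj' := by
    rintro h _ ⟨s, ε, hs, hε, rfl⟩
    refine ⟨_, ⟨(fun q => q.act h) '' s, ε, hs.image _, hε, rfl⟩, fun g hg q hq Φ => ?_⟩
    have := hg _ ⟨q, hq, rfl⟩ (Test.act ((h⁻¹ : diffGroup M) : M ≃ₜ M) Φ)
    rwa [ev_act, ev_act, ← act_mul, ← act_mul, ← act_mul, mul_inv_cancel, act_one] at this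

theorem coarser : compactOpen M ≤ (basis M).topology := by
  refine le_of_nhds_le_nhds fun g₀ => ?_
  refine (((basis M).nhds_hasBasis g₀).ge_iff).2 ?_
  rintro _ ⟨s, ε, hs, hε, rfl⟩
  have : ∀ᶠ g : diffGroup M in @nhds _ (compactOpen M) g₀, ∀ q ∈ s, ∀ u,
      ‖(q.act g₀⁻¹).1 ((g : M ≃ₜ M) u) - (q.act g₀⁻¹).1 ((g₀ : M ≃ₜ M) u)‖ ≤ ε / 2 :=
    (eventually_all_finite hs).2 fun q _ => (q.act g₀⁻¹).2.2 g₀ (ε / 2) (half_pos hε)
  filter_upwards [this] with g hg
  refine ⟨g₀⁻¹ * g, fun q hq Φ => ?_, by simp⟩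
  have h1 := cost_close (Φ := (q.act g₀⁻¹).1.comp (Test.act (g : M ≃ₜ M) Φ).1)
    (Ψ := (q.act g₀⁻¹).1.comp (Test.act (g₀ : M ≃ₜ M) Φ).1) fun x => hg q hq (Φ.1 x)
  change |ev (q.act g₀⁻¹) _ - ev (q.act g₀⁻¹) _| ≤ _ at h1
  rw [ev_act, ev_act, ← act_mul, ← act_mul, inv_mul_cancel, act_one] at h1
  linarith

omit [ChartedSpace E M] in
theorem exists_test (φ : OpenPartialHomeomorph M E)
    (hφ : closedBall 0 30 ⊆ φ.target) :
    ∃ Φ : Test M, ∀ x, Φ.1 x ∈ φ.source ∧ φ (Φ.1 x) = (20 : ℝ) • (x : E) := by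
  have hm : ∀ x : Bl, (20 : ℝ) • (x : E) ∈ φ.target := fun x => hφ (by
    have := mem_closedBall_zero_iff.1 x.2
    rw [mem_closedBall_zero_iff, norm_smul]; norm_num; linarith)
  refine ⟨⟨⟨fun x => φ.symm ((20 : ℝ) • (x : E)),
    φ.continuousOn_symm.comp_continuous (by fun_prop) hm⟩, fun x y h => ?_, ?_⟩,
    fun x => ⟨φ.map_target (hm x), φ.right_inv (hm x)⟩⟩
  · have := φ.symm.injOn (hm (inc x)) (hm (inc y)) h
    exact Subtype.ext (smul_right_injective E (by norm_num : (20 : ℝ) ≠ 0) this)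
  · by_contra hne
    obtain ⟨u, hu⟩ := nonempty_iff_ne_empty.2 hne
    have hs : ∀ v ∈ interior (range ((⟨fun x : Bl => φ.symm ((20 : ℝ) • (x : E)),
        φ.continuousOn_symm.comp_continuous (by fun_prop) hm⟩ : C(Bl, M)) ∘ inc)),
        v ∈ φ.source ∧ φ v ∈ sphere (0 : E) 20 := by
      intro v hv
      obtain ⟨x, rfl⟩ := interior_subset hv
      refine ⟨φ.map_target (hm _), ?_⟩
      show φ (φ.symm _) ∈ _
      rw [φ.right_inv (hm _), mem_sphere_zero_iff_norm, norm_smul]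
      have : ‖((inc x : Bl) : E)‖ = 1 := mem_sphere_zero_iff_norm.1 x.2
      rw [this]; norm_num
    have ho := φ.isOpen_image_of_subset_source isOpen_interior fun v hv => (hs v hv).1
    have := interior_maximal (s := sphere (0 : E) 20) (by
      rintro _ ⟨v, hv, rfl⟩; exact (hs v hv).2) ho ⟨u, hu, rfl⟩
    rw [interior_sphere _ (by norm_num)] at this
    exact this

theorem separated [T2Space M] [IsManifold (𝓡 3) ∞ M] : @T2Space _ (basis M).topology := by
  let := (basis M).topology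
  refine ((basis M).t2Space_iff_sInter_subset rfl).2 fun g hg => ?_
  by_contra hne
  obtain ⟨x, hx⟩ : ∃ x, (g : M ≃ₜ M) x ≠ x := by
    by_contra hc
    push Not at hc
    exact hne (Subtype.ext (Homeomorph.ext hc))
  obtain ⟨V, W, hV, hW, hxV, hxW, hVW⟩ := t2_separation hx
  obtain ⟨φ, hφ, hs, -⟩ := exists_chart x (U := W ∩ (g : M ≃ₜ M) ⁻¹' V)
    (inter_mem (hW.mem_nhds hxW) ((hV.preimage (g : M ≃ₜ M).continuous).mem_nhds hxV))
  obtain ⟨q, h1, h2, h3, h4⟩ := exists_collapse φ hφ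
  obtain ⟨Φ, hΦ⟩ := exists_test φ hφ
  have e := hg _ ⟨{⟨q, h1, h4⟩}, 1 / 8, finite_singleton _, by norm_num, rfl⟩ _ rfl Φ
  have e1 : 1 / 4 ≤ ev ⟨q, h1, h4⟩ Φ := cost_of_not_null (not_null _ fun x => by
    have hx := mem_closedBall_zero_iff.1 x.2
    have := h2 _ (hΦ x).1 (by rw [(hΦ x).2, norm_smul]; norm_num; linarith)
    rwa [(hΦ x).2] at this)
  have e2 : ev ⟨q, h1, h4⟩ (Test.act (g : M ≃ₜ M) Φ) ≤ 0 :=
    cost_of_null (null_of_far (fun x => h1 _) fun x hx =>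
      disjoint_left.1 hVW (hs (hΦ x).1).2 (hs (h3 _ hx).1).1)
  linarith [(abs_le.1 e).1]

theorem strict [T2Space M] [IsManifold (𝓡 3) ∞ M] [Nonempty M] :
    ∃ S, IsOpen[compactOpen M] S ∧ ¬ IsOpen[(basis M).topology] S := by
  obtain ⟨x₀⟩ := ‹Nonempty M›
  obtain ⟨φ, hφ, -, hx₀, hφ0, hs1, hs2⟩ := exists_chart x₀ univ_mem
  refine ⟨{g | MapsTo (g : M ≃ₜ M) {x₀} (φ.source ∩ φ ⁻¹' ball 0 1)},
    TopologicalSpace.isOpen_generateFrom_of_mem ⟨_, _, isCompact_singleton,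
      φ.isOpen_inter_preimage isOpen_ball, rfl⟩, fun ho => ?_⟩
  let := (basis M).topology
  obtain ⟨_, ⟨s, ε, hs, hε, rfl⟩, hsub⟩ := (basis M).nhds_one_hasBasis.mem_iff.1
    (ho.mem_nhds (x := 1) (by
      intro y hy
      rw [mem_singleton_iff.1 hy]
      exact ⟨hx₀, by show φ x₀ ∈ ball 0 1; rw [hφ0]; simp⟩))
  have hsub5 : closedBall (0 : E) 5 ⊆ φ.target :=
    (closedBall_subset_closedBall (by norm_num)).trans hφ
  have huc : ∀ᶠ δ in 𝓝[>] (0 : ℝ), ∀ q ∈ s, ∀ u ∈ closedBall (0 : E) 5, ∀ v ∈ closedBall (0 : E) 5,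
      ‖u - v‖ ≤ δ → ‖q.1 (φ.symm u) - q.1 (φ.symm v)‖ ≤ ε / 2 := by
    refine (eventually_all_finite hs).2 fun q _ => ?_
    have := (isCompact_closedBall (0 : E) 5).uniformContinuousOn_of_continuous
      (f := fun u => q.1 (φ.symm u))
      (q.1.continuous.comp_continuousOn (φ.continuousOn_symm.mono hsub5))
    obtain ⟨δ, hδ, h⟩ := Metric.uniformContinuousOn_iff_le.1 this (ε / 2) (half_pos hε)
    filter_upwards [Ioc_mem_nhdsGT hδ] with d hd u hu v hv huv
    rw [← dist_eq_norm] at huv ⊢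
    exact h u hu v hv (huv.trans hd.2)
  obtain ⟨δ, hδ, hδ0⟩ := (huc.and self_mem_nhdsWithin).exists
  obtain ⟨Ω, hm, R, l, hmod⟩ := exists_model
  obtain ⟨m, τ, c, ρ, hf⟩ := exists_fine hmod hδ0
  obtain ⟨b, hb, hj⟩ := hf.long
  obtain ⟨p, hp1, hp2, hpb, hp⟩ := exists_push τ.T_open hj
  obtain ⟨P, hP, hPp⟩ := ext_push φ hφ hs1 hs2 τ.T_open hf.T_sub p hp1 hp2 hp
  obtain ⟨τ', hl, hT, hS⟩ := exists_comap φ hφ hf
  have hS5 : ∀ j ≤ m, τ.S j ⊆ closedBall 0 5 := by
    have hQ : ∀ k < m, τ.Q k ⊆ closedBall 0 5 := fun k hk => by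
      rw [hf.Q_eq k hk]
      exact ((ball_subset_closedBall.trans (closedBall_subset_closedBall
        (by linarith [hf.ρ_pos]))).trans (hf.Q_sub k hk)).trans ball_subset_closedBall
    rintro j hj u (hu | hu | ⟨k, rfl, hu⟩)
    exacts [ball_subset_closedBall (hf.T_sub hu.1), hQ j hu.1 hu.2, hQ k hj hu]
  have hmem : P ∈ nb s ε := by
    intro q hq Φ
    have small : ∀ j ≤ m, ∀ u ∈ τ'.S j, ∀ u' ∈ τ'.S j, ‖q.1 u - q.1 u'‖ ≤ ε / 2 := by
      intro j hj u hu u' hu'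
      have := hδ q hq _ (hS5 j hj (hS j hu).2) _ (hS5 j hj (hS j hu').2)
        (hf.small j hj _ (hS j hu).2 _ (hS j hu').2)
      rwa [φ.left_inv (hS j hu).1, φ.left_inv (hS j hu').1] at this
    rw [← hT] at hP
    have e1 : ev q (Test.act (P : M ≃ₜ M) Φ) ≤ ev q Φ + 2 * (ε / 2) :=
      cost_le (by linarith) fun η hη h => push_null τ' hl ((P : M ≃ₜ M) : C(M, M)) hP q.1 q.2.1
        (by linarith) small Φ.1 Φ.2.1 Φ.2.2 hη h
    have e2 : ev q (Test.act ((P⁻¹ : diffGroup M) : M ≃ₜ M) (Test.act (P : M ≃ₜ M) Φ)) ≤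
        ev q (Test.act (P : M ≃ₜ M) Φ) + 2 * (ε / 2) :=
      cost_le (by linarith) fun η hη h => push_null τ' hl ((P : M ≃ₜ M).symm : C(M, M)) hP.symm
        q.1 q.2.1 (by linarith) small _ (Test.act (P : M ≃ₜ M) Φ).2.1
        (Test.act (P : M ≃ₜ M) Φ).2.2 hη h
    rw [← act_mul, inv_mul_cancel, act_one] at e2
    exact abs_le.2 ⟨by linarith, by linarith⟩
  have h1 := (hsub hmem (mem_singleton x₀)).2
  have h2 := hPp x₀ hx₀ (by rw [hφ0]; exact hj.source_mem)
  rw [mem_preimage, h2, hφ0, hpb, mem_ball_zero_iff] at h1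
  linarith

end Pool.Agent.MP_ff6fba_gt

end
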