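import Pool.Agent.MP_ff6fba_gt.Basic
import Pool.Agent.Lib.PlaneTop.HasLog
import Pool.Agent.MP_a5f24b_gt.Flat
import Pool.Agent.MP_d9ba76_lc.Fix

-- part MP_ff6fba_gt.Sphere
section

/-! The 2-sphere is simply connected, in the forms needed: logarithms and flat cocycles. -/

namespace Pool.Agent.MP_ff6fba_gt

open Set Metric Filter Topology Pool.Agent.Lib.PlaneTop Pool.Agent.MP_a5f24b_gt

/-- the closed hemisphere with sign `s` -/
def hemi (s : ℝ) : Set Sph := {x | 0 ≤ s * (x : E) 0}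

theorem hemi_closed (s : ℝ) : IsClosed (hemi s) :=
  isClosed_le continuous_const (by fun_prop)

theorem hemi_union : hemi 1 ∪ hemi (-1) = univ := by
  refine eq_univ_of_forall fun x => ?_
  rcases le_total 0 ((x : E) 0) with h | h
  · exact Or.inl (by simpa [hemi] using h)
  · exact Or.inr (by simpa [hemi] using h)

theorem sph_norm_sq (x : Sph) : (x : E) 0 ^ 2 + (x : E) 1 ^ 2 + (x : E) 2 ^ 2 = 1 := by
  have h : ‖(x : E)‖ = 1 := by simpa using x.2
  have h2 := EuclideanSpace.real_norm_sq_eq (x : E)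
  rw [h, Fin.sum_univ_three] at h2
  linarith

/-- the equator -/
noncomputable def eqt (t : ℝ) : Sph :=
  ⟨!₂[0, Real.cos t, Real.sin t], by
    have h2 := EuclideanSpace.real_norm_sq_eq (!₂[0, Real.cos t, Real.sin t] : E)
    rw [Fin.sum_univ_three] at h2
    have h3 : ‖(!₂[0, Real.cos t, Real.sin t] : E)‖ ^ 2 = 1 := by
      rw [h2]; simp
    simpa using (pow_eq_one_iff_of_nonneg (norm_nonneg _) two_ne_zero).1 h3⟩

theorem eqt_cont : Continuous eqt := by
  refine Continuous.subtype_mk ?_ _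
  fun_prop

theorem hemi_inter : hemi 1 ∩ hemi (-1) = range eqt := by
  ext x
  constructor
  · rintro ⟨h1, h2⟩
    have h0 : (x : E) 0 = 0 := by
      simp only [hemi, mem_setOf_eq] at h1 h2
      linarith
    have hs := sph_norm_sq x
    rw [h0] at hs
    set z : ℂ := ⟨(x : E) 1, (x : E) 2⟩ with hz
    have hn : ‖z‖ = 1 := by
      have : ‖z‖ ^ 2 = 1 := by
        rw [Complex.sq_norm, Complex.normSq_apply]
        simp only [hz]
        nlinarith
      exact (pow_eq_one_iff_of_nonneg (norm_nonneg _) two_ne_zero).1 this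
    have hz0 : z ≠ 0 := by
      intro h; rw [h] at hn; simp at hn
    have hc := Complex.cos_arg hz0
    have hsn := Complex.sin_arg z
    rw [hn, div_one] at hc hsn
    refine ⟨Complex.arg z, Subtype.ext ?_⟩
    ext i
    fin_cases i
    · simp [eqt, h0]
    · simpa [eqt] using hc
    · simpa [eqt] using hsn
  · rintro ⟨t, rfl⟩
    constructor <;> simp [hemi, eqt]

theorem hemi_inter_pre : IsPreconnected (hemi 1 ∩ hemi (-1)) := by
  rw [hemi_inter]
  exact isPreconnected_range eqt_cont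

/-- a hemisphere contracts to a point -/
theorem hemi_contract {s : ℝ} (hs : s ^ 2 = 1) :
    ∃ (H : hemi s × ℝ → Sph) (p : Sph), Continuous H ∧ (∀ y, H (y, 0) = p) ∧
      ∀ y, H (y, 1) = y := by
  let τ : ℝ → ℝ := fun t => max 0 (min 1 t)
  have hτ : Continuous τ := by fun_prop
  have hτ0 : ∀ t, 0 ≤ τ t := fun t => le_max_left _ _
  have hτ1 : ∀ t, τ t ≤ 1 := fun t => max_le zero_le_one (min_le_left _ _)
  let p : E := EuclideanSpace.single 0 s
  have hp : ‖p‖ = 1 := by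
    have : |s| ^ 2 = 1 := by rw [sq_abs]; exact hs
    simpa [p] using (pow_eq_one_iff_of_nonneg (abs_nonneg _) two_ne_zero).1 this
  let v : hemi s × ℝ → E := fun w => (1 - τ w.2) • p + τ w.2 • ((w.1 : Sph) : E)
  have hv : Continuous v := by fun_prop
  have hv0 : ∀ w, v w ≠ 0 := by
    intro w h
    have h1 : s * (v w 0) = 0 := by rw [h]; simp
    have h2 : 0 ≤ s * ((w.1 : Sph) : E) 0 := w.1.2
    have h3 : s * (v w 0) = (1 - τ w.2) + τ w.2 * (s * ((w.1 : Sph) : E) 0) := by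
      simp only [v, p, PiLp.add_apply, PiLp.smul_apply, smul_eq_mul, EuclideanSpace.single_apply,
        if_true]
      linear_combination (1 - τ w.2) * hs
    have h4 : τ w.2 = 1 := by
      have := mul_nonneg (hτ0 w.2) h2
      linarith [hτ1 w.2]
    have h5 : v w = ((w.1 : Sph) : E) := by simp [v, h4]
    have h6 : ‖((w.1 : Sph) : E)‖ = 1 := by simpa using (w.1 : Sph).2
    rw [← h5, h] at h6
    simp at h6
  refine ⟨fun w => ⟨‖v w‖⁻¹ • v w, ?_⟩, ⟨p, by simpa using hp⟩, ?_, fun y => ?_, fun y => ?_⟩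
  · simp [norm_smul, inv_mul_cancel₀ (norm_ne_zero_iff.2 (hv0 w))]
  · refine Continuous.subtype_mk ?_ _
    exact (hv.norm.inv₀ fun w => norm_ne_zero_iff.2 (hv0 w)).smul hv
  · apply Subtype.ext
    have : v (y, 0) = p := by simp [v, τ]
    simp [this, hp]
  · apply Subtype.ext
    have : v (y, 1) = ((y : Sph) : E) := by simp [v, τ]
    have h6 : ‖((y : Sph) : E)‖ = 1 := by simpa using (y : Sph).2
    simp [this, h6]

theorem hasLogOn_of_subtype {X : Type*} [TopologicalSpace X] {f : X → ℂ} {K : Set X}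
    (h : HasLogOn (fun y : K => f y) univ) : HasLogOn f K := by
  classical
  obtain ⟨ω, h1, h2⟩ := h
  refine ⟨fun x => if hx : x ∈ K then ω ⟨x, hx⟩ else 0, ?_, fun x hx => ?_⟩
  · rw [continuousOn_iff_continuous_domRestrict]
    have : K.domRestrict (fun x => if hx : x ∈ K then ω ⟨x, hx⟩ else 0) = ω := by
      funext a; simp [Set.domRestrict]
    rw [this]; exact continuousOn_univ.1 h1
  · simp only [hx, dif_pos]
    exact h2 _ (mem_univ _)

theorem hemi_log {f : Sph → ℂ} (hf : Continuous f) (h0 : ∀ x, f x ≠ 0) {s : ℝ}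
    (hs : s ^ 2 = 1) : HasLogOn f (hemi s) := by
  obtain ⟨H, p, hH, h1, h2⟩ := hemi_contract hs
  apply hasLogOn_of_subtype
  have := HasLogOn.homotopy (H := fun t (y : hemi s) => f (H (y, t))) (K := univ)
    (Continuous.continuousOn (hf.comp (hH.comp (by fun_prop))))
    (fun t _ x _ => h0 _) (by simpa only [h1] using hasLogOn_const (h0 p) univ)
  simpa only [h2] using this

theorem sph_log {f : Sph → ℂ} (hf : Continuous f) (h0 : ∀ x, f x ≠ 0) : HasLogOn f univ := by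
  rw [← hemi_union]
  exact (hemi_log hf h0 (by norm_num)).union (hemi_log hf h0 (by norm_num)) (hemi_closed _)
    (hemi_closed _) hemi_inter_pre

theorem hemi_triv {G : Type*} [Group G] {c : Sph → Sph → G} (h : ∀ w, FlatAt c w) {s : ℝ}
    (hs : s ^ 2 = 1) : ∃ b, TrivOn c b (hemi s) := by
  classical
  obtain ⟨H, p, hH, h1, h2⟩ := hemi_contract hs
  obtain ⟨b, hb⟩ := triv_homotopy (c := c) hH (fun w => h _) (b0 := fun _ => 1)
    (fun y => Eventually.of_forall fun y' => by simp [h1, (h p).self])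
  refine ⟨fun x => if hx : x ∈ hemi s then b ⟨x, hx⟩ else 1, fun w hw => ?_⟩
  have h3 := hb ⟨w, hw⟩
  simp only [h2] at h3
  rw [nhdsWithin_eq_map_subtype_coe hw, eventually_map]
  filter_upwards [h3] with u hu
  simpa [hw, u.2] using hu

theorem sph_triv {G : Type*} [Group G] {c : Sph → Sph → G} (h : ∀ w, FlatAt c w) :
    ∃ b, TrivOn c b univ := by
  obtain ⟨b, hb⟩ := hemi_triv h (s := 1) (by norm_num)
  obtain ⟨b', hb'⟩ := hemi_triv h (s := -1) (by norm_num)
  rw [← hemi_union]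
  exact hb.union hb' (hemi_closed _) (hemi_closed _) hemi_inter_pre (x := eqt 0)
    (by rw [hemi_inter]; exact mem_range_self _)

/-- Local frames `h i` on an open cover with locally constant transition functions come from a
global frame. -/
theorem sph_charts {G ι : Type*} [Group G] (A : ι → Set Sph) (hA : ∀ i, IsOpen (A i))
    (cov : ∀ x, ∃ i, x ∈ A i) (h : ι → Sph → G)
    (loc : ∀ i j x, x ∈ A i → x ∈ A j →
      ∀ᶠ y in 𝓝 x, (h i y)⁻¹ * h j y = (h i x)⁻¹ * h j x) :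
    ∃ b : Sph → G, ∀ i x, x ∈ A i → ∀ᶠ y in 𝓝 x, b y * h i y = b x * h i x := by
  choose ix hix using cov
  obtain ⟨β, hβ⟩ := sph_triv (c := fun w u => h (ix w) u * (h (ix w) w)⁻¹) (fun w => by
    filter_upwards [(hA _).mem_nhds (hix w)] with v hv
    filter_upwards [loc (ix v) (ix w) v (hix v) hv] with u hu
    have : h (ix w) u = h (ix v) u * ((h (ix v) u)⁻¹ * h (ix w) u) := by group
    rw [this, hu]; group)
  refine ⟨fun x => (β x)⁻¹, fun i x hx => ?_⟩
  have h1 := hβ x (mem_univ x)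
  rw [nhdsWithin_univ] at h1
  filter_upwards [h1, loc (ix x) i x (hix x) hx] with y e1 e2
  have e3 : β y = h (ix x) y * (h (ix x) x)⁻¹ * β x := by rw [e1]; group
  have e4 : h i y = h (ix x) y * ((h (ix x) y)⁻¹ * h i y) := by group
  rw [e4, e2, e3]; group

theorem log_root {X : Type*} [TopologicalSpace X] {f : X → ℂ} {K : Set X}
    (hf : ContinuousOn f K) {a : ℤ} (ha : a ≠ 0) (h : HasLogOn (fun x => f x ^ a) K) :
    HasLogOn f K := by
  obtain ⟨ω, h1, h2⟩ := h
  have ha' : (a : ℂ) ≠ 0 := Int.cast_ne_zero.2 ha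
  let g : X → ℂ := fun x => f x * Complex.exp (-(ω x / a))
  have hg : ContinuousOn g K := hf.mul (by fun_prop)
  have hf0 : ∀ x ∈ K, f x ≠ 0 := by
    intro x hx h0
    have := h2 x hx
    simp only [h0, zero_zpow a ha] at this
    exact Complex.exp_ne_zero _ this
  have hga : ∀ x ∈ K, g x ^ a = 1 := by
    intro x hx
    have e : (a : ℂ) * -(ω x / a) = -ω x := by field_simp
    simp only [g]
    rw [mul_zpow, ← Complex.exp_int_mul, e, Complex.exp_neg, h2 x hx]
    exact mul_inv_cancel₀ (zpow_ne_zero _ (hf0 x hx))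
  have hfin : {z : ℂ | z ^ a = 1}.Finite := by
    have hn : a.natAbs ≠ 0 := Int.natAbs_ne_zero.2 ha
    refine ((Polynomial.nthRoots a.natAbs (1 : ℂ)).toFinset.finite_toSet).subset fun z hz => ?_
    simp only [Finset.mem_coe, Multiset.mem_toFinset,
      Polynomial.mem_nthRoots (Nat.pos_of_ne_zero hn)]
    have hz' : z ^ a = 1 := hz
    rcases Int.natAbs_eq a with e | e
    · rw [e, zpow_natCast] at hz'; exact hz'
    · rw [e, zpow_neg, zpow_natCast, inv_eq_one] at hz'; exact hz'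
  have hloc : ∀ x ∈ K, ∀ᶠ y in 𝓝[K] x, g y = g x := by
    intro x hx
    have hop : IsOpen ({z : ℂ | z ^ a = 1} \ {g x})ᶜ := (hfin.diff.isClosed).isOpen_compl
    have := (hg x hx).eventually (hop.mem_nhds (by simp))
    filter_upwards [this, self_mem_nhdsWithin] with y hy hyK
    by_contra hne
    exact hy ⟨hga y hyK, hne⟩
  refine ⟨fun x => ω x / a + Complex.log (g x), ?_, fun x hx => ?_⟩
  · refine ContinuousOn.add (by fun_prop) fun x hx => ?_
    refine (continuousWithinAt_const (b := Complex.log (g x))).congr_of_eventuallyEq ?_ rfl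
    filter_upwards [hloc x hx] with y hy
    rw [hy]
  · have hg0 : g x ≠ 0 := mul_ne_zero (hf0 x hx) (Complex.exp_ne_zero _)
    rw [Complex.exp_add, Complex.exp_log hg0]
    simp only [g]
    rw [Complex.exp_neg]
    field_simp

theorem log_conj {X : Type*} [TopologicalSpace X] {f : X → ℂ} {K : Set X} (h : HasLogOn f K) :
    HasLogOn (fun x => (starRingEnd ℂ) (f x)) K := by
  obtain ⟨ω, h1, h2⟩ := h
  refine ⟨fun x => (starRingEnd ℂ) (ω x), Complex.continuous_conj.comp_continuousOn h1,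
    fun x hx => ?_⟩
  rw [Complex.exp_conj, h2 x hx]

/-- A logarithm on the overlap of a closed cover of the sphere gives a logarithm on each side. -/
theorem log_of_overlap {f : Sph → ℂ} {A B : Set Sph} (hA : IsClosed A) (hB : IsClosed B)
    (hAB : A ∪ B = univ) (hf : ContinuousOn f B) (h0 : ∀ x ∈ B, f x ≠ 0)
    (h : HasLogOn f (A ∩ B)) : HasLogOn f B := by
  classical
  obtain ⟨ω, h1, h2⟩ := h
  obtain ⟨ω', hω'⟩ := ContinuousMap.exists_restrict_eq (hA.inter hB)
    (⟨(A ∩ B).domRestrict ω, continuousOn_iff_continuous_domRestrict.1 h1⟩ : C(↥(A ∩ B), ℂ))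
  have hag : ∀ x ∈ A ∩ B, ω' x = ω x := fun x hx =>
    congrArg (fun k : C(↥(A ∩ B), ℂ) => k ⟨x, hx⟩) hω'
  let f' : Sph → ℂ := fun x => if x ∈ B then f x else Complex.exp (ω' x)
  have hc : Continuous f' := by
    rw [← continuousOn_univ, ← hAB]
    refine ContinuousOn.union_of_isClosed ?_ ?_ hA hB
    · refine (by fun_prop : ContinuousOn (fun x => Complex.exp (ω' x)) A).congr fun x hx => ?_
      by_cases hxB : x ∈ B
      · simp only [f', if_pos hxB]
        rw [hag x ⟨hx, hxB⟩, h2 x ⟨hx, hxB⟩]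
      · simp only [f', if_neg hxB]
    · exact hf.congr fun x hx => by simp only [f', if_pos hx]
  have hne : ∀ x, f' x ≠ 0 := by
    intro x
    by_cases hxB : x ∈ B
    · simp only [f', if_pos hxB]; exact h0 x hxB
    · simp only [f', if_neg hxB]; exact Complex.exp_ne_zero _
  exact ((sph_log hc hne).mono (subset_univ B)).congr fun x hx => by simp only [f', if_pos hx]

end Pool.Agent.MP_ff6fba_gt

end

-- part MP_ff6fba_gt.Height
section

/-! A two-colouring of the sphere lifts to a height function on a tree. -/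

namespace Pool.Agent.MP_ff6fba_gt

open Set Metric Filter Topology Pool.Agent.Lib.PlaneTop

/-- the distance of `ζ` from the parity of `n` -/
noncomputable def etaH (ζ : Sph → ℝ) (n : ℕ) (x : Sph) : ℝ := if Even n then ζ x else 1 - ζ x

/-- the colour used at level `n` -/
def colH (ζ : Sph → ℝ) (n : ℕ) : Set Sph := {x | etaH ζ n x < 1}

/-- the points reached after `n` changes of colour -/
def reachH (ζ : Sph → ℝ) (x0 : Sph) : ℕ → Set Sph
  | 0 => connectedComponentIn (colH ζ 0) x0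
  | n + 1 => reachH ζ x0 n ∪ ⋃ y ∈ reachH ζ x0 n, connectedComponentIn (colH ζ (n + 1)) y

section aux

variable {ζ : Sph → ℝ} {x0 : Sph}

theorem etaH_succ (n : ℕ) (x : Sph) : etaH ζ (n + 1) x = 1 - etaH ζ n x := by
  unfold etaH
  by_cases h : Even n
  · have : ¬ Even (n + 1) := by simpa [Nat.even_add_one] using h
    simp [h, this]
  · have : Even (n + 1) := by simpa [Nat.even_add_one] using h
    simp [h, this]

theorem colH_two (n : ℕ) : colH ζ (n + 2) = colH ζ n := by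
  ext x
  show etaH ζ (n + 2) x < 1 ↔ etaH ζ n x < 1
  rw [show n + 2 = n + 1 + 1 from rfl, etaH_succ, etaH_succ]
  simp

theorem colH_add (n k : ℕ) : colH ζ (n + 2 * k) = colH ζ n := by
  induction k with
  | zero => rfl
  | succ k ih => rw [show n + 2 * (k + 1) = n + 2 * k + 2 by ring, colH_two, ih]

theorem etaH_cont (hc : Continuous ζ) (n : ℕ) : Continuous (etaH ζ n) := by
  unfold etaH
  by_cases h : Even n
  · simpa [h] using hc
  · simp only [h, if_false]; fun_prop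

theorem etaH_nonneg (h0 : ∀ x, 0 ≤ ζ x) (h1 : ∀ x, ζ x ≤ 1) (n : ℕ) (x : Sph) :
    0 ≤ etaH ζ n x := by
  unfold etaH
  split_ifs
  · exact h0 x
  · linarith [h1 x]

theorem etaH_le (h0 : ∀ x, 0 ≤ ζ x) (h1 : ∀ x, ζ x ≤ 1) (n : ℕ) (x : Sph) :
    etaH ζ n x ≤ 1 := by
  unfold etaH
  split_ifs
  · exact h1 x
  · linarith [h0 x]

theorem colH_open (hc : Continuous ζ) (n : ℕ) : IsOpen (colH ζ n) :=
  isOpen_lt (etaH_cont hc n) continuous_const

theorem mono_of_colH {n : ℕ} {Z : Set Sph} (h : Z ⊆ colH ζ n) : Mono ζ Z := by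
  by_cases hn : Even n
  · left
    intro x hx
    have := h hx
    simpa [colH, etaH, hn] using this
  · right
    intro x hx
    have := h hx
    simpa [colH, etaH, hn] using this

theorem reachH_mono : Monotone (reachH ζ x0) :=
  monotone_nat_of_le_succ fun _ => subset_union_left

theorem reachH_open (hc : Continuous ζ) : ∀ n, IsOpen (reachH ζ x0 n)
  | 0 => (colH_open hc 0).connectedComponentIn
  | n + 1 => (reachH_open hc n).union
      (isOpen_biUnion fun _ _ => (colH_open hc (n + 1)).connectedComponentIn)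

theorem reachH_comp {n : ℕ} {x : Sph} (hx : x ∈ reachH ζ x0 n) :
    connectedComponentIn (colH ζ n) x ⊆ reachH ζ x0 n := by
  cases n with
  | zero => rw [← connectedComponentIn_eq hx]; exact subset_rfl
  | succ n =>
    rcases hx with hx | hx
    · exact fun y hy => Or.inr (mem_biUnion hx hy)
    · obtain ⟨y, hy, hxy⟩ := mem_iUnion₂.1 hx
      rw [← connectedComponentIn_eq hxy]
      exact fun z hz => Or.inr (mem_biUnion hy hz)

/-- the component of `x` in colour `n` lies in level `n` once it meets level `n` -/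
theorem reachH_of_comp {n : ℕ} {x y : Sph} (hy : y ∈ connectedComponentIn (colH ζ n) x)
    (hyn : y ∈ reachH ζ x0 n) : x ∈ reachH ζ x0 n := by
  apply reachH_comp hyn
  rw [← connectedComponentIn_eq hy]
  exact mem_connectedComponentIn (connectedComponentIn_nonempty_iff.1 ⟨y, hy⟩)

theorem reachH_preconn : ∀ n, IsPreconnected (reachH ζ x0 n)
  | 0 => isPreconnected_connectedComponentIn
  | n + 1 => by
    apply isPreconnected_of_forall_pair
    have key : ∀ x ∈ reachH ζ x0 (n + 1), ∃ t ⊆ reachH ζ x0 (n + 1), x ∈ t ∧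
        reachH ζ x0 n ⊆ t ∧ IsPreconnected t ∧ (reachH ζ x0 n).Nonempty := by
      intro x hx
      rcases hx with hx | hx
      · exact ⟨_, subset_union_left, hx, subset_rfl, reachH_preconn n, x, hx⟩
      · obtain ⟨y, hy, hxy⟩ := mem_iUnion₂.1 hx
        refine ⟨reachH ζ x0 n ∪ connectedComponentIn (colH ζ (n + 1)) y,
          union_subset subset_union_left fun z hz => Or.inr (mem_biUnion hy hz), Or.inr hxy,
          subset_union_left, ?_, y, hy⟩
        exact (reachH_preconn n).union y hy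
          (mem_connectedComponentIn (connectedComponentIn_nonempty_iff.1 ⟨x, hxy⟩))
          isPreconnected_connectedComponentIn
    intro x hx y hy
    obtain ⟨t, ht, hxt, hnt, hpt, z, hz⟩ := key x hx
    obtain ⟨t', ht', hyt, hnt', hpt', -⟩ := key y hy
    exact ⟨t ∪ t', union_subset ht ht', Or.inl hxt, Or.inr hyt,
      hpt.union z (hnt hz) (hnt' hz) hpt'⟩

theorem reachH_all (hc : Continuous ζ) (hx0 : ζ x0 < 1) (x : Sph) : ∃ n, x ∈ reachH ζ x0 n := by
  have hU : IsClopen (⋃ n, reachH ζ x0 n) := by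
    refine ⟨⟨isOpen_iff_mem_nhds.2 fun x hx => ?_⟩, isOpen_iUnion (reachH_open hc)⟩
    obtain ⟨i, hi⟩ : ∃ i, x ∈ colH ζ i := by
      by_cases h : etaH ζ 0 x < 1
      · exact ⟨0, h⟩
      · refine ⟨0 + 1, ?_⟩
        show etaH ζ (0 + 1) x < 1
        rw [etaH_succ]; linarith [not_lt.1 h]
    refine mem_of_superset ((colH_open hc i).connectedComponentIn.mem_nhds
      (mem_connectedComponentIn hi)) fun y hy hyU => hx ?_
    obtain ⟨n, hn⟩ := mem_iUnion.1 hyU
    refine mem_iUnion.2 ⟨i + 2 * n, reachH_of_comp (y := y) ?_ (reachH_mono (by omega) hn)⟩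
    rwa [colH_add]
  have h0 : x0 ∈ ⋃ n, reachH ζ x0 n :=
    mem_iUnion.2 ⟨0, mem_connectedComponentIn (by simpa [colH, etaH] using hx0)⟩
  have := hU.eq_univ ⟨x0, h0⟩
  exact mem_iUnion.1 (this ▸ mem_univ x)

/-- The properties of the level function. -/
structure IsLevH (ζ : Sph → ℝ) (x0 : Sph) (lev : Sph → ℕ) : Prop where
  iff : ∀ x n, x ∈ reachH ζ x0 n ↔ lev x ≤ n

theorem exists_levH (hc : Continuous ζ) (hx0 : ζ x0 < 1) : ∃ lev, IsLevH ζ x0 lev := by
  classical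
  refine ⟨fun x => Nat.find (reachH_all hc hx0 x), ⟨fun x n => ⟨fun h => Nat.find_min' _ h,
    fun h => reachH_mono h (Nat.find_spec (reachH_all hc hx0 x))⟩⟩⟩

variable {lev : Sph → ℕ}

theorem IsLevH.col (h : IsLevH ζ x0 lev) (x : Sph) : x ∈ colH ζ (lev x) := by
  have hx := (h.iff x (lev x)).2 le_rfl
  cases hn : lev x with
  | zero => rw [hn] at hx; exact connectedComponentIn_subset _ _ hx
  | succ n =>
    rw [hn] at hx
    rcases hx with hx | hx
    · have := (h.iff x n).1 hx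
      omega
    · obtain ⟨y, -, hxy⟩ := mem_iUnion₂.1 hx
      exact connectedComponentIn_subset _ _ hxy

theorem IsLevH.local (h : IsLevH ζ x0 lev) {x y : Sph}
    (hy : y ∈ connectedComponentIn (colH ζ (lev x)) x) :
    lev y = lev x ∨ lev y + 1 = lev x := by
  have h1 : lev y ≤ lev x := (h.iff _ _).1 (reachH_comp ((h.iff x _).2 le_rfl) hy)
  by_contra hcon
  obtain ⟨i, hi⟩ : ∃ i, lev x = i + 2 := ⟨lev x - 2, by omega⟩
  rw [hi, colH_two] at hy
  have := (h.iff _ _).1 (reachH_of_comp hy ((h.iff y i).2 (by omega)))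
  omega

theorem IsLevH.cont (h : IsLevH ζ x0 lev) (hc : Continuous ζ) (h0 : ∀ x, 0 ≤ ζ x)
    (h1 : ∀ x, ζ x ≤ 1) : Continuous fun x => (lev x : ℝ) + etaH ζ (lev x) x := by
  refine continuous_iff_continuousAt.2 fun x => ?_
  have hC : ∀ᶠ y in 𝓝 x, y ∈ connectedComponentIn (colH ζ (lev x)) x :=
    (colH_open hc _).connectedComponentIn.mem_nhds (mem_connectedComponentIn (h.col x))
  rcases (etaH_nonneg h0 h1 (lev x) x).eq_or_lt with hx | hx
  · have ht : Tendsto (etaH ζ (lev x)) (𝓝 x) (𝓝 0) := by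
      rw [hx]; exact (etaH_cont hc _).continuousAt
    rw [ContinuousAt, tendsto_iff_dist_tendsto_zero]
    refine ht.congr' (hC.mono fun y hy => ?_)
    have hy0 := etaH_nonneg h0 h1 (lev x) y
    rcases h.local hy with e | e
    · simp only [e, ← hx, Real.dist_eq]
      rw [abs_of_nonneg (by linarith)]; ring
    · have e2 : etaH ζ (lev x) y = 1 - etaH ζ (lev y) y := by rw [← e, etaH_succ]
      have e3 : (lev x : ℝ) = lev y + 1 := by rw [← e]; push_cast; ring
      simp only [← hx, Real.dist_eq]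
      rw [abs_of_nonpos (by linarith)]; linarith
  · have hx' : x ∈ colH ζ (lev x + 1) := by
      show etaH ζ (lev x + 1) x < 1
      rw [etaH_succ]; linarith
    have hC' : ∀ᶠ y in 𝓝 x, y ∈ connectedComponentIn (colH ζ (lev x + 1)) x :=
      (colH_open hc _).connectedComponentIn.mem_nhds (mem_connectedComponentIn hx')
    have hcont : ContinuousAt (fun y => (lev x : ℝ) + etaH ζ (lev x) y) x :=
      (continuous_const.add (etaH_cont hc _)).continuousAt
    refine hcont.congr ((hC.and hC').mono fun y hy => ?_)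
    rcases h.local hy.1 with e | e
    · simp only [e]
    · exfalso
      have hy2 := hy.2
      rw [← e, colH_two] at hy2
      have := (h.iff _ _).1 (reachH_of_comp hy2 ((h.iff y _).2 le_rfl))
      omega

theorem IsLevH.le (h : IsLevH ζ x0 lev) (h0 : ∀ x, 0 ≤ ζ x) (h1 : ∀ x, ζ x ≤ 1) {m : ℕ} {y : Sph}
    (hy : y ∈ reachH ζ x0 m) : (lev y : ℝ) + etaH ζ (lev y) y ≤ m + etaH ζ m y := by
  rcases ((h.iff _ _).1 hy).eq_or_lt with e | e
  · rw [e]
  · have : (lev y : ℝ) + 1 ≤ m := by exact_mod_cast e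
    linarith [etaH_le h0 h1 (lev y) y, etaH_nonneg h0 h1 m y]

theorem IsLevH.zig_eq (h : IsLevH ζ x0 lev) (h0 : ∀ x, 0 ≤ ζ x) (h1 : ∀ x, ζ x ≤ 1) (x : Sph) :
    zig ((lev x : ℝ) + etaH ζ (lev x) x) = ζ x := by
  have hx := h.col x
  have a0 := h0 x
  have a1 := h1 x
  rcases Nat.even_or_odd (lev x) with ⟨k, hk⟩ | ⟨k, hk⟩
  · have he : Even (lev x) := ⟨k, hk⟩
    have hlt : ζ x < 1 := by simpa [colH, etaH, he] using hx
    have e : ((lev x : ℝ) + etaH ζ (lev x) x) / 2 = ζ x / 2 + (k : ℤ) := by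
      simp only [etaH, he, if_true]
      rw [hk]; push_cast; ring
    have hr : round (ζ x / 2) = 0 := round_eq_zero_iff.2 ⟨by linarith, by linarith⟩
    rw [zig, e, tent, round_add_intCast, hr]
    push_cast
    rw [abs_of_nonneg (by linarith)]; ring
  · have he : ¬ Even (lev x) := by rw [hk]; simp
    have e : ((lev x : ℝ) + etaH ζ (lev x) x) / 2 = -ζ x / 2 + ((k + 1 : ℕ) : ℤ) := by
      simp only [etaH, he, if_false]
      rw [hk]; push_cast; ring
    have hr : round (-ζ x / 2) = 0 := round_eq_zero_iff.2 ⟨by linarith, by linarith⟩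
    rw [zig, e, tent, round_add_intCast, hr]
    push_cast
    rw [abs_of_nonpos (by linarith)]; ring

theorem IsLevH.merge (h : IsLevH ζ x0 lev) (hc : Continuous ζ) (h0 : ∀ x, 0 ≤ ζ x)
    (h1 : ∀ x, ζ x ≤ 1) {m : ℕ} {Z : Set Sph} (hZ : IsPreconnected Z)
    (hZm : ∀ x ∈ Z, (m : ℝ) < lev x + etaH ζ (lev x) x) {a a' : Sph} (ha : a ∈ Z) (ha' : a' ∈ Z)
    (hl : lev a ≤ m + 1) (hl' : lev a' ≤ m + 1) :
    a ∈ colH ζ (m + 1) ∧ a' ∈ connectedComponentIn (colH ζ (m + 1)) a := by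
  classical
  have hcol : ∀ x ∈ Z, lev x ≤ m + 1 → x ∈ colH ζ (m + 1) ∧
      ∃ b ∈ reachH ζ x0 m, b ∈ connectedComponentIn (colH ζ (m + 1)) x := by
    intro x hx hxl
    rcases hxl.eq_or_lt with e | e
    · have hxc : x ∈ colH ζ (m + 1) := e ▸ h.col x
      refine ⟨hxc, ?_⟩
      rcases (h.iff x (m + 1)).2 hxl with hx1 | hx1
      · exact ⟨x, hx1, mem_connectedComponentIn hxc⟩
      · obtain ⟨y, hy, hxy⟩ := mem_iUnion₂.1 hx1
        refine ⟨y, hy, ?_⟩
        rw [← connectedComponentIn_eq hxy]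
        exact mem_connectedComponentIn (connectedComponentIn_nonempty_iff.1 ⟨x, hxy⟩)
    · have hxm := (h.iff x m).2 (by omega)
      have hxc : x ∈ colH ζ (m + 1) := by
        show etaH ζ (m + 1) x < 1
        rw [etaH_succ]; linarith [h.le h0 h1 hxm, hZm x hx]
      exact ⟨hxc, x, hxm, mem_connectedComponentIn hxc⟩
  obtain ⟨hac, b, hbm, hbC⟩ := hcol a ha hl
  obtain ⟨hac', b', hbm', hbC'⟩ := hcol a' ha' hl'
  refine ⟨hac, ?_⟩
  by_contra hcon
  set C := connectedComponentIn (colH ζ (m + 1)) a with hCdef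
  set C' := connectedComponentIn (colH ζ (m + 1)) a' with hCdef'
  have hCo : IsOpen C := (colH_open hc _).connectedComponentIn
  set J := C ∩ reachH ζ x0 m with hJ
  have hJo : IsOpen J := hCo.inter (reachH_open hc m)
  -- points of colour `m + 1` in the closure of `J` lie in `C`
  have hcl : ∀ p ∈ closure J, p ∈ colH ζ (m + 1) → p ∈ C := by
    intro p hp hpc
    obtain ⟨y, hy1, hy2⟩ := mem_closure_iff.1 hp _ (colH_open hc (m + 1)).connectedComponentIn
      (mem_connectedComponentIn hpc)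
    rw [hCdef, connectedComponentIn_eq hy2.1, ← connectedComponentIn_eq hy1]
    exact mem_connectedComponentIn hpc
  have hdis : ∀ p ∈ C', p ∉ C := by
    intro p hp hpC
    apply hcon
    rw [hCdef, connectedComponentIn_eq hpC, ← connectedComponentIn_eq hp]
    exact mem_connectedComponentIn hac'
  have hfr : ∀ p ∈ frontier {x | x ∈ J}, (p ∈ C ∧ p ∉ reachH ζ x0 m ∧ etaH ζ m p = 1) ∨
      (p ∉ C ∧ p ∉ Z ∧ etaH ζ m p = 0) := by
    intro p hp
    have hp' : p ∈ closure J \ J := by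
      rw [← hJo.frontier_eq]; exact hp
    by_cases hpC : p ∈ C
    · left
      have hpm : p ∉ reachH ζ x0 m := fun hh => hp'.2 ⟨hpC, hh⟩
      refine ⟨hpC, hpm, le_antisymm (etaH_le h0 h1 m p) (not_lt.1 fun hlt => hpm ?_)⟩
      obtain ⟨y, hy1, hy2⟩ := mem_closure_iff.1 hp'.1 _ (colH_open hc m).connectedComponentIn
        (mem_connectedComponentIn hlt)
      exact reachH_of_comp hy1 hy2.2
    · right
      have he : etaH ζ m p = 0 := by
        have : ¬ etaH ζ (m + 1) p < 1 := fun hh => hpC (hcl p hp'.1 hh)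
        rw [etaH_succ] at this
        linarith [etaH_nonneg h0 h1 m p, not_lt.1 this]
      refine ⟨hpC, fun hpZ => ?_, he⟩
      have hcl2 : IsClosed {y | (lev y : ℝ) + etaH ζ (lev y) y ≤ m + etaH ζ m y} :=
        isClosed_le (h.cont hc h0 h1) (continuous_const.add (etaH_cont hc m))
      have : (lev p : ℝ) + etaH ζ (lev p) p ≤ m + etaH ζ m p :=
        closure_minimal (t := {y | (lev y : ℝ) + etaH ζ (lev y) y ≤ m + etaH ζ m y})
          (fun y (hy : y ∈ J) => h.le h0 h1 hy.2) hcl2 hp'.1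
      linarith [hZm p hpZ]
  set u : Sph → ℂ := fun x => 2 * Real.pi * Complex.I * (etaH ζ m x : ℝ) with hu
  have huc : Continuous u :=
    continuous_const.mul (Complex.continuous_ofReal.comp (etaH_cont hc m))
  have hF : Continuous fun x => if x ∈ J then Complex.exp (u x) else 1 := by
    refine Continuous.if (fun p hp => ?_) huc.cexp continuous_const
    rcases hfr p hp with ⟨-, -, e⟩ | ⟨-, -, e⟩
    · simp [hu, e]
    · simp [hu, e]
  obtain ⟨w, hw, hwe⟩ := sph_log hF fun x => by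
    split_ifs
    · exact Complex.exp_ne_zero _
    · exact one_ne_zero
  have hΩ : IsPreconnected (Z ∪ C) :=
    hZ.union a ha (mem_connectedComponentIn hac) isPreconnected_connectedComponentIn
  have hL : IsPreconnected (reachH ζ x0 m ∪ C') :=
    (reachH_preconn m).union b' hbm' hbC' isPreconnected_connectedComponentIn
  have c1 : ContinuousOn (fun x => if x ∈ J then u x else 2 * Real.pi * Complex.I) (Z ∪ C) := by
    refine ContinuousOn.if (fun p hp => ?_) huc.continuousOn continuousOn_const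
    rcases hfr p hp.2 with ⟨-, -, e⟩ | ⟨e1, e2, -⟩
    · simp [hu, e]
    · exact absurd hp.1 (by simp [e1, e2])
  have c0 : ContinuousOn (fun x => if x ∈ J then u x else 0) (reachH ζ x0 m ∪ C') := by
    refine ContinuousOn.if (fun p hp => ?_) huc.continuousOn continuousOn_const
    rcases hfr p hp.2 with ⟨e1, e2, -⟩ | ⟨-, -, e⟩
    · rcases hp.1 with hh | hh
      · exact absurd hh e2
      · exact absurd e1 (hdis p hh)
    · simp [hu, e]
  have hbJ : b ∈ J := ⟨hbC, hbm⟩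
  have haC' : a' ∈ C' := mem_connectedComponentIn hac'
  have haJ : a' ∉ J := fun hh => hcon hh.1
  have e1 := log_sub_const hΩ (hw.mono (subset_univ _)) c1 (fun x _ => by
    rw [hwe x (mem_univ x)]
    beta_reduce
    split_ifs
    · rfl
    · exact Complex.exp_two_pi_mul_I.symm) (Or.inr hbC) (Or.inl ha')
  have e0 := log_sub_const hL (hw.mono (subset_univ _)) c0 (fun x _ => by
    rw [hwe x (mem_univ x)]
    beta_reduce
    split_ifs
    · rfl
    · exact Complex.exp_zero.symm) (Or.inl hbm) (Or.inr haC')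
  simp only [hbJ, haJ, if_true, if_false] at e1 e0
  apply Complex.two_pi_I_ne_zero
  linear_combination e1 - e0

end aux

theorem exists_height (ζ : Sph → ℝ) (hc : Continuous ζ) (h0 : ∀ x, 0 ≤ ζ x) (h1 : ∀ x, ζ x ≤ 1) :
    ∃ g : Sph → ℝ, Continuous g ∧ (∀ x, 0 ≤ g x) ∧ (∀ x, zig (g x) = ζ x) ∧
      ∀ (n : ℤ) (Z : Set Sph), IsPreconnected Z → (∀ x ∈ Z, (n : ℝ) - 1 < g x) →
        ∀ a ∈ Z, ∀ a' ∈ Z, g a < n + 1 → g a' < n + 1 →
          ∃ Z' : Set Sph, IsPreconnected Z' ∧ a ∈ Z' ∧ a' ∈ Z' ∧ Mono ζ Z' := by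
  by_cases hall : ∀ x, ζ x = 1
  · refine ⟨fun _ => 1, continuous_const, fun _ => zero_le_one, fun x => ?_,
      fun _ _ _ _ a _ a' _ _ _ => ⟨univ, isPreconnected_univ, mem_univ _, mem_univ _,
        Or.inr fun x _ => by rw [hall x]; exact one_pos⟩⟩
    rw [hall x, zig, tent, show (1 : ℝ) / 2 = 2⁻¹ by norm_num, round_two_inv]
    norm_num [abs_of_nonpos]
  obtain ⟨x0, hx0⟩ := not_forall.1 hall
  obtain ⟨lev, h⟩ := exists_levH (x0 := x0) hc (lt_of_le_of_ne (h1 x0) hx0)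
  refine ⟨fun x => (lev x : ℝ) + etaH ζ (lev x) x, h.cont hc h0 h1,
    fun x => add_nonneg (Nat.cast_nonneg _) (etaH_nonneg h0 h1 _ _), h.zig_eq h0 h1, ?_⟩
  intro n Z hZ hZn a ha a' ha' hl hl'
  have hlev : ∀ x, (lev x : ℝ) + etaH ζ (lev x) x < n + 1 → (lev x : ℤ) ≤ n := by
    intro x hx
    have : (lev x : ℝ) < n + 1 := by linarith [etaH_nonneg h0 h1 (lev x) x]
    have : (lev x : ℤ) < n + 1 := by exact_mod_cast this
    omega
  have k1 := hlev a hl
  have k2 := hlev a' hl'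
  rcases (show n = 0 ∨ ∃ m : ℕ, n = m + 1 by
    by_cases hn : n = 0
    · exact Or.inl hn
    · exact Or.inr ⟨(n - 1).toNat, by omega⟩) with rfl | ⟨m, rfl⟩
  · exact ⟨reachH ζ x0 0, reachH_preconn 0, (h.iff _ _).2 (by omega), (h.iff _ _).2 (by omega),
      mono_of_colH (n := 0) (connectedComponentIn_subset _ _)⟩
  · obtain ⟨e1, e2⟩ := h.merge hc h0 h1 (m := m) hZ (fun x hx => by
      have := hZn x hx
      push_cast at this
      linarith) ha ha' (by omega) (by omega)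
    exact ⟨_, isPreconnected_connectedComponentIn, mem_connectedComponentIn e1, e2,
      mono_of_colH (connectedComponentIn_subset _ _)⟩

end Pool.Agent.MP_ff6fba_gt

end

-- part MP_ff6fba_gt.Thin
section

/-! Elementary properties of null fillings and the cost function. -/

namespace Pool.Agent.MP_ff6fba_gt

open Set Metric Filter Topology

theorem Near.close {η δ : ℝ} {v w : F} (h : Near (η + δ) w) (hd : ‖v - w‖ ≤ δ) : Near η v := by
  have h1 : ‖v.1 - w.1‖ ≤ δ := (norm_fst_le (v - w)).trans hd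
  have h2 : |v.2 - w.2| ≤ δ := (norm_snd_le (v - w)).trans hd
  have h3 := norm_le_norm_add_norm_sub' v.1 w.1
  have h4 := abs_le.1 h2
  exact ⟨by linarith [h.1], by linarith [h.2, h4.1]⟩

theorem Ok.close {η δ : ℝ} {v w : F} (h : Ok η v) (hd : ‖v - w‖ ≤ δ) : Ok (η + δ) w := by
  have h1 : ‖v.1 - w.1‖ ≤ δ := (norm_fst_le (v - w)).trans hd
  have h2 : |v.2 - w.2| ≤ δ := (norm_snd_le (v - w)).trans hd
  have h3 := norm_le_norm_add_norm_sub' v.1 w.1
  have h4 := abs_le.1 h2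
  rcases h with h | h | h
  · exact Or.inl (by linarith)
  · exact Or.inr (Or.inl (by linarith [h4.1]))
  · exact Or.inr (Or.inr (by linarith [h4.2]))

theorem Near.mono {η η' : ℝ} {v : F} (h : Near η' v) (hη : η ≤ η') : Near η v :=
  Near.close (δ := η' - η) (by simpa using h) (by simpa using hη)

theorem Ok.mono {η η' : ℝ} {v : F} (h : Ok η v) (hη : η ≤ η') : Ok η' v := by
  simpa using h.close (δ := η' - η) (w := v) (by simpa using hη)

theorem Good.close {η δ : ℝ} {Φ Ψ : C(Bl, F)} {ζ : C(Sph, ℝ)} (h : Good η (Φ, ζ))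
    (hδ : ∀ x, ‖Φ x - Ψ x‖ ≤ δ) : Good (η + 2 * δ) (Ψ, ζ) := by
  have h0 : 0 ≤ δ := (norm_nonneg _).trans (hδ ⟨0, by simp⟩)
  refine ⟨fun x => ((h.ok x).close (hδ x)).mono (by linarith), h.lo, h.hi,
    fun Z hZ hm x hx hn x' hx' => ?_⟩
  have h1 := h.thin Z hZ hm x hx ((hn.mono (η := η + δ) (by linarith)).close (hδ _)) x' hx'
  have e : Ψ (inc x) - Ψ (inc x') = -(Φ (inc x) - Ψ (inc x)) + (Φ (inc x) - Φ (inc x')) +
      (Φ (inc x') - Ψ (inc x')) := by abel
  show ‖Ψ (inc x) - Ψ (inc x')‖ ≤ _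
  rw [e]
  refine (norm_add₃_le).trans ?_
  rw [norm_neg]
  linarith [hδ (inc x), hδ (inc x')]

theorem Good.mono {η η' : ℝ} {z : C(Bl, F) × C(Sph, ℝ)} (h : Good η z) (hη : η ≤ η') :
    Good η' z := by
  have := Good.close (Φ := z.1) (Ψ := z.1) (ζ := z.2) (δ := (η' - η) / 2) h
    (fun x => by simp; linarith)
  rwa [show η + 2 * ((η' - η) / 2) = η' by ring] at this

theorem Null.mono {Φ : C(Bl, F)} {η η' : ℝ} (h : Null Φ η) (hη : η ≤ η') : Null Φ η' := by
  obtain ⟨ζ, z, h1, h2⟩ := h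
  exact ⟨ζ, z, fun x hx => h1 x (hx.mono hη), h2.mono fun w hw => Good.mono hw hη⟩

theorem joined_family {η : ℝ} (A : C(unitInterval × Bl, F)) (B : C(unitInterval × Sph, ℝ))
    (h : ∀ s, Good η (A.curry s, B.curry s)) :
    JoinedIn {w | Good η w} (A.curry 0, B.curry 0) (A.curry 1, B.curry 1) :=
  ⟨⟨⟨fun s => (A.curry s, B.curry s), by fun_prop⟩, rfl, rfl⟩, h⟩

theorem Null.close {Φ Ψ : C(Bl, F)} {η δ : ℝ} (h : Null Φ η) (hδ : ∀ x, ‖Φ x - Ψ x‖ ≤ δ) :
    Null Ψ (η + 2 * δ) := by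
  have h0 : 0 ≤ δ := (norm_nonneg _).trans (hδ ⟨0, by simp⟩)
  obtain ⟨ζ, z, h1, h2⟩ := h
  have hg : Good η (Φ, ζ) := h2.source_mem
  refine ⟨ζ, z, fun x hx => h1 x (hx.mono (by linarith)), JoinedIn.trans ?_
    (h2.mono fun w hw => Good.mono hw (by linarith))⟩
  have := joined_family (η := η + 2 * δ)
    ⟨fun p => Ψ p.2 + (p.1 : ℝ) • (Φ p.2 - Ψ p.2), by fun_prop⟩ ⟨fun p => ζ p.2, by fun_prop⟩
    (fun s => hg.close fun x => by
      have e : Φ x - (Ψ x + (s : ℝ) • (Φ x - Ψ x)) = (1 - (s : ℝ)) • (Φ x - Ψ x) := by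
        rw [sub_smul, one_smul]; abel
      show ‖Φ x - (Ψ x + (s : ℝ) • (Φ x - Ψ x))‖ ≤ δ
      rw [e, norm_smul, Real.norm_of_nonneg (by linarith [s.2.2])]
      nlinarith [s.2.1, s.2.2, hδ x, norm_nonneg (Φ x - Ψ x)])
  convert this using 2 <;> ext x <;> simp

theorem null_of_far {Φ : C(Bl, F)} (h1 : ∀ x, Ok 0 (Φ x)) (h2 : ∀ x, ¬ Near 0 (Φ x)) :
    Null Φ 0 :=
  ⟨0, (Φ, 0), h2, JoinedIn.refl ⟨h1, fun _ => le_rfl, fun _ => zero_le_one,
    fun _ _ _ x _ hn => absurd hn (h2 _)⟩⟩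

/-- the least scale at which a filled sphere is null, capped at `1 / 4` -/
noncomputable def cost (Φ : C(Bl, F)) : ℝ := sInf ({1 / 4} ∪ {η | 0 ≤ η ∧ Null Φ η})

theorem cost_bdd (Φ : C(Bl, F)) : BddBelow ({1 / 4} ∪ {η | 0 ≤ η ∧ Null Φ η} : Set ℝ) :=
  ⟨0, by rintro η (rfl | h); exacts [by norm_num, h.1]⟩

theorem cost_le {Φ Ψ : C(Bl, F)} {δ : ℝ} (hδ : 0 ≤ δ)
    (h : ∀ η, 0 ≤ η → Null Φ η → Null Ψ (η + δ)) : cost Ψ ≤ cost Φ + δ := by
  rw [← sub_le_iff_le_add]
  refine le_csInf ⟨1 / 4, Or.inl rfl⟩ ?_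
  rintro η (rfl | hη)
  · linarith [csInf_le (cost_bdd Ψ) (Or.inl rfl), show cost Ψ = sInf _ from rfl]
  · have := csInf_le (cost_bdd Ψ) (Or.inr ⟨add_nonneg hη.1 hδ, h η hη.1 hη.2⟩)
    linarith [show cost Ψ = sInf _ from rfl]

theorem cost_close {Φ Ψ : C(Bl, F)} {δ : ℝ} (hδ : ∀ x, ‖Φ x - Ψ x‖ ≤ δ) :
    |cost Φ - cost Ψ| ≤ 2 * δ := by
  have h0 : 0 ≤ δ := (norm_nonneg _).trans (hδ ⟨0, by simp⟩)
  have h1 := cost_le (Φ := Φ) (Ψ := Ψ) (δ := 2 * δ) (by linarith) fun η _ h => h.close hδ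
  have h2 := cost_le (Φ := Ψ) (Ψ := Φ) (δ := 2 * δ) (by linarith) fun η _ h =>
    h.close fun x => by rw [norm_sub_rev]; exact hδ x
  exact abs_le.2 ⟨by linarith, by linarith⟩

theorem cost_of_null {Φ : C(Bl, F)} (h : Null Φ 0) : cost Φ ≤ 0 :=
  csInf_le (cost_bdd Φ) (Or.inr ⟨le_rfl, h⟩)

theorem cost_of_not_null {Φ : C(Bl, F)} (h : ¬ Null Φ (1 / 4)) : 1 / 4 ≤ cost Φ := by
  refine le_csInf ⟨1 / 4, Or.inl rfl⟩ ?_
  rintro η (rfl | hη)
  · exact le_rfl
  · by_contra hlt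
    exact h (hη.2.mono (by linarith))

end Pool.Agent.MP_ff6fba_gt

end

-- part MP_ff6fba_gt.Push
section

/-! Pushing along a finely knotted tube changes the cost by a small additive amount. -/

namespace Pool.Agent.MP_ff6fba_gt

open Set Metric Filter Topology

theorem avoid {X : Type*} [TopologicalSpace X] {Z : Set X} (hZ : IsPreconnected Z) {f : X → ℝ}
    (hf : Continuous f) {a b : ℝ} {x₀ : X} (hx₀ : x₀ ∈ Z) (ha : a < f x₀) (hb : f x₀ < b)
    (h : ∀ x ∈ Z, f x ≠ a ∧ f x ≠ b) : ∀ x ∈ Z, a < f x ∧ f x < b := by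
  intro x hx
  constructor
  · by_contra hc
    obtain ⟨y, hy, e⟩ := hZ.intermediate_value hx hx₀ hf.continuousOn ⟨not_lt.1 hc, ha.le⟩
    exact (h y hy).1 e
  · by_contra hc
    obtain ⟨y, hy, e⟩ := hZ.intermediate_value hx₀ hx hf.continuousOn ⟨hb.le, not_lt.1 hc⟩
    exact (h y hy).2 e

theorem tent_half (k : ℤ) : tent (k + 1 / 2) = 1 / 2 := by
  have : round ((k : ℝ) + 1 / 2) = k + 1 := by
    rw [round_eq, add_assoc, add_halves]
    exact_mod_cast Int.floor_intCast (R := ℝ) (k + 1)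
  rw [tent, this]; push_cast
  rw [show (k : ℝ) + 1 / 2 - (k + 1) = -(1 / 2) by ring, abs_neg]; norm_num

theorem zig_even (k : ℤ) : zig (2 * k) = 0 := by
  rw [zig, show (2 * k : ℝ) / 2 = k by ring, tent_int, mul_zero]

theorem zig_odd (k : ℤ) : zig (2 * k + 1) = 1 := by
  rw [zig, show (2 * k + 1 : ℝ) / 2 = k + 1 / 2 by ring, tent_half]; norm_num

theorem window {Z : Set Sph} (hZ : IsPreconnected Z) {f : Sph → ℝ} (hf : Continuous f)
    (hm : Mono (fun x => zig (f x)) Z) {x₀ : Sph} (hx₀ : x₀ ∈ Z) :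
    ∃ n : ℤ, ∀ x ∈ Z, (n : ℝ) - 1 < f x ∧ f x < n + 1 := by
  rcases hm with hm | hm
  · have h1 := hm x₀ hx₀
    simp only [zig, tent] at h1
    have h2 : |f x₀ / 2 - round (f x₀ / 2)| < 1 / 2 := by linarith
    rw [abs_lt] at h2
    refine ⟨2 * round (f x₀ / 2), avoid hZ hf hx₀ (by push_cast; linarith)
      (by push_cast; linarith) fun x hx => ⟨fun e => ?_, fun e => ?_⟩⟩
    · have := hm x hx
      have h3 := zig_odd (round (f x₀ / 2) - 1)
      simp only [e] at this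
      push_cast at this h3
      rw [show (2 * ((round (f x₀ / 2) : ℝ) - 1) + 1) = 2 * round (f x₀ / 2) - 1 by ring] at h3
      linarith
    · have := hm x hx
      have h3 := zig_odd (round (f x₀ / 2))
      simp only [e] at this
      push_cast at this
      linarith
  · have h1 := Int.floor_le (f x₀ / 2)
    have h2 := Int.lt_floor_add_one (f x₀ / 2)
    have hne : ∀ x ∈ Z, ∀ k : ℤ, f x ≠ 2 * k := fun x hx k e => by
      have := hm x hx
      simp only [e, zig_even] at this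
      exact lt_irrefl _ this
    refine ⟨2 * ⌊f x₀ / 2⌋ + 1, avoid hZ hf hx₀ ?_ (by push_cast; linarith)
      fun x hx => ⟨fun e => hne x hx ⌊f x₀ / 2⌋ (by rw [e]; push_cast; ring),
        fun e => hne x hx (⌊f x₀ / 2⌋ + 1) (by rw [e]; push_cast; ring)⟩⟩
    have := hne x₀ hx₀ ⌊f x₀ / 2⌋
    push_cast
    exact lt_of_le_of_ne (by linarith) fun e => this (by linarith)

theorem anchor {X : Type*} [TopologicalSpace X] {Z : Set X} (hZ : IsPreconnected Z) {ψ : X → F}
    (hψ : Continuous ψ) (U : ℕ → Set X) (hU : ∀ j, IsOpen (U j))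
    (disj : ∀ j j', ∀ x ∈ Z, x ∈ U j → x ∈ U j' → j = j') {δ : ℝ} (hδ : 0 ≤ δ)
    (small : ∀ j, ∀ x ∈ Z ∩ U j, ∀ x' ∈ Z ∩ U j, ‖ψ x - ψ x'‖ ≤ δ) {x : X} (hx : x ∈ Z) :
    (∀ x' ∈ Z, ‖ψ x - ψ x'‖ ≤ δ) ∨ ∃ a ∈ Z, (∀ j, a ∉ U j) ∧ ‖ψ x - ψ a‖ ≤ δ := by
  by_cases h1 : ∀ j, x ∉ U j
  · exact Or.inr ⟨x, hx, h1, by simpa using hδ⟩
  push Not at h1
  obtain ⟨j, hj⟩ := h1
  by_cases h2 : Z ⊆ U j
  · exact Or.inl fun x' hx' => small j x ⟨hx, hj⟩ x' ⟨hx', h2 hx'⟩
  obtain ⟨y, hy, hyU⟩ := not_subset.1 h2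
  have h3 : ∃ a ∈ Z, a ∈ closure (Z ∩ U j) ∧ a ∉ U j := by
    by_contra hc
    push Not at hc
    obtain ⟨w, hw, hw1, hw2⟩ := hZ (U j) (closure (Z ∩ U j))ᶜ (hU j) isClosed_closure.isOpen_compl
      (fun w hw => by
        by_cases h : w ∈ closure (Z ∩ U j)
        exacts [Or.inl (hc w hw h), Or.inr h])
      ⟨x, hx, hj⟩ ⟨y, hy, fun h => hyU (hc y hy h)⟩
    exact hw2 (subset_closure ⟨hw, hw1⟩)
  obtain ⟨a, ha, hac, haU⟩ := h3
  refine Or.inr ⟨a, ha, fun j' hj' => ?_, ?_⟩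
  · obtain ⟨w, hw1, hw2, hw3⟩ := mem_closure_iff.1 hac _ (hU j') hj'
    exact haU (disj j' j w hw2 hw1 hw3 ▸ hj')
  · exact closure_minimal (t := {y | ‖ψ x - ψ y‖ ≤ δ}) (fun w hw => small j x ⟨hx, hj⟩ w hw)
      (isClosed_le (by fun_prop) continuous_const) hac

theorem thin_of_anchor {Z : Set Sph} (hZ : IsPreconnected Z) {φ ψ : Sph → F}
    (hψ : Continuous ψ) (U : ℕ → Set Sph) (hU : ∀ j, IsOpen (U j))
    (disj : ∀ j j', ∀ x ∈ Z, x ∈ U j → x ∈ U j' → j = j') {δ η : ℝ} (hδ : 0 ≤ δ) (hη : 0 ≤ η)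
    (small : ∀ j, ∀ x ∈ Z ∩ U j, ∀ x' ∈ Z ∩ U j, ‖ψ x - ψ x'‖ ≤ δ) (A : Sph → Prop)
    (hA : ∀ a ∈ Z, (∀ j, a ∉ U j) → A a ∧ ψ a = φ a)
    (merge : ∀ a ∈ Z, ∀ a' ∈ Z, A a → A a' → Near η (φ a) → ‖φ a - φ a'‖ ≤ η) :
    ∀ x ∈ Z, Near (η + 2 * δ) (ψ x) → ∀ x' ∈ Z, ‖ψ x - ψ x'‖ ≤ η + 2 * δ := by
  intro x hx hn x' hx'
  rcases anchor hZ hψ U hU disj hδ small hx with h | ⟨a, ha, haU, h⟩
  · linarith [h x' hx']
  rcases anchor hZ hψ U hU disj hδ small hx' with h' | ⟨a', ha', haU', h'⟩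
  · have := h' x hx
    rw [norm_sub_rev] at this
    linarith
  obtain ⟨h1, e1⟩ := hA a ha haU
  obtain ⟨h2, e2⟩ := hA a' ha' haU'
  have h3 := merge a ha a' ha' h1 h2 (by
    rw [← e1]
    exact (hn.mono (η := η + δ) (by linarith)).close (by rwa [norm_sub_rev]))
  rw [← e1, ← e2] at h3
  rw [show ψ x - ψ x' = (ψ x - ψ a) + (ψ a - ψ a') + -(ψ x' - ψ a') by abel]
  refine norm_add₃_le.trans ?_
  rw [norm_neg]
  linarith

theorem core_thin {M : Type*} [TopologicalSpace M] {m : ℕ} (τ : PreTube M m) (h : C(M, F))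
    {δ η : ℝ} (hδ : 0 ≤ δ) (hη : 0 ≤ η)
    (small : ∀ j ≤ m, ∀ u ∈ τ.S j, ∀ u' ∈ τ.S j, ‖h u - h u'‖ ≤ δ) {σ pos : Sph → M}
    (hσ : Continuous σ) (hpos : Continuous pos) {fs : ℕ → Sph → ℝ}
    (hfs : ∀ k < m, Continuous (fs k)) (hoff : ∀ x, σ x ∉ τ.T → pos x = σ x)
    (hT : ∀ x, σ x ∈ τ.T → pos x ∈ τ.T ∧ ∀ k < m, ∃ n : ℤ, fs k x - τ.hh k (pos x) = n)
    (hQ : ∀ x, ∀ k < m, pos x ∉ τ.Q k → ∃ n : ℤ, fs k x = n) {g : Sph → ℝ} (hg : Continuous g)
    (hg0 : ∀ x, 0 ≤ g x)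
    (merge : ∀ (n : ℤ) (Z : Set Sph), IsPreconnected Z → (∀ x ∈ Z, (n : ℝ) - 1 < g x) →
      ∀ a ∈ Z, ∀ a' ∈ Z, g a < n + 1 → g a' < n + 1 → Near η (h (σ a)) →
        ‖h (σ a) - h (σ a')‖ ≤ η)
    {l : ℝ} (hl : 0 ≤ l) (hcase : (∀ x, pos x = σ x) ∨ ∀ x, g x + 2 ≤ l / 2) (Z : Set Sph)
    (hZ : IsPreconnected Z)
    (hm : Mono (fun x => zig (g x - l * ∑ k ∈ Finset.range m, tent (fs k x))) Z) :
    ∀ x ∈ Z, Near (η + 2 * δ) (h (pos x)) → ∀ x' ∈ Z, ‖h (pos x) - h (pos x')‖ ≤ η + 2 * δ := by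
  rcases Z.eq_empty_or_nonempty with rfl | ⟨x₀, hx₀⟩
  · simp
  have hsum : ∀ x, 0 ≤ ∑ k ∈ Finset.range m, tent (fs k x) := fun x =>
    Finset.sum_nonneg fun k _ => tent_nonneg _
  obtain ⟨n, hn⟩ := window hZ (f := fun x => g x - l * ∑ k ∈ Finset.range m, tent (fs k x))
    (hg.sub (continuous_const.mul (continuous_finsetSum _ fun k hk =>
      continuous_tent.comp (hfs k (Finset.mem_range.1 hk))))) hm hx₀
  have hgn : ∀ x ∈ Z, (n : ℝ) - 1 < g x := fun x hx => by
    linarith [(hn x hx).1, mul_nonneg hl (hsum x)]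
  have hint : ∀ a ∈ Z, (∀ k < m, ∃ j : ℤ, fs k a = j) → g a < n + 1 := fun a ha hz => by
    have h1 := (hn a ha).2
    rw [Finset.sum_eq_zero fun k hk => by
      obtain ⟨j, hj⟩ := hz k (Finset.mem_range.1 hk)
      rw [hj, tent_int]] at h1
    linarith
  have hψ : Continuous fun x => h (pos x) := h.continuous.comp hpos
  have hmer := fun a ha a' ha' => merge n Z hZ hgn a ha a' ha'
  by_cases hc : (∀ x, pos x = σ x) ∨ (n : ℝ) + 1 ≤ 0
  · refine thin_of_anchor hZ hψ (fun j => {x | j < m ∧ pos x ∈ τ.Q j}) (fun j => ?_)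
      (fun j j' x _ h1 h2 => ?_) hδ hη (fun j x hx x' hx' => ?_) (fun a => g a < n + 1)
      (fun a ha haU => ?_) hmer
    · by_cases hj : j < m
      · simp only [hj, true_and]; exact (τ.Q_open j).preimage hpos
      · simp [hj]
    · by_contra hne
      exact disjoint_left.1 (τ.Q_disj j j' h1.1 h2.1 hne) h1.2 h2.2
    · exact small j hx.2.1.le _ (Or.inr (Or.inl hx.2)) _ (Or.inr (Or.inl hx'.2))
    · have h1 := hint a ha fun k hk => hQ a k hk fun hq => haU k ⟨hk, hq⟩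
      rcases hc with hc | hc
      · exact ⟨h1, by rw [hc]⟩
      · linarith [hg0 a]
  have hl2 : ∀ x, g x + 2 ≤ l / 2 := hcase.resolve_left fun h => hc (Or.inl h)
  have nomid : ∀ k < m, ∀ x ∈ Z, ∀ j : ℤ, fs k x ≠ j + 1 / 2 := fun k hk x hx j e => by
    have h1 : tent (fs k x) ≤ ∑ k ∈ Finset.range m, tent (fs k x) :=
      Finset.single_le_sum (f := fun k => tent (fs k x)) (fun k _ => tent_nonneg _)
        (Finset.mem_range.2 hk)
    rw [e, tent_half] at h1
    have h2 : (n : ℝ) < -1 := by nlinarith [(hn x hx).1, hl2 x]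
    exact hc (Or.inr (by linarith))
  have hN : ∀ k, ∃ N : ℤ, k < m → ∀ x ∈ Z, (N : ℝ) - 1 / 2 < fs k x ∧ fs k x < N + 1 / 2 := by
    intro k
    refine ⟨⌊fs k x₀ + 1 / 2⌋, fun hk => avoid hZ (hfs k hk) hx₀ ?_ ?_ fun x hx =>
      ⟨fun e => nomid k hk x hx (⌊fs k x₀ + 1 / 2⌋ - 1) (by rw [e]; push_cast; ring),
        nomid k hk x hx _⟩⟩
    · refine lt_of_le_of_ne (by linarith [Int.floor_le (fs k x₀ + 1 / 2)]) fun e =>
        nomid k hk x₀ hx₀ (⌊fs k x₀ + 1 / 2⌋ - 1) (by push_cast; linarith)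
    · linarith [Int.lt_floor_add_one (fs k x₀ + 1 / 2)]
  choose N hN using hN
  let TP : ℕ → Sph → Prop := fun j x => j ≤ m ∧ σ x ∈ τ.T ∧
    (∀ k < j, 1 / 2 < τ.hh k (pos x)) ∧ ∀ k, j ≤ k → k < m → τ.hh k (pos x) < 1 / 2
  let LP : ℕ → Sph → Prop := fun k x => k < m ∧ (N k : ℝ) < fs k x ∧ fs k x < N k + 1 / 2
  let RP : ℕ → Sph → Prop := fun k x => k < m ∧ (N k : ℝ) - 1 / 2 < fs k x ∧ fs k x < N k
  have hni : ∀ k x, LP k x ∨ RP k x → pos x ∈ τ.Q k := by
    intro k x hx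
    by_contra hq
    rcases hx with hx | hx
    · obtain ⟨j, hj⟩ := hQ x k hx.1 hq
      have h1 : N k < j := by exact_mod_cast hj ▸ hx.2.1
      have h2 : (N k : ℝ) + 1 ≤ j := by exact_mod_cast h1
      linarith [hx.2.2]
    · obtain ⟨j, hj⟩ := hQ x k hx.1 hq
      have h1 : j < N k := by exact_mod_cast hj ▸ hx.2.2
      have h2 : (j : ℝ) + 1 ≤ N k := by exact_mod_cast h1
      linarith [hx.2.1]
  have hLT : ∀ k x, σ x ∈ τ.T → LP k x → TP k x := by
    intro k x hx hL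
    obtain ⟨hp, hz⟩ := hT x hx
    obtain ⟨j, hj⟩ := hz k hL.1
    have h1 := τ.hh_lo k hL.1 _ hp
    have h2 := τ.hh_hi k hL.1 _ hp
    have h3 : j < N k + 1 := by
      have : (j : ℝ) < N k + 1 := by linarith [hL.2.2]
      exact_mod_cast this
    have h4 : N k - 1 < j := by
      have : (N k : ℝ) - 1 < j := by linarith [hL.2.1]
      exact_mod_cast this
    have h5 : (j : ℝ) = N k := by exact_mod_cast (by omega : j = N k)
    refine ⟨hL.1.le, hx, fun k' hk' => ?_, fun k' hk' hk'm => ?_⟩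
    · rcases τ.hh_mono _ hp k' k hk' hL.1 with e | e
      · rw [e]; norm_num
      · linarith [hL.2.1]
    · rcases hk'.eq_or_lt with rfl | hlt
      · linarith [hL.2.2]
      · rcases τ.hh_mono _ hp k k' hlt hk'm with e | e
        · linarith [hL.2.2]
        · rw [e]; norm_num
  have hRT : ∀ k x, σ x ∈ τ.T → RP k x → TP (k + 1) x := by
    intro k x hx hR
    obtain ⟨hp, hz⟩ := hT x hx
    obtain ⟨j, hj⟩ := hz k hR.1
    have h1 := τ.hh_lo k hR.1 _ hp
    have h2 := τ.hh_hi k hR.1 _ hp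
    have h3 : j < N k := by
      have : (j : ℝ) < N k := by linarith [hR.2.2]
      exact_mod_cast this
    have h4 : N k - 2 < j := by
      have : (N k : ℝ) - 2 < j := by linarith [hR.2.1]
      exact_mod_cast this
    have h5 : (j : ℝ) = N k - 1 := by exact_mod_cast (by omega : j = N k - 1)
    refine ⟨hR.1, hx, fun k' hk' => ?_, fun k' hk' hk'm => ?_⟩
    · rcases (Nat.lt_succ_iff.1 hk').eq_or_lt with rfl | hlt
      · linarith [hR.2.1]
      · rcases τ.hh_mono _ hp k' k hlt hR.1 with e | e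
        · rw [e]; norm_num
        · linarith [hR.2.1]
    · rcases τ.hh_mono _ hp k k' hk' hk'm with e | e
      · linarith [hR.2.2]
      · rw [e]; norm_num
  have hTT : ∀ j j' x, TP j x → TP j' x → j = j' := by
    intro j j' x h1 h2
    by_contra hne
    rcases lt_or_gt_of_ne hne with hlt | hlt
    · linarith [h1.2.2.2 j le_rfl (hlt.trans_le h2.1), h2.2.2.1 j hlt]
    · linarith [h2.2.2.2 j' le_rfl (hlt.trans_le h1.1), h1.2.2.1 j' hlt]
  have hW : IsOpen {x | σ x ∈ τ.T} := τ.T_open.preimage hσ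
  have hcW : ∀ k < m, ContinuousOn (fun x => τ.hh k (pos x)) {x | σ x ∈ τ.T} := fun k hk =>
    (τ.hh_cont k hk).comp hpos.continuousOn fun x hx => (hT x hx).1
  refine thin_of_anchor hZ hψ (fun j => {x | TP j x ∨ LP j x ∨ ∃ k, k + 1 = j ∧ RP k x})
    (fun j => ?_) (fun j j' x _ h1 h2 => ?_) hδ hη (fun j x hx x' hx' => ?_)
    (fun a => g a < n + 1) (fun a ha haU => ?_) hmer
  · refine IsOpen.union (s₁ := {x | TP j x}) ?_ (IsOpen.union (s₁ := {x | LP j x}) ?_ ?_)
    · rw [isOpen_iff_mem_nhds]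
      intro x hx
      have e1 : ∀ᶠ y in 𝓝 x, ∀ k ∈ Finset.range j, 1 / 2 < τ.hh k (pos y) := by
        rw [eventually_all_finset]
        intro k hk
        rw [Finset.mem_range] at hk
        exact ((hcW k (hk.trans_le hx.1)).continuousAt (hW.mem_nhds hx.2.1)).eventually
          (lt_mem_nhds (hx.2.2.1 k hk))
      have e2 : ∀ᶠ y in 𝓝 x, ∀ k ∈ Finset.Ico j m, τ.hh k (pos y) < 1 / 2 := by
        rw [eventually_all_finset]
        intro k hk
        rw [Finset.mem_Ico] at hk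
        exact ((hcW k hk.2).continuousAt (hW.mem_nhds hx.2.1)).eventually
          (gt_mem_nhds (hx.2.2.2 k hk.1 hk.2))
      filter_upwards [e1, e2, hW.mem_nhds hx.2.1] with y y1 y2 y3
      exact ⟨hx.1, y3, fun k hk => y1 k (Finset.mem_range.2 hk),
        fun k h1 h2 => y2 k (Finset.mem_Ico.2 ⟨h1, h2⟩)⟩
    · by_cases hj : j < m
      · simp only [LP, hj, true_and]; exact isOpen_Ioo.preimage (hfs j hj)
      · simp [LP, hj]
    · show IsOpen {x | ∃ k, k + 1 = j ∧ RP k x}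
      rw [ofPred_exists]
      refine isOpen_iUnion fun k => ?_
      by_cases hj : k < m ∧ k + 1 = j
      · simp only [RP, hj, true_and]; exact isOpen_Ioo.preimage (hfs k hj.1)
      · convert isOpen_empty
        ext x
        exact ⟨fun hx => hj ⟨hx.2.1, hx.1⟩, False.elim⟩
  · by_cases hx : σ x ∈ τ.T
    · have key : ∀ j, TP j x ∨ LP j x ∨ (∃ k, k + 1 = j ∧ RP k x) → TP j x := by
        rintro j (h | h | ⟨k, rfl, h⟩)
        exacts [h, hLT j x hx h, hRT k x hx h]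
      exact hTT j j' x (key j h1) (key j' h2)
    · have hQQ : ∀ k k', LP k x ∨ RP k x → LP k' x ∨ RP k' x → k = k' := fun k k' a b => by
        by_contra hne
        exact disjoint_left.1 (τ.Q_disj k k' (a.elim And.left And.left)
          (b.elim And.left And.left) hne) (hni k x a) (hni k' x b)
      rcases h1 with h1 | h1 | ⟨k, rfl, h1⟩
      · exact absurd h1.2.1 hx
      · rcases h2 with h2 | h2 | ⟨k', rfl, h2⟩
        · exact absurd h2.2.1 hx
        · exact hQQ _ _ (Or.inl h1) (Or.inl h2)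
        · obtain rfl := hQQ _ _ (Or.inl h1) (Or.inr h2)
          linarith [h1.2.1, h2.2.2]
      · rcases h2 with h2 | h2 | ⟨k', rfl, h2⟩
        · exact absurd h2.2.1 hx
        · obtain rfl := hQQ _ _ (Or.inr h1) (Or.inl h2)
          linarith [h2.2.1, h1.2.2]
        · rw [hQQ _ _ (Or.inr h1) (Or.inr h2)]
  · have key : ∀ x, TP j x ∨ LP j x ∨ (∃ k, k + 1 = j ∧ RP k x) → j ≤ m ∧ pos x ∈ τ.S j := by
      rintro x (h | h | ⟨k, rfl, h⟩)
      · exact ⟨h.1, Or.inl ⟨(hT x h.2.1).1, h.2.2⟩⟩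
      · exact ⟨h.1.le, Or.inr (Or.inl ⟨h.1, hni j x (Or.inl h)⟩)⟩
      · exact ⟨h.1, Or.inr (Or.inr ⟨k, rfl, hni k x (Or.inr h)⟩)⟩
    exact small j (key x hx.2).1 _ (key x hx.2).2 _ (key x' hx'.2).2
  · refine ⟨hint a ha fun k hk => ⟨N k, ?_⟩, ?_⟩
    · by_contra hne
      rcases lt_or_gt_of_ne hne with hlt | hlt
      · exact haU (k + 1) (Or.inr (Or.inr ⟨k, rfl, hk, (hN k hk a ha).1, hlt⟩))
      · exact haU k (Or.inr (Or.inl ⟨hk, hlt, (hN k hk a ha).2⟩))
    · rw [hoff a fun haT => ?_]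
      obtain ⟨hp, hz⟩ := hT a haT
      have hex : ∃ j, j = m ∨ τ.hh j (pos a) < 1 / 2 := ⟨m, Or.inl rfl⟩
      classical
      have hjm : Nat.find hex ≤ m := Nat.find_min' hex (Or.inl rfl)
      refine haU (Nat.find hex) (Or.inl ⟨hjm, haT, fun k hk => ?_, fun k hk hkm => ?_⟩)
      · have h1 := Nat.find_min hex hk
        push Not at h1
        refine lt_of_le_of_ne h1.2 fun e => ?_
        obtain ⟨j, hj⟩ := hz k (hk.trans_le hjm)
        exact nomid k (hk.trans_le hjm) a ha j (by linarith)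
      · have h1 := (Nat.find_spec hex).resolve_left (by omega)
        rcases hk.eq_or_lt with e | hlt
        · rwa [← e]
        · rcases τ.hh_mono _ hp _ k hlt hkm with e | e
          · linarith
          · rw [e]; norm_num

theorem push_null {M : Type*} [TopologicalSpace M] {m : ℕ} (τ : PreTube M m) (hl : τ.Locked)
    (p : C(M, M)) (hp : IsPush τ.T p) (h : C(M, F)) (hok : ∀ u, Ok 0 (h u)) {δ : ℝ} (hδ : 0 ≤ δ)
    (small : ∀ j ≤ m, ∀ u ∈ τ.S j, ∀ u' ∈ τ.S j, ‖h u - h u'‖ ≤ δ) (Φ : C(Bl, M))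
    (inj : Function.Injective (Φ ∘ inc)) (hint : interior (range (Φ ∘ inc)) = ∅) {η : ℝ}
    (hη : 0 ≤ η) (hN : Null (h.comp Φ) η) : Null (h.comp (p.comp Φ)) (η + 2 * δ) := by
  classical
  obtain ⟨S, P, hS, hST, hP0, hP1, hPS, hPT⟩ := hp
  obtain ⟨ζ, z, hz, hj⟩ := hN
  have hgood : Good η (h.comp Φ, ζ) := hj.source_mem
  obtain ⟨g, hg, hg0, hgz, hgm⟩ := exists_height ζ ζ.continuous hgood.lo hgood.hi
  set σ : Sph → M := Φ ∘ inc with hσd
  have hσ : Continuous σ := Φ.continuous.comp inc.continuous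
  have hf : ∀ k, ∃ f : Sph → ℝ, k < m → Continuous f ∧ (∀ x, σ x ∉ τ.Q k → ∃ n : ℤ, f x = n) ∧
      ∀ x, σ x ∈ τ.T → ∃ n : ℤ, f x - τ.hh k (σ x) = n := fun k => by
    by_cases hk : k < m
    · obtain ⟨f, hf⟩ := hl k hk σ hσ inj hint
      exact ⟨f, fun _ => hf⟩
    · exact ⟨0, fun h => absurd h hk⟩
  choose f hf using hf
  let fs : ℕ → unitInterval × Sph → ℝ := fun k w =>
    f k w.2 + if σ w.2 ∈ τ.T then τ.hh k (P (w.1, σ w.2)) - τ.hh k (σ w.2) else 0
  have hfs : ∀ k < m, Continuous (fs k) := by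
    intro k hk
    refine ((hf k hk).1.comp continuous_snd).add (continuous_iff_continuousAt.2 fun w => ?_)
    have hσ2 : Continuous fun w : unitInterval × Sph => σ w.2 := hσ.comp continuous_snd
    by_cases hw : σ w.2 ∈ τ.T
    · have c1 : ContinuousAt (fun w : unitInterval × Sph => τ.hh k (P (w.1, σ w.2))) w :=
        ((τ.hh_cont k hk).continuousAt (τ.T_open.mem_nhds (hPT _ _ hw))).comp
          (f := fun w : unitInterval × Sph => P (w.1, σ w.2)) (by fun_prop)
      have c2 : ContinuousAt (fun w : unitInterval × Sph => τ.hh k (σ w.2)) w :=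
        ((τ.hh_cont k hk).continuousAt (τ.T_open.mem_nhds hw)).comp
          (f := fun w : unitInterval × Sph => σ w.2) hσ2.continuousAt
      refine (c1.sub c2).congr ?_
      filter_upwards [(τ.T_open.preimage hσ2).mem_nhds hw] with v hv
      exact (if_pos hv).symm
    · refine (continuousAt_const (y := (0 : ℝ))).congr ?_
      filter_upwards [(hS.isOpen_compl.preimage hσ2).mem_nhds fun h => hw (hST h)] with v hv
      rw [hPS _ _ hv, sub_self, ite_self]
  obtain ⟨B, hB⟩ := isCompact_univ.exists_bound_of_continuousOn hg.continuousOn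
  have hB' : ∀ x, g x ≤ B := fun x => (le_abs_self _).trans (hB x (mem_univ x))
  have hB0 : 0 ≤ B := (hg0 (Classical.arbitrary Sph)).trans (hB' _)
  have hsum : Continuous fun w => ∑ k ∈ Finset.range m, tent (fs k w) :=
    continuous_finsetSum _ fun k hk => continuous_tent.comp (hfs k (Finset.mem_range.1 hk))
  have key : ∀ (s : unitInterval) (l : ℝ), 0 ≤ l → (s = 0 ∨ l = 2 * (B + 2)) →
      ∀ (A : C(Bl, F)) (ζ' : C(Sph, ℝ)), (∀ x, A x = h (P (s, Φ x))) →
      (∀ x, ζ' x = zig (g x - l * ∑ k ∈ Finset.range m, tent (fs k (s, x)))) →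
      Good (η + 2 * δ) (A, ζ') := by
    intro s l hl0 hc A ζ' hA hζ
    refine ⟨fun x => ?_, fun x => ?_, fun x => ?_, fun Z hZ hm => ?_⟩
    · show Ok _ (A x)
      rw [hA]; exact (hok _).mono (by linarith)
    · show 0 ≤ ζ' x
      rw [hζ, zig]; linarith [tent_nonneg ((g x - l * ∑ k ∈ Finset.range m, tent (fs k (s, x))) / 2)]
    · show ζ' x ≤ 1
      rw [hζ, zig]; linarith [tent_le ((g x - l * ∑ k ∈ Finset.range m, tent (fs k (s, x))) / 2)]
    · simp only [hA]
      refine core_thin τ h hδ hη small (pos := fun x => P (s, σ x)) (fs := fun k x => fs k (s, x))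
        hσ (by fun_prop) (fun k hk => (hfs k hk).comp (by fun_prop))
        (fun x hx => hPS _ _ fun h => hx (hST h)) (fun x hx => ⟨hPT _ _ hx, fun k hk => ?_⟩)
        (fun x k hk hq => ?_) hg hg0 (fun n Z hZ h1 a ha a' ha' h2 h3 hn => ?_) hl0 ?_ Z hZ ?_
      · obtain ⟨n, hn⟩ := (hf k hk).2.2 x hx
        exact ⟨n, by simp only [fs, if_pos hx]; linarith⟩
      · by_cases hx : σ x ∈ τ.T
        · obtain ⟨n, hn⟩ := (hf k hk).2.2 x hx
          have h1 := τ.hh_lo k hk _ (hPT s _ hx)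
          have h2 := τ.hh_hi k hk _ (hPT s _ hx)
          by_cases h3 : τ.hh k (P (s, σ x)) = 0
          · exact ⟨n, by simp only [fs, if_pos hx]; linarith⟩
          · by_cases h4 : τ.hh k (P (s, σ x)) = 1
            · exact ⟨n + 1, by simp only [fs, if_pos hx]; push_cast; linarith⟩
            · exact absurd (τ.hh_Q k hk _ (hPT s _ hx) (lt_of_le_of_ne h1 (Ne.symm h3))
                (lt_of_le_of_ne h2 h4)) hq
        · rw [hPS _ _ fun h => hx (hST h)] at hq
          obtain ⟨n, hn⟩ := (hf k hk).2.1 x hq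
          exact ⟨n, by simp only [fs, if_neg hx]; linarith⟩
      · obtain ⟨Z', h4, h5, h6, h7⟩ := hgm n Z hZ h1 a ha a' ha' h2 h3
        exact hgood.thin Z' h4 h7 a h5 hn a' h6
      · rcases hc with rfl | rfl
        · exact Or.inl fun x => hP0 _
        · exact Or.inr fun x => by linarith [hB' x]
      · have : (ζ' : Sph → ℝ) = fun x =>
          zig (g x - l * ∑ k ∈ Finset.range m, tent (fs k (s, x))) := funext hζ
        rw [← this]; exact hm
  have j1 := joined_family (η := η + 2 * δ) ⟨fun w => h (Φ w.2), by fun_prop⟩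
    ⟨fun w => zig (g w.2 - w.1 * (2 * (B + 2)) * ∑ k ∈ Finset.range m, tent (fs k (0, w.2))),
      continuous_zig.comp ((hg.comp continuous_snd).sub (Continuous.mul (by fun_prop)
        (hsum.comp (f := fun w : unitInterval × Sph => ((0 : unitInterval), w.2))
          (by fun_prop))))⟩
    fun s => key 0 (s * (2 * (B + 2))) (mul_nonneg s.2.1 (by linarith)) (Or.inl rfl) _ _
      (fun x => by simp [hP0]) fun x => rfl
  have j2 := joined_family (η := η + 2 * δ) ⟨fun w => h (P (w.1, Φ w.2)), by fun_prop⟩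
    ⟨fun w => zig (g w.2 - 2 * (B + 2) * ∑ k ∈ Finset.range m, tent (fs k w)),
      continuous_zig.comp ((hg.comp continuous_snd).sub (continuous_const.mul hsum))⟩
    fun s => key s (2 * (B + 2)) (by linarith) (Or.inr rfl) _ _ (fun x => rfl) fun x => rfl
  refine ⟨ContinuousMap.curry ⟨fun w : unitInterval × Sph =>
    zig (g w.2 - 2 * (B + 2) * ∑ k ∈ Finset.range m, tent (fs k w)),
      continuous_zig.comp ((hg.comp continuous_snd).sub (continuous_const.mul hsum))⟩ 1, z,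
    fun x hx => hz x (hx.mono (by linarith)), JoinedIn.trans ?_
      (hj.mono fun w hw => Good.mono hw (by linarith))⟩
  refine JoinedIn.trans (y := _) (by convert j2.symm using 2; ext x <;> simp [hP1]) ?_
  convert j1.symm using 2 <;> ext x <;> simp [hP0, hgz]

end Pool.Agent.MP_ff6fba_gt

end

-- part MP_ff6fba_gt.Ess
section

/-! The standard filled sphere is not null. -/

namespace Pool.Agent.MP_ff6fba_gt

open Set Metric Filter Topology

theorem ess_brouwer (u : unitInterval × Bl → E) (b : unitInterval × Bl → ℝ) (hu : Continuous u)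
    (hb : Continuous b) (ha : ∀ p, u p = 0 → b p ≠ 0)
    (hl : ∀ p : unitInterval × Bl, ‖(p.2 : E)‖ = 1 → u p = 0 → b p < 0)
    (ht : ∀ x, u (1, x) = 0 → b (1, x) < 0) (h0 : ∀ x, 0 ≤ b (0, x))
    (h1 : ∀ x : Bl, ‖(x : E)‖ = 1 → ∃ i, 0 < u (0, x) i * (x : E) i) : False := by
  obtain ⟨B, hB⟩ : ∃ B, ∀ p, b p ≤ B := by
    obtain ⟨B, hB⟩ := (isCompact_range hb).bddAbove
    exact ⟨B, fun p => hB ⟨p, rfl⟩⟩
  have hB0 : 0 ≤ B := (h0 ⟨0, by simp⟩).trans (hB _)
  have hm : ∀ x : E, 0 < max 1 (2 * ‖x‖) := fun x => lt_max_of_lt_left one_pos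
  have hn : ∀ x : E, ‖((max 1 (2 * ‖x‖))⁻¹ * 2) • x‖ = 2 * ‖x‖ / max 1 (2 * ‖x‖) := fun x => by
    have := hm x
    rw [norm_smul, Real.norm_eq_abs, abs_of_pos (by positivity)]
    field_simp
  let r : E → Bl := fun x => ⟨((max 1 (2 * ‖x‖))⁻¹ * 2) • x, by
    rw [mem_closedBall_zero_iff, hn, div_le_one (hm x)]
    exact le_max_right _ _⟩
  have hr : Continuous r := by
    have h : Continuous fun x : E => (max 1 (2 * ‖x‖))⁻¹ :=
      Continuous.inv₀ (by fun_prop) fun x => (hm x).ne'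
    exact Continuous.subtype_mk (by fun_prop) _
  have hr1 : ∀ x : E, 1 / 2 ≤ ‖x‖ → ‖(r x : E)‖ = 1 := fun x hx => by
    change ‖((max 1 (2 * ‖x‖))⁻¹ * 2) • x‖ = 1
    rw [hn, max_eq_right (by linarith), div_self (by linarith)]
  let q : F → unitInterval × Bl := fun p => (projIcc 0 1 zero_le_one (1 - p.2), r p.1)
  have hq : Continuous q :=
    (continuous_projIcc.comp (by fun_prop)).prodMk (hr.comp continuous_fst)
  obtain ⟨μ, hμ⟩ : ∃ μ : F → ℝ, μ = fun p => max (max (‖p.1‖ - 1 / 2) (-p.2)) 0 := ⟨_, rfl⟩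
  obtain ⟨ν, hν⟩ : ∃ ν : F → ℝ, ν = fun p => max 0 (min 1 (4 * μ p - 1)) := ⟨_, rfl⟩
  have cμ : Continuous μ := by rw [hμ]; fun_prop
  have cν : Continuous ν := by rw [hν]; fun_prop
  have μ0 : ∀ p, 0 ≤ μ p := fun p => by rw [hμ]; exact le_max_right _ _
  have μ1 : ∀ p, ‖p.1‖ - 1 / 2 ≤ μ p := fun p => by
    rw [hμ]; exact le_max_of_le_left (le_max_left _ _)
  have μ2 : ∀ p, -p.2 ≤ μ p := fun p => by
    rw [hμ]; exact le_max_of_le_left (le_max_right _ _)
  have μ3 : ∀ p, 0 < μ p → 1 / 2 < ‖p.1‖ ∨ p.2 < 0 := fun p h => by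
    rw [hμ] at h
    simp only [lt_max_iff, lt_irrefl, or_false] at h
    rcases h with h | h
    · left; linarith
    · right; linarith
  have ν0 : ∀ p, 0 ≤ ν p := fun p => by rw [hν]; exact le_max_left _ _
  have ν1 : ∀ p, ν p ≤ 1 := fun p => by rw [hν]; exact max_le zero_le_one (min_le_left _ _)
  have ν2 : ∀ p, μ p ≤ 1 / 4 → ν p = 0 := fun p h => by
    rw [hν]; exact max_eq_left (min_le_of_right_le (by linarith))
  have ν3 : ∀ p, 1 / 2 ≤ μ p → ν p = 1 := fun p h => by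
    rw [hν]
    simp only
    rw [min_eq_left (by linarith), max_eq_right zero_le_one]
  obtain ⟨M, hM⟩ : ∃ M : F → F, M = fun p =>
    ((1 - ν p) • u (q p) + ν p • p.1, b (q p) - 4 * (B + 1) * μ p) := ⟨_, rfl⟩
  have cM : Continuous M := by rw [hM]; fun_prop
  have M1 : ∀ p, (M p).1 = (1 - ν p) • u (q p) + ν p • p.1 := fun p => by rw [hM]
  have M2 : ∀ p, (M p).2 = b (q p) - 4 * (B + 1) * μ p := fun p => by rw [hM]
  have M0 : ∀ p, M p ≠ 0 := by
    intro p hp
    have e1 := M1 p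
    have e2 := M2 p
    rw [hp] at e1 e2
    simp only [Prod.fst_zero, Prod.snd_zero] at e1 e2
    rcases le_or_gt (μ p) (1 / 4) with h | h
    · rw [ν2 p h] at e1
      simp only [sub_zero, one_smul, zero_smul, add_zero] at e1
      rcases (μ0 p).eq_or_lt with h' | h'
      · exact ha _ e1.symm (by rw [← h'] at e2; linarith)
      · have hneg : b (q p) < 0 := by
          rcases μ3 p h' with h2 | h2
          · exact hl _ (hr1 _ h2.le) e1.symm
          · have e : q p = (1, r p.1) := by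
              simp only [q]
              rw [projIcc_of_right_le _ (by linarith)]
              rfl
            rw [e] at e1 ⊢
            exact ht _ e1.symm
        nlinarith
    · nlinarith [hB (q p)]
  have hN : ∀ p, ‖-(‖M p‖⁻¹ • M p)‖ = 1 := fun p => by
    rw [norm_neg, norm_smul, norm_inv, norm_norm, inv_mul_cancel₀ (norm_ne_zero_iff.2 (M0 p))]
  obtain ⟨p, hp⟩ := MP_d9ba76_lc.exists_fixed_of_bdd (fun p : F => -(‖M p‖⁻¹ • M p))
    ((cM.norm.inv₀ fun p => norm_ne_zero_iff.2 (M0 p)).smul cM).neg fun p => (hN p).le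
  have hp1 : ‖p‖ = 1 := by rw [← hp]; exact hN p
  obtain ⟨c, hc, hMp⟩ : ∃ c : ℝ, 0 < c ∧ M p = -(c • p) := by
    refine ⟨‖M p‖, norm_pos_iff.2 (M0 p), ?_⟩
    have e := congrArg (fun v => -(‖M p‖ • v)) hp
    simp only [smul_neg, neg_neg, smul_smul, mul_inv_cancel₀ (norm_ne_zero_iff.2 (M0 p)),
      one_smul] at e
    exact e
  have e1 := M1 p
  have e2 := M2 p
  rw [hMp] at e1 e2
  simp only [Prod.fst_neg, Prod.snd_neg, Prod.smul_fst, Prod.smul_snd, smul_eq_mul] at e1 e2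
  rw [Prod.norm_def] at hp1
  rcases max_choice ‖p.1‖ ‖p.2‖ with h | h
  · rw [hp1] at h
    rw [ν3 p (by linarith [μ1 p])] at e1
    simp only [sub_self, zero_smul, one_smul, zero_add] at e1
    have e3 : (1 + c) • p.1 = 0 := by rw [add_smul, one_smul]; nth_rewrite 1 [← e1]; simp
    rcases smul_eq_zero.1 e3 with h' | h'
    · linarith
    · rw [h', norm_zero] at h
      exact one_ne_zero h
  · rw [hp1, Real.norm_eq_abs] at h
    rcases eq_or_eq_neg_of_abs_eq h.symm with h' | h'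
    · have e : q p = (0, r p.1) := by
        simp only [q]
        rw [projIcc_of_le_left _ (by linarith)]
        rfl
      rw [e] at e1 e2
      have hμ0 : 0 < μ p := by
        by_contra hn
        have := le_antisymm (not_lt.1 hn) (μ0 p)
        rw [this, h'] at e2
        linarith [h0 (r p.1)]
      have hx : 1 / 2 < ‖p.1‖ := (μ3 p hμ0).resolve_right (by linarith)
      obtain ⟨i, hi⟩ := h1 _ (hr1 _ hx.le)
      have e3 : (r p.1 : E) i = ((max 1 (2 * ‖p.1‖))⁻¹ * 2) * p.1 i := rfl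
      have hk : 0 < (max 1 (2 * ‖p.1‖))⁻¹ * 2 := by have := hm p.1; positivity
      rw [e3, mul_left_comm] at hi
      have hi' := (mul_pos_iff_of_pos_left hk).1 hi
      have e4 := congrArg (fun v : E => v i) e1
      simp only [PiLp.neg_apply, PiLp.add_apply, PiLp.smul_apply, smul_eq_mul] at e4
      have hx0 : p.1 i ≠ 0 := fun h0 => by simp [h0] at hi'
      have hx1 : 0 < p.1 i * p.1 i := mul_self_pos.2 hx0
      have e5 := mul_nonneg (sub_nonneg.2 (ν1 p)) hi'.le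
      have e6 := mul_nonneg (ν0 p) hx1.le
      have e7 := mul_pos hc hx1
      have e8 := congrArg (fun v => v * p.1 i) e4
      simp only at e8
      nlinarith
    · have := μ2 p
      nlinarith [hB (q p)]

theorem ess_cover (H : unitInterval × Bl → F) (ζ : unitInterval × Sph → ℝ) (hH : Continuous H)
    (hζ : Continuous ζ)
    (thin : ∀ t, ∀ Z : Set Sph, IsPreconnected Z → Mono (fun y => ζ (t, y)) Z → ∀ x ∈ Z,
      Near (1 / 4) (H (t, inc x)) → ∀ x' ∈ Z, ‖H (t, inc x) - H (t, inc x')‖ ≤ 1 / 4) :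
    ∃ K W : Fin 3 → Set (unitInterval × Sph), (∀ i, IsClosed (K i)) ∧ (∀ i, IsOpen (W i)) ∧
      (∀ p, ∃ i, p ∈ K i) ∧ (∀ i, K i ⊆ W i) ∧ ∀ i Z, IsPreconnected Z → Z ⊆ W i → ∀ p ∈ Z,
        Near (1 / 4) (H (p.1, inc p.2)) → ∀ q ∈ Z, ‖H (p.1, inc p.2) - H (q.1, inc q.2)‖ < 2 := by
  obtain ⟨d1, hd1, h1⟩ := Metric.uniformContinuous_iff.1
    (CompactSpace.uniformContinuous_of_continuous hH) 1 one_pos
  obtain ⟨d2, hd2, h2⟩ := Metric.uniformContinuous_iff.1
    (CompactSpace.uniformContinuous_of_continuous hζ) (1 / 4) (by norm_num)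
  obtain ⟨m, hm⟩ := exists_nat_gt (3 / min d1 d2)
  have hd : 0 < min d1 d2 := lt_min hd1 hd2
  have hm0 : (0 : ℝ) < m := lt_trans (by positivity) hm
  have hdist : ∀ t t' : unitInterval, |(m : ℝ) * t - m * t'| < 3 → dist t t' < min d1 d2 := by
    intro t t' h
    rw [← mul_sub, abs_mul, abs_of_pos hm0] at h
    rw [div_lt_iff₀ hd] at hm
    rw [Subtype.dist_eq, Real.dist_eq]
    exact lt_of_mul_lt_mul_left (h.trans hm) hm0.le
  refine ⟨fun i => ⋃ j ∈ Finset.range (m + 1), {p | |(m : ℝ) * p.1 - (3 * j + i : ℕ)| ≤ 1 ∧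
      if Even (3 * j + i) then ζ p ≤ 1 / 2 else 1 / 2 ≤ ζ p},
    fun i => ⋃ j : ℕ, {p | |(m : ℝ) * p.1 - (3 * j + i : ℕ)| < 3 / 2 ∧
      if Even (3 * j + i) then ζ p < 3 / 4 else 1 / 4 < ζ p}, fun i => ?_, fun i => ?_,
    fun p => ?_, fun i p hp => ?_, fun i Z hZ hW p hp hN q hq => ?_⟩
  · refine isClosed_biUnion_finset fun j _ => ?_
    rw [ofPred_and]
    refine IsClosed.inter (isClosed_le (by fun_prop) continuous_const) ?_
    split_ifs
    · exact isClosed_le hζ continuous_const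
    · exact isClosed_le continuous_const hζ
  · refine isOpen_iUnion fun j => ?_
    rw [ofPred_and]
    refine IsOpen.inter (isOpen_lt (by fun_prop) continuous_const) ?_
    split_ifs
    · exact isOpen_lt hζ continuous_const
    · exact isOpen_lt continuous_const hζ
  · have s0 : (0 : ℝ) ≤ m * p.1 := mul_nonneg hm0.le p.1.2.1
    have s1 : (m : ℝ) * p.1 ≤ m := mul_le_of_le_one_right hm0.le p.1.2.2
    have f0 := Nat.floor_le s0
    have f1 := Nat.lt_floor_add_one ((m : ℝ) * p.1)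
    have f2 : ⌊(m : ℝ) * p.1⌋₊ ≤ m := Nat.floor_le_of_le s1
    obtain ⟨n, hn, hn1, hn2⟩ : ∃ n : ℕ, n ≤ m + 1 ∧ |(m : ℝ) * p.1 - n| ≤ 1 ∧
        if Even n then ζ p ≤ 1 / 2 else 1 / 2 ≤ ζ p := by
      by_cases h : if Even ⌊(m : ℝ) * p.1⌋₊ then ζ p ≤ 1 / 2 else 1 / 2 ≤ ζ p
      · exact ⟨_, by omega, abs_le.2 ⟨by linarith, by linarith⟩, h⟩
      · refine ⟨⌊(m : ℝ) * p.1⌋₊ + 1, by omega, ?_, ?_⟩
        · push_cast
          exact abs_le.2 ⟨by linarith, by linarith⟩
        · simp only [Nat.even_add_one]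
          by_cases he : Even ⌊(m : ℝ) * p.1⌋₊
          · rw [if_pos he] at h
            rw [if_neg (not_not.2 he)]
            exact (not_le.1 h).le
          · rw [if_neg he] at h
            rw [if_pos he]
            exact (not_le.1 h).le
    have hm1 : 0 < m := by exact_mod_cast hm0
    refine ⟨⟨n % 3, Nat.mod_lt _ (by norm_num)⟩, mem_iUnion₂.2 ⟨n / 3,
      Finset.mem_range.2 (by omega), ?_⟩⟩
    simp only [mem_ofPred_eq, Nat.div_add_mod]
    exact ⟨hn1, hn2⟩
  · obtain ⟨j, -, h1, h2⟩ := mem_iUnion₂.1 hp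
    refine mem_iUnion.2 ⟨j, by linarith, ?_⟩
    split_ifs at h2 ⊢ <;> linarith
  · have key : ∀ a ∈ Z, ∀ a' ∈ Z, ∀ j j' : ℕ, |(m : ℝ) * a.1 - (3 * j + i : ℕ)| < 3 / 2 →
        |(m : ℝ) * a'.1 - (3 * j' + i : ℕ)| < 3 / 2 → j' ≤ j := by
      intro a ha a' ha' j j' g1 g2
      by_contra hlt
      have hlt' : (j : ℝ) + 1 ≤ j' := by exact_mod_cast not_le.1 hlt
      push_cast at g1 g2
      obtain ⟨z, hz, ez⟩ := hZ.intermediate_value ha ha'
        (f := fun a : unitInterval × Sph => (m : ℝ) * a.1) (by fun_prop)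
        (show 3 * (j : ℝ) + ((i : ℕ) : ℝ) + 3 / 2 ∈ Icc _ _ from
          ⟨by linarith [(abs_lt.1 g1).2], by linarith [(abs_lt.1 g2).1]⟩)
      obtain ⟨k, g3, -⟩ := mem_iUnion.1 (hW hz)
      simp only at ez
      rw [ez] at g3
      push_cast at g3
      have g4 : (j : ℝ) < k := by linarith [(abs_lt.1 g3).2]
      have g5 : (k : ℝ) < j + 1 := by linarith [(abs_lt.1 g3).1]
      have g6 : j < k := by exact_mod_cast g4
      have g7 : k < j + 1 := by exact_mod_cast g5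
      omega
    obtain ⟨j, g1, -⟩ := mem_iUnion.1 (hW hp)
    have hall : ∀ a ∈ Z, dist p.1 a.1 < min d1 d2 ∧
        if Even (3 * j + i) then ζ a < 3 / 4 else 1 / 4 < ζ a := by
      intro a ha
      obtain ⟨k, g2, g3⟩ := mem_iUnion.1 (hW ha)
      obtain rfl : k = j := le_antisymm (key p hp a ha j k g1 g2) (key a ha p hp k j g2 g1)
      exact ⟨hdist _ _ (abs_lt.2 ⟨by linarith [(abs_lt.1 g1).1, (abs_lt.1 g2).2],
        by linarith [(abs_lt.1 g1).2, (abs_lt.1 g2).1]⟩), g3⟩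
    have hz : ∀ a ∈ Z, |ζ (p.1, a.2) - ζ a| < 1 / 4 := fun a ha =>
      h2 (a := (p.1, a.2)) (b := a) (by
        rw [Prod.dist_eq, dist_self, max_eq_left dist_nonneg]
        exact (hall a ha).1.trans_le (min_le_right _ _))
    have hmono : Mono (fun y => ζ (p.1, y)) (Prod.snd '' Z) := by
      by_cases he : Even (3 * j + i)
      · left
        rintro _ ⟨a, ha, rfl⟩
        have g2 := (hall a ha).2
        rw [if_pos he] at g2
        linarith [(abs_lt.1 (hz a ha)).2]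
      · right
        rintro _ ⟨a, ha, rfl⟩
        have g2 := (hall a ha).2
        rw [if_neg he] at g2
        linarith [(abs_lt.1 (hz a ha)).1]
    have g2 := thin p.1 _ (hZ.image _ continuous_snd.continuousOn) hmono p.2 ⟨p, hp, rfl⟩ hN q.2
      ⟨q, hq, rfl⟩
    have g3 : dist (H (p.1, inc q.2)) (H (q.1, inc q.2)) < 1 := h1 (by
      rw [Prod.dist_eq, dist_self, max_eq_left dist_nonneg]
      exact (hall q hq).1.trans_le (min_le_left _ _))
    rw [dist_eq_norm] at g3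
    linarith [norm_sub_le_norm_sub_add_norm_sub (H (p.1, inc p.2)) (H (p.1, inc q.2))
      (H (q.1, inc q.2))]

theorem ess_small {v : E} (h : ∀ i, |v i| < 2) : ‖v‖ < 4 := by
  have e := EuclideanSpace.real_norm_sq_eq v
  rw [Fin.sum_univ_three] at e
  have h0 := abs_lt.1 (h 0)
  have h1 := abs_lt.1 (h 1)
  have h2 := abs_lt.1 (h 2)
  nlinarith [norm_nonneg v]

theorem ess_sep (H : unitInterval × Bl → F) (hH : Continuous H) (i : Fin 3)
    {K W : Set (unitInterval × Sph)} (hK : IsClosed K) (hW : IsOpen W) (hKW : K ⊆ W)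
    (h : ∀ Z, IsPreconnected Z → Z ⊆ W → ∀ p ∈ Z, Near (1 / 4) (H (p.1, inc p.2)) →
      ∀ q ∈ Z, ‖H (p.1, inc p.2) - H (q.1, inc q.2)‖ < 2) :
    ∃ u : unitInterval × Bl → ℝ, Continuous u ∧ (∀ p, 2 ≤ (H p).1 i → u p = 1) ∧
      (∀ p, (H p).1 i ≤ -2 → u p = -1) ∧ ∀ p ∈ K, ‖(H (p.1, inc p.2)).1‖ ≤ 4 →
        1 / 2 ≤ (H (p.1, inc p.2)).2 → u (p.1, inc p.2) ≠ 0 := by
  have : LocallyPathConnectedSpace unitInterval := (convex_Icc (0 : ℝ) 1).locallyPathConnectedSpace
  obtain ⟨j, hj⟩ : ∃ j : unitInterval × Sph → unitInterval × Bl, j = fun p => (p.1, inc p.2) :=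
    ⟨_, rfl⟩
  have cj : Continuous j := by rw [hj]; fun_prop
  have ij : Function.Injective j := by
    rw [hj]
    intro p q e
    simp only [Prod.mk.injEq] at e
    exact Prod.ext e.1 (Subtype.ext (congrArg Subtype.val e.2 :))
  have ej : ∀ p : unitInterval × Sph, (p.1, inc p.2) = j p := fun p => by rw [hj]
  simp only [ej] at h ⊢
  obtain ⟨O, hO⟩ : ∃ O, O = W ∩ {p | Near (1 / 4) (H (j p))} := ⟨_, rfl⟩
  have oO : IsOpen O := by
    rw [hO]
    simp only [Near, ofPred_and]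
    exact hW.inter (IsOpen.inter (isOpen_lt (by fun_prop) continuous_const)
      (isOpen_lt continuous_const (by fun_prop)))
  obtain ⟨P, hP⟩ : ∃ P, P = {p | p ∈ O ∧ ∃ q ∈ connectedComponentIn O p, 0 < (H (j q)).1 i} :=
    ⟨_, rfl⟩
  obtain ⟨N, hN⟩ : ∃ N, N = {p | p ∈ O ∧ ¬ ∃ q ∈ connectedComponentIn O p, 0 < (H (j q)).1 i} :=
    ⟨_, rfl⟩
  have oP : IsOpen P := by
    rw [hP, isOpen_iff_mem_nhds]
    intro p hp
    filter_upwards [oO.connectedComponentIn.mem_nhds (mem_connectedComponentIn hp.1)] with a ha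
    exact ⟨connectedComponentIn_subset _ _ ha, by rw [← connectedComponentIn_eq ha]; exact hp.2⟩
  have oN : IsOpen N := by
    rw [hN, isOpen_iff_mem_nhds]
    intro p hp
    filter_upwards [oO.connectedComponentIn.mem_nhds (mem_connectedComponentIn hp.1)] with a ha
    exact ⟨connectedComponentIn_subset _ _ ha, by rw [← connectedComponentIn_eq ha]; exact hp.2⟩
  obtain ⟨C, hC⟩ : ∃ C, C = K ∩ {p | ‖(H (j p)).1‖ ≤ 4 ∧ 1 / 2 ≤ (H (j p)).2} := ⟨_, rfl⟩
  have cC : IsClosed C := by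
    rw [hC, ofPred_and]
    exact hK.inter (IsClosed.inter (isClosed_le (by fun_prop) continuous_const)
      (isClosed_le continuous_const (by fun_prop)))
  have CO : ∀ p ∈ C, p ∈ O := by
    rw [hC, hO]
    exact fun p hp => ⟨hKW hp.1, by linarith [hp.2.1], by linarith [hp.2.2]⟩
  have hPN : ∀ p ∈ C, p ∉ N → p ∈ P := by
    intro p hp hn
    rw [hN] at hn
    rw [hP]
    exact ⟨CO p hp, by_contra fun h' => hn ⟨CO p hp, h'⟩⟩
  have hP2 : ∀ p ∈ P, -2 < (H (j p)).1 i := by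
    rw [hP]
    rintro p ⟨hp, q, hq, h0⟩
    have e := h _ isPreconnected_connectedComponentIn
      ((connectedComponentIn_subset O p).trans (by rw [hO]; exact inter_subset_left)) p
      (mem_connectedComponentIn hp) (by rw [hO] at hp; exact hp.2) q hq
    have e2 := (PiLp.norm_apply_le _ i).trans (norm_fst_le (H (j p) - H (j q)))
    simp only [Prod.fst_sub, PiLp.sub_apply, Real.norm_eq_abs] at e2
    linarith [(abs_le.1 e2).1]
  have hN2 : ∀ p ∈ C, p ∉ P → (H (j p)).1 i ≤ 0 := by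
    intro p hp hn
    rw [hP] at hn
    exact not_lt.1 fun h0 => hn ⟨CO p hp, p, mem_connectedComponentIn (CO p hp), h0⟩
  obtain ⟨f, f0, f1, -⟩ := exists_continuous_zero_one_of_isClosed
    (s := {p | (H p).1 i ≤ -2} ∪ j '' (C \ P)) (t := {p | 2 ≤ (H p).1 i} ∪ j '' (C \ N))
    ((isClosed_le (by fun_prop) continuous_const).union
      ((cC.sdiff oP).isCompact.image cj).isClosed)
    ((isClosed_le continuous_const (by fun_prop)).union
      ((cC.sdiff oN).isCompact.image cj).isClosed) (by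
      rw [Set.disjoint_left]
      rintro a (h1 | ⟨p, hp, rfl⟩) (h2 | ⟨q, hq, e⟩)
      · simp only [mem_ofPred_eq] at h1 h2
        linarith
      · have := hP2 q (hPN q hq.1 hq.2)
        rw [e] at this
        exact absurd h1 (not_le.2 this)
      · have := hN2 p hp.1 hp.2
        simp only [mem_ofPred_eq] at h2
        linarith
      · obtain rfl := ij e
        exact hp.2 (hPN q hq.1 hq.2))
  refine ⟨fun p => 2 * f p - 1, by fun_prop, fun p hp => ?_, fun p hp => ?_,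
    fun p hp h1 h2 => ?_⟩
  · have := f1 (Or.inl hp)
    simp only [Pi.one_apply] at this
    simp only [this]
    norm_num
  · have := f0 (Or.inl hp)
    simp only [Pi.zero_apply] at this
    simp only [this]
    norm_num
  · have hp' : p ∈ C := by rw [hC]; exact ⟨hp, h1, h2⟩
    by_cases hn : p ∈ N
    · have := f0 (Or.inr ⟨p, ⟨hp', fun h' => ?_⟩, rfl⟩)
      · simp only [Pi.zero_apply] at this
        simp only [this]
        norm_num
      · rw [hN] at hn
        rw [hP] at h'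
        exact hn.2 h'.2
    · have := f1 (Or.inr ⟨p, ⟨hp', hn⟩, rfl⟩)
      simp only [Pi.one_apply] at this
      simp only [this]
      norm_num

theorem not_null (Φ : C(Bl, F)) (hΦ : ∀ x, Φ x = ((20 : ℝ) • (x : E), 1)) :
    ¬ Null Φ (1 / 4) := by
  rintro ⟨ζ0, z, hz, hJ⟩
  obtain ⟨γ, hγ⟩ := hJ
  obtain ⟨H, hH⟩ : ∃ H : unitInterval × Bl → F, H = fun p => (γ p.1).1 p.2 := ⟨_, rfl⟩
  have cH : Continuous H := by rw [hH]; fun_prop
  have H0 : ∀ x, H (0, x) = ((20 : ℝ) • (x : E), 1) := fun x => by simp [hH, hΦ]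
  have H1 : ∀ x, ¬ Near (1 / 4) (H (1, x)) := fun x => by simpa [hH] using hz x
  have Hok : ∀ p, Ok (1 / 4) (H p) := fun p => by rw [hH]; exact (hγ p.1).ok p.2
  obtain ⟨K, W, cK, oW, hcov, hKW, hsm⟩ := ess_cover H (fun p => (γ p.1).2 p.2) cH (by fun_prop)
    (fun t => by rw [hH]; exact (hγ t).thin)
  choose u cu u1 u2 u3 using fun i => ess_sep H cH i (cK i) (oW i) (hKW i) (hsm i)
  have hs : ∀ p, (WithLp.toLp 2 fun i => u i p : E) = 0 → (∀ i, u i p = 0) ∧ ‖(H p).1‖ < 4 := by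
    intro p hp
    have e : ∀ i, u i p = 0 := fun i => congrArg (fun v : E => v i) hp
    refine ⟨e, ess_small fun i => abs_lt.2 ⟨not_le.1 fun h => ?_, not_le.1 fun h => ?_⟩⟩
    · have := u2 i p h
      rw [e i] at this
      norm_num at this
    · have := u1 i p h
      rw [e i] at this
      norm_num at this
  refine ess_brouwer (fun p => WithLp.toLp 2 fun i => u i p) (fun p => (H p).2 - 1 / 2)
    ((PiLp.continuous_toLp 2 _).comp (continuous_pi cu)) (by fun_prop) (fun p hp h => ?_)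
    (fun p hp h => ?_) (fun x h => ?_) (fun x => ?_) (fun x hx => ?_)
  · have := (hs p hp).2
    rcases Hok p with h' | h' | h' <;> linarith
  · obtain ⟨i, hi⟩ := hcov (p.1, ⟨p.2, mem_sphere_zero_iff_norm.2 hp⟩)
    exact sub_neg.2 (not_le.1 fun h' => u3 i _ hi (hs p h).2.le h' ((hs p h).1 i))
  · have := (hs _ h).2
    have h' : ¬ 1 / 4 < (H (1, x)).2 := fun h' => H1 x ⟨by linarith, h'⟩
    linarith [not_lt.1 h']
  · rw [H0]
    norm_num
  · by_contra hn
    push Not at hn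
    have e : ‖(H (0, x)).1‖ < 4 := by
      refine ess_small fun i => abs_lt.2 ⟨not_le.1 fun h => ?_, not_le.1 fun h => ?_⟩
      · have h1 := hn i
        simp only [u2 i _ h] at h1
        rw [H0] at h
        simp only [PiLp.smul_apply, smul_eq_mul] at h
        linarith
      · have h1 := hn i
        simp only [u1 i _ h] at h1
        rw [H0] at h
        simp only [PiLp.smul_apply, smul_eq_mul] at h
        linarith
    rw [H0, norm_smul, hx] at e
    norm_num at e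

end Pool.Agent.MP_ff6fba_gt

end

-- part MP_ff6fba_gt.ModelA
section

/-! The long trefoil in `E`: geometry. -/

namespace Pool.Agent.MP_ff6fba_gt

open Set Metric Filter Topology

noncomputable def sx (u : E) : ℂ := ⟨u 0 - (‖u‖ ^ 2 - 1), u 2 + u 1⟩
noncomputable def sy (u : E) : ℂ := ⟨u 0 + (‖u‖ ^ 2 - 1), u 2 - u 1⟩
noncomputable def ee (u : E) : ℂ := sx u * (starRingEnd ℂ) (sy u)
def Om : Set E := {u | ‖GG (sx u) (sy u)‖ < 1 / 50 * ‖sy u‖ ^ 3 ∧ ee u ∈ Complex.slitPlane}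
noncomputable def hz (z : ℂ) : ℝ := max 0 (min 1 (Complex.arg z / Real.pi + 1 / 2))

theorem continuous_sx : Continuous sx := by
  have : sx = fun u : E => ((u 0 - (‖u‖ ^ 2 - 1) : ℝ) : ℂ) + (u 2 + u 1 : ℝ) * Complex.I :=
    funext fun u => Complex.mk_eq_add_mul_I _ _
  rw [this]
  fun_prop

theorem continuous_sy : Continuous sy := by
  have : sy = fun u : E => ((u 0 + (‖u‖ ^ 2 - 1) : ℝ) : ℂ) + (u 2 - u 1 : ℝ) * Complex.I :=
    funext fun u => Complex.mk_eq_add_mul_I _ _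
  rw [this]
  fun_prop

theorem continuous_GG : Continuous fun p : ℂ × ℂ => GG p.1 p.2 := by
  unfold GG
  fun_prop

lemma normsq_mA (u : E) : ‖u‖ ^ 2 = u 0 ^ 2 + u 1 ^ 2 + u 2 ^ 2 := by
  rw [EuclideanSpace.real_norm_sq_eq, Fin.sum_univ_three]

lemma coord_mA (u : E) (i : Fin 3) : |u i| ≤ ‖u‖ := by
  simpa using PiLp.norm_apply_le u i

theorem sxy_ne (u : E) : sx u ≠ 0 ∨ sy u ≠ 0 := by
  by_contra h
  push Not at h
  have h1 := congrArg Complex.re h.1
  have h2 := congrArg Complex.im h.1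
  have h3 := congrArg Complex.re h.2
  have h4 := congrArg Complex.im h.2
  simp only [sx, sy, Complex.zero_re, Complex.zero_im, normsq_mA] at h1 h2 h3 h4
  have h5 : u 0 = 0 := by linarith
  have h6 : u 1 = 0 := by linarith
  have h7 : u 2 = 0 := by linarith
  simp [h5, h6, h7] at h1

theorem sxy_inj {u v : E} {s : ℝ} (hs : 0 < s) (hx : sx v = s * sx u) (hy : sy v = s * sy u) :
    v = u := by
  have h1 := congrArg Complex.re hx
  have h2 := congrArg Complex.im hx
  have h3 := congrArg Complex.re hy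
  have h4 := congrArg Complex.im hy
  simp only [sx, sy, Complex.re_ofReal_mul, Complex.im_ofReal_mul, normsq_mA] at h1 h2 h3 h4
  have h5 : v 0 = s * u 0 := by linarith
  have h6 : v 1 = s * u 1 := by linarith
  have h7 : v 2 = s * u 2 := by linarith
  have h8 : (s - 1) * (s * (u 0 ^ 2 + u 1 ^ 2 + u 2 ^ 2) + 1) = 0 := by
    rw [h5, h6, h7] at h3
    linear_combination h3
  have h9 : s = 1 := by
    rcases mul_eq_zero.1 h8 with h | h
    · linarith
    · exact absurd h (by positivity)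
  ext i
  fin_cases i
  · simpa [h9] using h5
  · simpa [h9] using h6
  · simpa [h9] using h7

theorem ee_slit {u : E} (h : GG (sx u) (sy u) = 0) : ee u ∈ Complex.slitPlane := by
  rw [GG, sub_eq_zero] at h
  have h1 : ‖sx u‖ = ‖sy u‖ := by
    have h2 := congrArg norm h
    rw [norm_mul, norm_pow, norm_pow, Complex.norm_real, norm_norm, ← pow_succ'] at h2
    exact (pow_left_inj₀ (norm_nonneg _) (norm_nonneg _) (by norm_num)).1 h2
  have h2 : sy u ≠ 0 := fun h3 => by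
    rcases sxy_ne u with h4 | h4
    · exact h4 (by rwa [h3, norm_zero, norm_eq_zero] at h1)
    · exact h4 h3
  by_contra h3
  rw [Complex.mem_slitPlane_iff] at h3
  push Not at h3
  have h4 : ee u = -(‖sy u‖ : ℂ) ^ 2 := by
    have h5 : ‖ee u‖ = ‖sy u‖ ^ 2 := by rw [ee, norm_mul, Complex.norm_conj, h1, sq]
    have h6 : ee u = ((ee u).re : ℝ) := Complex.ext rfl (by simp [h3.2])
    rw [h6, Complex.norm_real, Real.norm_of_nonpos h3.1] at h5
    rw [h6, ← Complex.ofReal_pow, ← h5]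
    simp
  have h5 : sx u = -sy u := by
    rw [ee, ← Complex.mul_conj', ← neg_mul] at h4
    exact mul_right_cancel₀ (by simpa using h2) h4
  have h6 : sy u = ‖sy u‖ := by
    rw [h1, h5] at h
    exact (mul_right_cancel₀ (pow_ne_zero 2 h2) (by linear_combination -h))
  have h7 := congrArg Complex.re h5
  have h8 := congrArg Complex.im h5
  have h9 := congrArg Complex.im h6
  have h10 : 0 ≤ (sy u).re := by rw [h6]; exact norm_nonneg _
  simp only [Complex.ofReal_im] at h9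
  simp only [sx, sy, Complex.neg_re, Complex.neg_im, normsq_mA] at h7 h8 h9 h10
  have h11 : u 0 = 0 := by linarith
  have h12 : u 2 = 0 := by linarith
  have h13 : u 1 = 0 := by linarith
  rw [h11, h12, h13] at h10
  norm_num at h10

lemma GG_smul_mA {t : ℝ} (ht : 0 ≤ t) (x y : ℂ) : GG (t * x) (t * y) = t ^ 3 * GG x y := by
  rw [GG, GG, norm_mul, Complex.norm_real, Real.norm_of_nonneg ht]
  push_cast
  ring

lemma lt_smul_mA {t c : ℝ} (ht : 0 < t) {x y : ℂ} (h : ‖GG x y‖ < c * ‖y‖ ^ 3) :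
    ‖GG (t * x) (t * y)‖ < c * ‖t * y‖ ^ 3 := by
  rw [GG_smul_mA ht.le, norm_mul, norm_mul, norm_pow, Complex.norm_real,
    Real.norm_of_nonneg ht.le, mul_pow, mul_left_comm]
  exact mul_lt_mul_of_pos_left h (by positivity)

lemma conj_smul_mA (t : ℝ) (x y : ℂ) : t * x * (starRingEnd ℂ) (t * y) =
    (t ^ 2 : ℝ) * (x * (starRingEnd ℂ) y) := by
  rw [map_mul, Complex.conj_ofReal]
  push_cast
  ring

theorem exists_far : ∃ R : ℝ, 0 < R ∧ ∀ u : E, R ≤ ‖u‖ →
    ‖GG (sx u) (sy u)‖ < 1 / 100 * ‖sy u‖ ^ 3 ∧ (ee u).re < 0 := by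
  have h1 : IsOpen {p : ℂ × ℂ | ‖GG p.1 p.2‖ < 1 / 100 * ‖p.2‖ ^ 3 ∧
      (p.1 * (starRingEnd ℂ) p.2).re < 0} :=
    IsOpen.inter (isOpen_lt continuous_GG.norm (by fun_prop))
      (isOpen_lt (f := fun p : ℂ × ℂ => (p.1 * (starRingEnd ℂ) p.2).re) (by fun_prop)
        continuous_const)
  obtain ⟨δ, hδ, h2⟩ := Metric.isOpen_iff.1 h1 (-1, 1) (by simp [GG])
  refine ⟨2 + 6 / δ, by positivity, fun u hu => ?_⟩
  have h3 : 0 < 6 / δ := by positivity
  have h4 : 6 < δ * ‖u‖ := by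
    rw [← div_lt_iff₀' hδ]
    linarith
  have h5 : 0 < ‖u‖ ^ 2 - 1 := by nlinarith
  have h6 : 3 * ‖u‖ < δ * (‖u‖ ^ 2 - 1) := by nlinarith
  have h7 : ((‖u‖ ^ 2 - 1 : ℝ) : ℂ) ≠ 0 := by exact_mod_cast h5.ne'
  have c0 := coord_mA u 0
  have c1 := coord_mA u 1
  have c2 := coord_mA u 2
  have h8 : ∀ z : ℂ, |z.re| + |z.im| ≤ 3 * ‖u‖ → ‖z / (‖u‖ ^ 2 - 1 : ℝ)‖ < δ := fun z hz => by
    rw [norm_div, Complex.norm_real, Real.norm_of_nonneg h5.le, div_lt_iff₀ h5]
    linarith [Complex.norm_le_abs_re_add_abs_im z]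
  have h9 := h2 (show (sx u / (‖u‖ ^ 2 - 1 : ℝ), sy u / (‖u‖ ^ 2 - 1 : ℝ)) ∈ ball (-1, 1) δ by
    rw [← ball_prod_same]
    constructor
    · rw [mem_ball_iff_norm, sub_neg_eq_add, div_add_one h7]
      refine h8 _ ?_
      simp only [sx, Complex.add_re, Complex.add_im, Complex.ofReal_re, Complex.ofReal_im,
        sub_add_cancel, add_zero]
      linarith [abs_add_le (u 2) (u 1)]
    · rw [mem_ball_iff_norm, div_sub_one h7]
      refine h8 _ ?_
      simp only [sy, Complex.sub_re, Complex.sub_im, Complex.ofReal_re, Complex.ofReal_im,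
        add_sub_cancel_right, sub_zero]
      linarith [abs_sub (u 2) (u 1)])
  have h10 := lt_smul_mA h5 h9.1
  have h11 := conj_smul_mA (‖u‖ ^ 2 - 1) (sx u / (‖u‖ ^ 2 - 1 : ℝ)) (sy u / (‖u‖ ^ 2 - 1 : ℝ))
  simp only [mul_div_cancel₀ _ h7] at h10 h11
  refine ⟨h10, ?_⟩
  rw [ee, h11, Complex.re_ofReal_mul]
  exact mul_neg_of_pos_of_neg (by positivity) h9.2

theorem hz_of_re_neg {z : ℂ} (h : z.re < 0) : (0 ≤ z.im → hz z = 1) ∧ (z.im < 0 → hz z = 0) := by
  have h0 := Real.pi_pos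
  have h1 : Real.pi / 2 < |Complex.arg z| :=
    not_le.1 fun h2 => not_le.2 h (Complex.abs_arg_le_pi_div_two_iff.1 h2)
  constructor
  · intro h2
    rw [abs_of_nonneg (Complex.arg_nonneg_iff.2 h2)] at h1
    have h3 : 1 / 2 ≤ Complex.arg z / Real.pi := by
      rw [le_div_iff₀ h0]
      linarith
    rw [hz, min_eq_left (by linarith), max_eq_right zero_le_one]
  · intro h2
    rw [abs_of_neg (Complex.arg_neg_iff.2 h2)] at h1
    have h3 : Complex.arg z / Real.pi ≤ -(1 / 2) := by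
      rw [div_le_iff₀ h0]
      linarith
    rw [hz, max_eq_left ((min_le_right _ _).trans (by linarith))]

lemma ee_im_mA (u : E) : (ee u).im = 2 * ((‖u‖ ^ 2 - 1) * u 2 + u 0 * u 1) := by
  simp only [ee, sx, sy, Complex.mul_im, Complex.conj_re, Complex.conj_im]
  ring

theorem exists_side (B : ℝ) : ∃ R' : ℝ, ∀ u : E, |u 0| ≤ B → |u 1| ≤ B →
    (R' ≤ u 2 → u ∈ Om ∧ hz (ee u) = 1) ∧ (u 2 ≤ -R' → u ∈ Om ∧ hz (ee u) = 0) := by
  obtain ⟨R, hR, h⟩ := exists_far
  refine ⟨R + 2 + B ^ 2, fun u h0 h1 => ?_⟩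
  have h2 : |u 0 * u 1| ≤ B ^ 2 := by
    rw [abs_mul, sq]
    exact mul_le_mul h0 h1 (abs_nonneg _) ((abs_nonneg _).trans h0)
  have h3 := abs_le.1 h2
  have h4 := abs_le.1 (coord_mA u 2)
  have h5 := sq_nonneg B
  have h6 : ∀ a : ℝ, a < 1 / 100 * ‖sy u‖ ^ 3 → a < 1 / 50 * ‖sy u‖ ^ 3 := fun a ha => by
    linarith [pow_nonneg (norm_nonneg (sy u)) 3]
  constructor
  · intro h7
    obtain ⟨h8, h9⟩ := h u (by linarith)
    have h10 : 1 ≤ ‖u‖ ^ 2 - 1 := by nlinarith
    have h11 : 0 < (ee u).im := by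
      rw [ee_im_mA]
      nlinarith
    exact ⟨⟨h6 _ h8, Or.inr h11.ne'⟩, (hz_of_re_neg h9).1 h11.le⟩
  · intro h7
    obtain ⟨h8, h9⟩ := h u (by linarith)
    have h10 : 1 ≤ ‖u‖ ^ 2 - 1 := by nlinarith
    have h11 : (ee u).im < 0 := by
      rw [ee_im_mA]
      nlinarith
    exact ⟨⟨h6 _ h8, Or.inr h11.ne⟩, (hz_of_re_neg h9).2 h11⟩

/-- the positive root of `q s ^ 2 - ν s - 1` -/
noncomputable def root_mA (q ν : ℝ) : ℝ := (ν + √(ν ^ 2 + 4 * q)) / (2 * q)

lemma root_spec_mA {q : ℝ} (hq : 0 < q) (ν : ℝ) :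
    0 < root_mA q ν ∧ root_mA q ν ^ 2 * q - 1 = root_mA q ν * ν := by
  have h1 := Real.sq_sqrt (by positivity : 0 ≤ ν ^ 2 + 4 * q)
  have h2 := (Real.sq_lt (x := ν) (y := ν ^ 2 + 4 * q)).1 (by linarith)
  unfold root_mA
  refine ⟨div_pos (by linarith) (by positivity), ?_⟩
  field_simp
  linear_combination h1

noncomputable def q_mA (x y : ℂ) : ℝ :=
  ((x.re + y.re) / 2) ^ 2 + ((x.im - y.im) / 2) ^ 2 + ((x.im + y.im) / 2) ^ 2

/-- the point of `E` on the ray of `(x, y)` -/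
noncomputable def inv_mA (x y : ℂ) : E :=
  root_mA (q_mA x y) ((y.re - x.re) / 2) • (((x.re + y.re) / 2) • EuclideanSpace.single 0 1 +
    ((x.im - y.im) / 2) • EuclideanSpace.single 1 1 + ((x.im + y.im) / 2) • ax)

lemma q_pos_mA {x y : ℂ} (h : x * (starRingEnd ℂ) y ∈ Complex.slitPlane) : 0 < q_mA x y := by
  by_contra h1
  unfold q_mA at h1
  have h2 : x.re + y.re = 0 := by nlinarith [sq_nonneg (x.im - y.im), sq_nonneg (x.im + y.im)]
  have h3 : x.im - y.im = 0 := by nlinarith [sq_nonneg (x.re + y.re), sq_nonneg (x.im + y.im)]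
  have h4 : x.im + y.im = 0 := by nlinarith [sq_nonneg (x.re + y.re), sq_nonneg (x.im - y.im)]
  have h5 : x.im = 0 := by linarith
  have h6 : y.im = 0 := by linarith
  have h7 : x.re = -y.re := by linarith
  rw [Complex.mem_slitPlane_iff] at h
  simp only [Complex.mul_re, Complex.mul_im, Complex.conj_re, Complex.conj_im, h5, h6, h7] at h
  rcases h with h | h
  · nlinarith [sq_nonneg y.re]
  · simp at h

lemma inv_spec_mA {x y : ℂ} (h : x * (starRingEnd ℂ) y ∈ Complex.slitPlane) :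
    ∃ s : ℝ, 0 < s ∧ sx (inv_mA x y) = s * x ∧ sy (inv_mA x y) = s * y := by
  obtain ⟨h1, h2⟩ := root_spec_mA (q_pos_mA h) ((y.re - x.re) / 2)
  have c0 : inv_mA x y 0 = root_mA (q_mA x y) ((y.re - x.re) / 2) * ((x.re + y.re) / 2) := by
    simp [inv_mA, ax]
  have c1 : inv_mA x y 1 = root_mA (q_mA x y) ((y.re - x.re) / 2) * ((x.im - y.im) / 2) := by
    simp [inv_mA, ax]
  have c2 : inv_mA x y 2 = root_mA (q_mA x y) ((y.re - x.re) / 2) * ((x.im + y.im) / 2) := by
    simp [inv_mA, ax]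
  have h3 : ‖inv_mA x y‖ ^ 2 - 1 =
      root_mA (q_mA x y) ((y.re - x.re) / 2) * ((y.re - x.re) / 2) := by
    rw [← h2, normsq_mA, c0, c1, c2]
    generalize root_mA _ _ = s
    unfold q_mA
    ring
  refine ⟨_, h1, Complex.ext ?_ ?_, Complex.ext ?_ ?_⟩ <;>
    simp only [sx, sy, Complex.re_ofReal_mul, Complex.im_ofReal_mul, h3, c0, c1, c2] <;> ring

lemma inv_mem_mA {x y : ℂ} (h : x * (starRingEnd ℂ) y ∈ Complex.slitPlane)
    (h' : ‖GG x y‖ < 1 / 50 * ‖y‖ ^ 3) : inv_mA x y ∈ Om := by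
  obtain ⟨s, hs, h1, h2⟩ := inv_spec_mA h
  refine ⟨by rw [h1, h2]; exact lt_smul_mA hs h', ?_⟩
  rw [ee, h1, h2, conj_smul_mA, Complex.mem_slitPlane_iff, Complex.re_ofReal_mul,
    Complex.im_ofReal_mul]
  exact h.imp (mul_pos (by positivity)) (mul_ne_zero (by positivity))

/-- the unit circle -/
noncomputable def ci_mA (θ : ℝ) : ℂ := Complex.exp (θ * Complex.I)

lemma ci_slit_mA {φ t : ℝ} (h0 : 0 < φ) (h1 : φ < 1 / 250) (ht : |t| ≤ 1) :
    ci_mA (t * (3 * Real.pi - φ)) * (starRingEnd ℂ) (ci_mA (t * (2 * Real.pi + φ))) ∈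
      Complex.slitPlane := by
  have h2 : ci_mA (t * (3 * Real.pi - φ)) * (starRingEnd ℂ) (ci_mA (t * (2 * Real.pi + φ))) =
      ci_mA (t * (Real.pi - 2 * φ)) := by
    rw [ci_mA, ci_mA, ci_mA, ← Complex.exp_conj, ← Complex.exp_add, map_mul, Complex.conj_ofReal,
      Complex.conj_I]
    congr 1
    push_cast
    ring
  have h3 := Real.pi_gt_three
  have h4 := abs_le.1 ht
  rw [h2, Complex.mem_slitPlane_iff, ci_mA, Complex.exp_ofReal_mul_I_re,
    Complex.exp_ofReal_mul_I_im, or_iff_not_imp_right, not_not]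
  intro h5
  rw [(Real.sin_eq_zero_iff_of_lt_of_lt (by nlinarith) (by nlinarith)).1 h5, Real.cos_zero]
  exact one_pos

lemma ci_GG_mA {φ t : ℝ} (h0 : 0 < φ) (h1 : φ < 1 / 250) (ht : |t| ≤ 1) :
    ‖GG (ci_mA (t * (3 * Real.pi - φ))) (ci_mA (t * (2 * Real.pi + φ)))‖ <
      1 / 50 * ‖ci_mA (t * (2 * Real.pi + φ))‖ ^ 3 := by
  have h2 : GG (ci_mA (t * (3 * Real.pi - φ))) (ci_mA (t * (2 * Real.pi + φ))) =
      ci_mA (t * (2 * Real.pi + φ)) ^ 3 * (Complex.exp (Complex.I * (-5 * t * φ : ℝ)) - 1) := by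
    rw [GG, ci_mA, ci_mA, Complex.norm_exp_ofReal_mul_I, Complex.ofReal_one, one_mul,
      mul_sub_one, ← Complex.exp_nat_mul, ← Complex.exp_nat_mul, ← Complex.exp_add]
    congr 2
    push_cast
    ring
  have h3 := Real.norm_exp_I_mul_ofReal_sub_one_le (x := -5 * t * φ)
  rw [h2, norm_mul, norm_pow, ci_mA, Complex.norm_exp_ofReal_mul_I]
  rw [Real.norm_eq_abs, abs_mul, abs_mul, abs_of_pos h0] at h3
  norm_num at h3 ⊢
  nlinarith

theorem exists_path : ∃ l : ℝ, 0 < l ∧ (∀ s : ℝ, l ≤ |s| → s • ax ∈ Om) ∧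
    JoinedIn Om ((-l) • ax) (l • ax) := by
  obtain ⟨R, hR⟩ := exists_side 0
  obtain ⟨φ, h0, h1, h2⟩ : ∃ φ : ℝ, 0 < φ ∧ φ < 1 / 250 ∧ |R| * φ ≤ 1 / 2 := by
    refine ⟨1 / (2 * |R| + 300), by positivity,
      one_div_lt_one_div_of_lt (by norm_num) (by linarith [abs_nonneg R]), ?_⟩
    rw [mul_one_div, div_le_iff₀ (by positivity)]
    linarith
  have h3 : 0 < Real.sin φ := Real.sin_pos_of_pos_of_lt_pi h0 (by linarith [Real.pi_gt_three])
  have h4 : Real.sin φ ≤ φ := Real.sin_le h0.le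
  have h5 : 1 / 2 ≤ Real.cos φ := by nlinarith [Real.one_sub_sq_div_two_le_cos (x := φ)]
  obtain ⟨h6, h7⟩ := root_spec_mA (pow_pos h3 2) (Real.cos φ)
  obtain ⟨s, hs⟩ : ∃ s, s = root_mA (Real.sin φ ^ 2) (Real.cos φ) := ⟨_, rfl⟩
  rw [← hs] at h6 h7
  have h8 : |R| ≤ s * Real.sin φ := by
    have h9 : Real.cos φ ≤ s * Real.sin φ * Real.sin φ :=
      le_of_mul_le_mul_left (by nlinarith) h6
    have h10 : s * Real.sin φ * Real.sin φ ≤ s * Real.sin φ * φ := by gcongr
    exact le_of_mul_le_mul_right (by linarith) h0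
  have e1 : Real.cos (3 * Real.pi - φ) = -Real.cos φ := by
    rw [show 3 * Real.pi - φ = Real.pi - φ + 2 * Real.pi by ring, Real.cos_add_two_pi,
      Real.cos_pi_sub]
  have e2 : Real.sin (3 * Real.pi - φ) = Real.sin φ := by
    rw [show 3 * Real.pi - φ = Real.pi - φ + 2 * Real.pi by ring, Real.sin_add_two_pi,
      Real.sin_pi_sub]
  have e3 : Real.cos (2 * Real.pi + φ) = Real.cos φ := by rw [add_comm, Real.cos_add_two_pi]
  have e4 : Real.sin (2 * Real.pi + φ) = Real.sin φ := by rw [add_comm, Real.sin_add_two_pi]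
  refine ⟨s * Real.sin φ, by positivity, fun a ha => ?_, ?_⟩
  · have h9 := hR (a • ax) (by simp [ax]) (by simp [ax])
    have h10 : (a • ax) 2 = a := by simp [ax]
    rw [h10] at h9
    have h11 := le_abs_self R
    rcases le_abs.1 ha with h | h
    · exact (h9.1 (by linarith)).1
    · exact (h9.2 (by linarith)).1
  have ht : ∀ t ∈ unitInterval, |2 * t - 1| ≤ 1 := fun t ht =>
    abs_le.2 ⟨by linarith [ht.1], by linarith [ht.2]⟩
  refine JoinedIn.ofLine (f := fun t => inv_mA (ci_mA ((2 * t - 1) * (3 * Real.pi - φ)))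
    (ci_mA ((2 * t - 1) * (2 * Real.pi + φ)))) ?_ ?_ ?_ ?_
  · unfold inv_mA root_mA
    refine ContinuousOn.smul (ContinuousOn.div ?_ ?_ fun t h =>
      (mul_pos two_pos (q_pos_mA (ci_slit_mA h0 h1 (ht t h)))).ne') ?_ <;>
      refine Continuous.continuousOn ?_ <;> (try unfold q_mA) <;> unfold ci_mA <;> fun_prop
  · simp only [inv_mA, q_mA, ci_mA, Complex.exp_ofReal_mul_I_re, Complex.exp_ofReal_mul_I_im,
      mul_zero, zero_sub, neg_one_mul, Real.cos_neg, Real.sin_neg, e1, e2, e3, e4]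
    simp [smul_smul, hs]
  · simp only [inv_mA, q_mA, ci_mA, Complex.exp_ofReal_mul_I_re, Complex.exp_ofReal_mul_I_im,
      mul_one, show (2 : ℝ) - 1 = 1 by norm_num, one_mul, e1, e2, e3, e4]
    simp [smul_smul, hs]
  · rintro _ ⟨t, h, rfl⟩
    exact inv_mem_mA (ci_slit_mA h0 h1 (ht t h)) (ci_GG_mA h0 h1 (ht t h))

end Pool.Agent.MP_ff6fba_gt

end

-- part MP_ff6fba_gt.Spin
section

/-! The solid angle of a closed polygon, as a product of spinor pairings. -/

namespace Pool.Agent.MP_ff6fba_gt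

open Set Metric Filter Topology Pool.Agent.Lib.PlaneTop

/-- the point of the unit circle of the plane `u 2 = 0` with angle `2 π m / 3` -/
noncomputable def corner (m : ℤ) : E :=
  !₂[Real.cos (2 * Real.pi * m / 3), Real.sin (2 * Real.pi * m / 3), 0]

open Matrix Complex in
/-- the Hermitian matrix of the null vector over `v` -/
noncomputable def spinP (v : E) : Matrix (Fin 2) (Fin 2) ℂ :=
  !![(‖v‖ : ℂ) + v 2, v 0 - v 1 * I; v 0 + v 1 * I, (‖v‖ : ℂ) - v 2]

theorem spin_norm_sq (v : E) : ‖v‖ ^ 2 = v 0 ^ 2 + v 1 ^ 2 + v 2 ^ 2 := by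
  rw [EuclideanSpace.real_norm_sq_eq, Fin.sum_univ_three]

theorem spin_inner (v w : E) : inner ℝ v w = v 0 * w 0 + v 1 * w 1 + v 2 * w 2 := by
  simp [PiLp.inner_apply, Fin.sum_univ_three, mul_comm]

theorem spinP_cont : Continuous spinP := by
  refine continuous_matrix fun i j => ?_
  fin_cases i <;> fin_cases j <;> simp [spinP] <;> fun_prop

theorem spin_exists (v : E) : ∃ ξ : Fin 2 → ℂ, spinP v = Matrix.vecMulVec ξ (star ξ) := by
  have h1 := spin_norm_sq v
  have h0 := norm_nonneg v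
  by_cases h : ‖v‖ + v 2 = 0
  · have h2 : v 2 = -‖v‖ := by linarith
    have h3 : v 0 = 0 := by rw [h2] at h1; nlinarith [sq_nonneg (v 0), sq_nonneg (v 1)]
    have h4 : v 1 = 0 := by rw [h2] at h1; nlinarith [sq_nonneg (v 0), sq_nonneg (v 1)]
    have h5 : ((√(2 * ‖v‖) : ℝ) : ℂ) * (√(2 * ‖v‖) : ℝ) = 2 * (‖v‖ : ℝ) := by
      exact_mod_cast Real.mul_self_sqrt (by positivity : 0 ≤ 2 * ‖v‖)
    refine ⟨![0, (√(2 * ‖v‖) : ℝ)], ?_⟩
    ext i j
    fin_cases i <;> fin_cases j <;>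
      simp [spinP, Matrix.vecMulVec_apply, h2, h3, h4, -Real.sqrt_mul, -Real.sqrt_mul', h5]
    ring
  · have h2 : 0 ≤ ‖v‖ + v 2 := by nlinarith [sq_nonneg (v 0), sq_nonneg (v 1)]
    obtain ⟨s, hs⟩ : ∃ s, s = √(‖v‖ + v 2) := ⟨_, rfl⟩
    have h3 : (s : ℂ) * s = (‖v‖ : ℝ) + v 2 := by
      rw [hs]; exact_mod_cast Real.mul_self_sqrt h2
    have h4 : (s : ℂ) ≠ 0 := by
      rw [hs]; exact_mod_cast (Real.sqrt_pos.2 (lt_of_le_of_ne h2 (Ne.symm h))).ne'
    have h5 : ((‖v‖ : ℝ) : ℂ) ^ 2 = (v 0 : ℂ) ^ 2 + (v 1 : ℂ) ^ 2 + (v 2 : ℂ) ^ 2 := by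
      exact_mod_cast h1
    refine ⟨![s, (v 0 + v 1 * Complex.I) / s], ?_⟩
    ext i j
    fin_cases i <;> fin_cases j <;> simp [spinP, Matrix.vecMulVec_apply, h3]
    · field_simp
      ring
    · field_simp
    · field_simp
      linear_combination (‖v‖ - v 2 : ℂ) * h3 + h5 + (v 1 : ℂ) ^ 2 * Complex.I_mul_I

/-- a spinor over `v` -/
noncomputable def spinor (v : E) : Fin 2 → ℂ := (spin_exists v).choose

theorem spinP_eq (v : E) : spinP v = Matrix.vecMulVec (spinor v) (star (spinor v)) :=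
  (spin_exists v).choose_spec

/-- the pairing of spinors -/
noncomputable def spinK (v w : E) : ℂ := star (spinor v) ⬝ᵥ spinor w

/-- the product of the matrices of the vertices -/
noncomputable def spinM : ℕ → (ℕ → E) → Matrix (Fin 2) (Fin 2) ℂ
  | 0, v => spinP (v 0)
  | N + 1, v => spinM N v * spinP (v (N + 1))

theorem spinM_cont (N : ℕ) : Continuous (spinM N) := by
  induction N with
  | zero => exact spinP_cont.comp (continuous_apply 0)
  | succ N ih => exact ih.matrix_mul (spinP_cont.comp (continuous_apply (N + 1)))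

theorem spinM_eq (N : ℕ) (v : ℕ → E) : spinM N v =
    (∏ j ∈ Finset.range N, spinK (v j) (v (j + 1))) •
      Matrix.vecMulVec (spinor (v 0)) (star (spinor (v N))) := by
  induction N with
  | zero => simp [spinM, spinP_eq]
  | succ N ih =>
    rw [spinM, ih, spinP_eq, Matrix.smul_mul, Matrix.vecMulVec_mul_vecMulVec,
      Matrix.vecMulVec_smul, Finset.prod_range_succ, smul_smul]
    rfl

theorem spinW_eq (N : ℕ) (v : ℕ → E) : (spinM N v).trace =
    (∏ j ∈ Finset.range N, spinK (v j) (v (j + 1))) * spinK (v N) (v 0) := by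
  rw [spinM_eq, Matrix.trace_smul, Matrix.trace_vecMulVec, dotProduct_comm]
  rfl

theorem spinK_self (v : E) : spinK v v = ((2 * ‖v‖ : ℝ) : ℂ) := by
  have h := spinW_eq 0 fun _ => v
  simp only [Finset.range_zero, Finset.prod_empty, one_mul] at h
  rw [← h]
  simp [spinM, spinP, Matrix.trace_fin_two]
  ring

theorem spinK_mul (v w : E) :
    spinK v w * spinK w v = ((2 * (‖v‖ * ‖w‖ + inner ℝ v w) : ℝ) : ℂ) := by
  have h := spinW_eq 1 fun j => if j = 0 then v else w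
  simp only [Finset.range_one, Finset.prod_singleton, zero_add, if_true, one_ne_zero,
    if_false] at h
  rw [← h, spin_inner]
  simp [spinM, spinP, Matrix.trace_fin_two]
  linear_combination (-2 * v 1 * w 1 : ℂ) * Complex.I_mul_I

theorem spinK_swap (v w : E) : spinK w v = (starRingEnd ℂ) (spinK v w) :=
  Matrix.star_dotProduct _ _

theorem spinK_three (a b c : E) : spinK a b * spinK b c * spinK c a =
    ((2 * (‖a‖ * ‖b‖ * ‖c‖ + inner ℝ a b * ‖c‖ + inner ℝ b c * ‖a‖ + inner ℝ c a * ‖b‖) : ℝ) : ℂ) +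
      ((2 * (a 0 * (b 1 * c 2 - b 2 * c 1) + a 1 * (b 2 * c 0 - b 0 * c 2) +
        a 2 * (b 0 * c 1 - b 1 * c 0)) : ℝ) : ℂ) * Complex.I := by
  have h := spinW_eq 2 fun j => if j = 0 then a else if j = 1 then b else c
  simp only [Finset.prod_range_succ, Finset.range_zero, Finset.prod_empty, zero_add, if_true,
    one_ne_zero, if_false, one_mul, OfNat.ofNat_ne_zero, OfNat.ofNat_ne_one,
    Nat.reduceAdd] at h
  rw [← h, spin_inner, spin_inner, spin_inner]
  simp [spinM, spinP, Matrix.trace_fin_two]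
  linear_combination (-2 * (a 1 * b 1 * ‖c‖ + b 1 * c 1 * ‖a‖ + c 1 * a 1 * ‖b‖) : ℂ) *
    Complex.I_mul_I

theorem corner_per (m q : ℤ) : corner (m + 3 * q) = corner m := by
  have h : 2 * Real.pi * ((m + 3 * q : ℤ) : ℝ) / 3 = 2 * Real.pi * m / 3 + q * (2 * Real.pi) := by
    push_cast; ring
  rw [corner, h, Real.cos_add_int_mul_two_pi, Real.sin_add_int_mul_two_pi, corner]

theorem corner_zero : corner 0 = !₂[1, 0, 0] := by simp [corner]

theorem corner_one : corner 1 = !₂[-1 / 2, √3 / 2, 0] := by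
  have h : 2 * Real.pi * ((1 : ℤ) : ℝ) / 3 = Real.pi - Real.pi / 3 := by push_cast; ring
  rw [corner, h, Real.cos_pi_sub, Real.sin_pi_sub, Real.cos_pi_div_three, Real.sin_pi_div_three,
    neg_div]

theorem corner_two : corner 2 = !₂[-1 / 2, -(√3 / 2), 0] := by
  have h : 2 * Real.pi * ((2 : ℤ) : ℝ) / 3 = Real.pi / 3 + Real.pi := by push_cast; ring
  rw [corner, h, Real.cos_add_pi, Real.sin_add_pi, Real.cos_pi_div_three, Real.sin_pi_div_three,
    neg_div]

theorem corner_norm (m : ℤ) : ‖corner m‖ = 1 := by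
  have h := spin_norm_sq (corner m)
  have h2 : ‖corner m‖ ^ 2 = 1 := by rw [h]; simp [corner]
  nlinarith [norm_nonneg (corner m)]

theorem spin_inner_sub {c c' : E} (u : E) (hc : ‖c‖ = 1) (hc' : ‖c'‖ = 1)
    (h : inner ℝ c c' = -1 / 2) :
    |inner ℝ (c - u) (c' - u) - (‖u‖ ^ 2 - 1 / 2)| ≤ 2 * ‖u‖ := by
  have h1 := abs_le.1 (abs_real_inner_le_norm c u)
  have h2 := abs_le.1 (abs_real_inner_le_norm u c')
  rw [hc] at h1
  rw [hc'] at h2
  rw [inner_sub_left, inner_sub_right, inner_sub_right, real_inner_self_eq_norm_sq, h, abs_le]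
  constructor <;> linarith [h1.1, h1.2, h2.1, h2.2]

/-- the triangle with vertices at the corners, seen from `u` -/
noncomputable def spinT (u : E) : ℂ :=
  spinK (corner 0 - u) (corner 1 - u) * spinK (corner 1 - u) (corner 2 - u) *
    spinK (corner 2 - u) (corner 0 - u)

theorem spinT_cont : Continuous spinT := by
  have h : spinT = fun u => (spinM 2 fun j => corner j - u).trace := funext fun u => by
    rw [spinW_eq]
    simp [Finset.prod_range_succ, spinT]
  rw [h]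
  exact ((spinM_cont 2).comp (by fun_prop)).matrix_trace

theorem spinT_im (u : E) : (spinT u).im = -(3 * √3 * u 2) := by
  rw [spinT, spinK_three, corner_zero, corner_one, corner_two]
  simp only [Complex.add_im, Complex.ofReal_im, Complex.mul_im, Complex.ofReal_re, Complex.I_im,
    Complex.I_re]
  simp
  ring

theorem spinT_re (u : E) :
    (‖u‖ ≤ 1 / 50 → (spinT u).re < 0) ∧ (50 ≤ ‖u‖ → 0 < (spinT u).re) := by
  have s3 : √3 * √3 = 3 := Real.mul_self_sqrt (by norm_num)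
  have i1 := abs_le.1 (spin_inner_sub u (corner_norm 0) (corner_norm 1)
    (by rw [spin_inner, corner_zero, corner_one]; simp))
  have i2 := abs_le.1 (spin_inner_sub u (corner_norm 1) (corner_norm 2)
    (by rw [spin_inner, corner_one, corner_two]; simp; linarith))
  have i3 := abs_le.1 (spin_inner_sub u (corner_norm 2) (corner_norm 0)
    (by rw [spin_inner, corner_zero, corner_two]; simp))
  have n : ∀ m, |‖corner m - u‖ - ‖u‖| ≤ 1 ∧ |‖corner m - u‖ - 1| ≤ ‖u‖ := fun m => by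
    have h1 := abs_norm_sub_norm_le (corner m - u) (-u)
    have h2 := abs_norm_sub_norm_le (corner m - u) (corner m)
    simp only [norm_neg, sub_neg_eq_add, sub_add_cancel, sub_sub_cancel_left, corner_norm] at h1 h2
    exact ⟨h1, h2⟩
  have n0 := n 0
  have n1 := n 1
  have n2 := n 2
  simp only [abs_le] at n0 n1 n2
  rw [spinT, spinK_three]
  simp only [Complex.add_re, Complex.ofReal_re, Complex.mul_re, Complex.I_re, Complex.ofReal_im,
    Complex.I_im, mul_zero, zero_mul, sub_zero, add_zero]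
  generalize ‖corner 0 - u‖ = α at *
  generalize ‖corner 1 - u‖ = β at *
  generalize ‖corner 2 - u‖ = γ at *
  generalize inner ℝ (corner 0 - u) (corner 1 - u) = x at *
  generalize inner ℝ (corner 1 - u) (corner 2 - u) = y at *
  generalize inner ℝ (corner 2 - u) (corner 0 - u) = z at *
  have r0 := norm_nonneg u
  generalize ‖u‖ = r at *
  constructor
  · intro h
    have r2 : r ^ 2 ≤ 1 / 100 := by nlinarith
    have hab : α * β ≤ 1.02 * 1.02 :=
      mul_le_mul (by linarith) (by linarith) (by linarith) (by norm_num)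
    have habc : α * β * γ ≤ 1.02 * 1.02 * 1.02 :=
      mul_le_mul hab (by linarith) (by linarith) (by norm_num)
    have h1 : x * γ ≤ -0.45 * γ := mul_le_mul_of_nonneg_right (by linarith) (by linarith)
    have h2 : y * α ≤ -0.45 * α := mul_le_mul_of_nonneg_right (by linarith) (by linarith)
    have h3 : z * β ≤ -0.45 * β := mul_le_mul_of_nonneg_right (by linarith) (by linarith)
    linarith
  · intro h
    have r2 : 50 * r ≤ r ^ 2 := by nlinarith
    have ha : 0 < α := by linarith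
    have hb : 0 < β := by linarith
    have hc : 0 < γ := by linarith
    have hx : 0 < x := by linarith
    have hy : 0 < y := by linarith
    have hz : 0 < z := by linarith
    positivity

theorem spin_seg {u : E} (h : 4 * (u 0 ^ 2 + u 1 ^ 2) ≤ (1 / 50 * (‖u‖ ^ 2 + 1)) ^ 2) {t : ℝ}
    (h0 : 0 ≤ t) (h1 : t ≤ 1) : ((1 - t : ℝ) : ℂ) * (starRingEnd ℂ) (spinT u) +
      t * (((‖u‖ ^ 2 - 1 : ℝ) : ℂ) + (2 * u 2 : ℝ) * Complex.I) ≠ 0 := by
  intro hz
  have hre := congrArg Complex.re hz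
  have him := congrArg Complex.im hz
  simp only [Complex.add_re, Complex.ofReal_re, Complex.mul_re, Complex.I_re, Complex.ofReal_im,
    Complex.I_im, mul_zero, zero_mul, sub_zero, add_zero, Complex.add_im, Complex.mul_im,
    Complex.conj_re, Complex.conj_im, Complex.zero_re, Complex.zero_im, spinT_im, neg_neg,
    mul_one, zero_add] at hre him
  have s3 : 1 ≤ √3 := Real.one_le_sqrt.2 (by norm_num)
  have h2 : u 2 = 0 := by
    have : ((1 - t) * (3 * √3) + t * 2) * u 2 = 0 := by linarith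
    exact (mul_eq_zero.1 this).resolve_left (by nlinarith)
  have h3 := spin_norm_sq u
  have r0 := norm_nonneg u
  have h4 : 2 * ‖u‖ ≤ 1 / 50 * (‖u‖ ^ 2 + 1) :=
    (pow_le_pow_iff_left₀ (by positivity) (by positivity) two_ne_zero).1 (by
      rw [h2] at h3; nlinarith)
  rcases le_or_gt ‖u‖ (1 / 50) with h5 | h5
  · have h6 := (spinT_re u).1 h5
    have h7 : ‖u‖ ^ 2 - 1 < 0 := by nlinarith
    rcases h0.eq_or_lt with rfl | h0
    · linarith
    · nlinarith [mul_pos h0 (neg_pos.2 h7), mul_nonneg (sub_nonneg.2 h1) (neg_pos.2 h6).le]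
  · have h5' : 50 ≤ ‖u‖ := by
      by_contra hc
      nlinarith [mul_pos (sub_pos.2 h5) (sub_pos.2 (not_le.1 hc))]
    have h6 := (spinT_re u).2 h5'
    have h7 : 0 < ‖u‖ ^ 2 - 1 := by nlinarith
    rcases h0.eq_or_lt with rfl | h0
    · linarith
    · nlinarith [mul_pos h0 h7, mul_nonneg (sub_nonneg.2 h1) h6.le]

theorem spin_pot {u : E} (h : spinT u ≠ 0) : ∃ Z : ℤ → ℂ, (∀ m, Z m ≠ 0) ∧
    (∀ m, Z (m + 1) = Z m * spinK (corner m - u) (corner (m + 1) - u)) ∧
    ∀ m a, Z (m + 3 * a) = Z m * spinT u ^ a := by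
  have h0 := left_ne_zero_of_mul (left_ne_zero_of_mul h)
  have h1 := left_ne_zero_of_mul h
  refine ⟨fun m => spinT u ^ (m / 3) * (if m % 3 = 0 then 1 else if m % 3 = 1 then
    spinK (corner 0 - u) (corner 1 - u) else
    spinK (corner 0 - u) (corner 1 - u) * spinK (corner 1 - u) (corner 2 - u)),
    fun m => mul_ne_zero (zpow_ne_zero _ h) ?_, fun m => ?_, fun m a => ?_⟩
  · split_ifs
    exacts [one_ne_zero, h0, h1]
  · obtain ⟨q, rfl | rfl | rfl⟩ : ∃ q, m = 0 + 3 * q ∨ m = 1 + 3 * q ∨ m = 2 + 3 * q :=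
      ⟨m / 3, by omega⟩
    all_goals beta_reduce
    · rw [show 0 + 3 * q + 1 = 1 + 3 * q by ring, corner_per, corner_per,
        show (1 + 3 * q) / 3 = q by omega, show (0 + 3 * q) / 3 = q by omega,
        show (1 + 3 * q) % 3 = 1 by omega, show (0 + 3 * q) % 3 = 0 by omega]
      simp
    · rw [show 1 + 3 * q + 1 = 2 + 3 * q by ring, corner_per, corner_per,
        show (1 + 3 * q) / 3 = q by omega, show (2 + 3 * q) / 3 = q by omega,
        show (1 + 3 * q) % 3 = 1 by omega, show (2 + 3 * q) % 3 = 2 by omega]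
      simp [mul_assoc]
    · rw [show 2 + 3 * q + 1 = 0 + 3 * (q + 1) by ring, corner_per, corner_per,
        show (0 + 3 * (q + 1)) / 3 = q + 1 by omega, show (2 + 3 * q) / 3 = q by omega,
        show (0 + 3 * (q + 1)) % 3 = 0 by omega, show (2 + 3 * q) % 3 = 2 by omega,
        zpow_add_one₀ h]
      simp [spinT, mul_assoc]
  · beta_reduce
    rw [show (m + 3 * a) / 3 = m / 3 + a by omega, show (m + 3 * a) % 3 = m % 3 by omega,
      zpow_add₀ h]
    ring

theorem spin_wind {u : E} (h : spinT u ≠ 0) (N : ℕ) (m : ℕ → ℤ) (a : ℤ) (hN : m N = m 0 + 3 * a)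
    (hm : ∀ j < N, |m (j + 1) - m j| ≤ 1) :
    ∃ r : ℝ, 0 < r ∧ (spinM N fun j => corner (m j) - u).trace = r * spinT u ^ a := by
  obtain ⟨Z, hZ0, hZ1, hZ2⟩ := spin_pot h
  have hk : ∀ n, spinK (corner n - u) (corner (n + 1) - u) ≠ 0 := fun n h0 =>
    hZ0 (n + 1) (by rw [hZ1, h0, mul_zero])
  have hA : ∀ n, 0 < ‖corner n - u‖ := fun n => norm_pos_iff.2 fun h0 => by
    have h1 := spinK_mul (corner n - u) (corner (n + 1) - u)
    rw [spinK_swap (corner n - u), Complex.mul_conj] at h1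
    have h2 := (Complex.normSq_pos.2 (hk n)).ne'
    rw [Complex.ofReal_inj.1 h1, h0] at h2
    simp at h2
  have step : ∀ n n' : ℤ, |n' - n| ≤ 1 → ∃ r : ℝ, 0 < r ∧
      Z n * spinK (corner n - u) (corner n' - u) = r * Z n' := fun n n' hn => by
    obtain rfl | rfl | rfl : n' = n ∨ n' = n + 1 ∨ n = n' + 1 := by
      rw [abs_le] at hn; omega
    · exact ⟨_, mul_pos two_pos (hA n'), by rw [spinK_self, mul_comm]⟩
    · exact ⟨1, one_pos, by rw [hZ1]; simp⟩
    · exact ⟨_, Complex.normSq_pos.2 (hk n'), by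
        rw [hZ1, spinK_swap (corner n' - u), mul_assoc, Complex.mul_conj, mul_comm]⟩
  have main : ∀ J ≤ N, ∃ r : ℝ, 0 < r ∧ Z (m 0) * ∏ j ∈ Finset.range J,
      spinK (corner (m j) - u) (corner (m (j + 1)) - u) = r * Z (m J) := by
    intro J hJ
    induction J with
    | zero => exact ⟨1, one_pos, by simp⟩
    | succ J ih =>
      obtain ⟨r, hr, e⟩ := ih (by omega)
      obtain ⟨r', hr', e'⟩ := step _ _ (hm J (by omega))
      refine ⟨r * r', mul_pos hr hr', ?_⟩
      rw [Finset.prod_range_succ, ← mul_assoc, e, mul_assoc, e', Complex.ofReal_mul, mul_assoc]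
  obtain ⟨r, hr, e⟩ := main N le_rfl
  refine ⟨r * (2 * ‖corner (m 0) - u‖), mul_pos hr (mul_pos two_pos (hA _)), ?_⟩
  rw [hN, hZ2] at e
  rw [spinW_eq, hN, corner_per, spinK_self, Complex.ofReal_mul r]
  refine mul_left_cancel₀ (hZ0 (m 0)) ?_
  rw [← mul_assoc, e]
  ring

theorem spin_log_T {X : Type*} [TopologicalSpace X] {W T : X → ℂ} {K : Set X} {a : ℤ} (ha : a ≠ 0)
    (hWc : ContinuousOn W K) (hTc : ContinuousOn T K) (hT : ∀ p ∈ K, T p ≠ 0)
    (h : ∀ p ∈ K, ∃ r : ℝ, 0 < r ∧ W p = r * T p ^ a) (hW : HasLogOn W K) : HasLogOn T K := by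
  have h1 : HasLogOn (fun p => W p / T p ^ a) K :=
    hasLogOn_slit (hWc.div (hTc.zpow₀ a fun p hp => .inl (hT p hp))
      fun p hp => zpow_ne_zero _ (hT p hp)) fun p hp => by
      obtain ⟨r, hr, e⟩ := h p hp
      rw [e, mul_div_cancel_right₀ _ (zpow_ne_zero _ (hT p hp))]
      exact Complex.ofReal_mem_slitPlane.2 hr
  exact log_root hTc ha ((hW.div h1).congr fun p hp => (div_div_cancel₀ (hW.ne_zero hp)).symm)

theorem spin_log_seg {X : Type*} [TopologicalSpace X] {T Y : X → ℂ} {K : Set X}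
    (hTc : ContinuousOn T K) (hYc : ContinuousOn Y K)
    (h : ∀ t : ℝ, 0 ≤ t → t ≤ 1 → ∀ p ∈ K, ((1 - t : ℝ) : ℂ) * T p + t * Y p ≠ 0)
    (hT : HasLogOn T K) : HasLogOn Y K := by
  have h1 : ContinuousOn (fun q : ℝ × X => T q.2) (Icc 0 1 ×ˢ K) :=
    hTc.comp continuousOn_snd fun q hq => hq.2
  have h2 : ContinuousOn (fun q : ℝ × X => Y q.2) (Icc 0 1 ×ˢ K) :=
    hYc.comp continuousOn_snd fun q hq => hq.2
  have h3 : Continuous fun q : ℝ × X => ((1 - q.1 : ℝ) : ℂ) := by fun_prop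
  have h4 : Continuous fun q : ℝ × X => ((q.1 : ℝ) : ℂ) := by fun_prop
  have h5 := HasLogOn.homotopy (K := K) (H := fun t p => ((1 - t : ℝ) : ℂ) * T p + t * Y p)
    ((h3.continuousOn.mul h1).add (h4.continuousOn.mul h2))
    (fun t ht p hp => h t ht.1 ht.2 p hp) (hT.congr fun p _ => by simp)
  exact h5.congr fun p _ => by simp

/-- A complex function `W N v` of closed polygons `v 0, ..., v N = v 0` whose argument is (half)
the solid angle under which the polygon is seen from the origin. -/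
theorem exists_W : ∃ W : ℕ → (ℕ → E) → ℂ, (∀ N, Continuous (W N)) ∧
    (∀ N v, v N = v 0 → v 0 ≠ 0 →
      (∀ j < N, ‖v j‖ * ‖v (j + 1)‖ + inner ℝ (v j) (v (j + 1)) ≠ 0) → W N v ≠ 0) ∧
    (∀ N (a : E), a ≠ 0 → W N (fun _ => a) ∈ Complex.slitPlane) ∧
    ∀ (N : ℕ) (m : ℕ → ℤ) (a : ℤ), a ≠ 0 → m N = m 0 + 3 * a →
      (∀ j < N, |m (j + 1) - m j| ≤ 1) →
      ∀ (u : Sph → E) (K : Set Sph), ContinuousOn u K →
        (∀ p ∈ K, 4 * (u p 0 ^ 2 + u p 1 ^ 2) ≤ (1 / 50 * (‖u p‖ ^ 2 + 1)) ^ 2) →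
        HasLogOn (fun p => W N (fun j => corner (m j) - u p)) K →
        HasLogOn (fun p => ((‖u p‖ ^ 2 - 1 : ℝ) : ℂ) + (2 * u p 2 : ℝ) * Complex.I) K := by
  refine ⟨fun N v => (spinM N v).trace, fun N => (spinM_cont N).matrix_trace,
    fun N v hN h0 hv => ?_, fun N a ha => ?_, fun N m a ha hN hm u K hu hK hW => ?_⟩
  · beta_reduce
    rw [spinW_eq, hN, spinK_self]
    refine mul_ne_zero (Finset.prod_ne_zero_iff.2 fun j hj => left_ne_zero_of_mul
      (b := spinK (v (j + 1)) (v j)) ?_) ?_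
    · rw [spinK_mul]
      exact Complex.ofReal_ne_zero.2 (mul_ne_zero two_ne_zero (hv j (Finset.mem_range.1 hj)))
    · exact Complex.ofReal_ne_zero.2 (mul_ne_zero two_ne_zero (norm_ne_zero_iff.2 h0))
  · have h := norm_pos_iff.2 ha
    beta_reduce
    rw [spinW_eq, spinK_self, Finset.prod_const, ← Complex.ofReal_pow, ← Complex.ofReal_mul]
    exact Complex.ofReal_mem_slitPlane.2 (by positivity)
  beta_reduce at hW
  have hT : ∀ p ∈ K, spinT (u p) ≠ 0 := fun p hp h0 =>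
    spin_seg (hK p hp) le_rfl zero_le_one (by simp [h0])
  have hTc : ContinuousOn (fun p => spinT (u p)) K := spinT_cont.comp_continuousOn hu
  have hc : Continuous fun w : E => (spinM N fun j => corner (m j) - w).trace :=
    ((spinM_cont N).comp (continuous_pi fun j => continuous_const.sub continuous_id)).matrix_trace
  have hY : Continuous fun w : E => ((‖w‖ ^ 2 - 1 : ℝ) : ℂ) + (2 * w 2 : ℝ) * Complex.I := by
    fun_prop
  have h1 := spin_log_T ha (hc.comp_continuousOn hu) hTc hT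
    (fun p hp => spin_wind (hT p hp) N m a hN hm) hW
  exact spin_log_seg (Complex.continuous_conj.comp_continuousOn hTc) (hY.comp_continuousOn hu)
    (fun t h0 h1 p hp => spin_seg (hK p hp) h0 h1) (log_conj h1)

end Pool.Agent.MP_ff6fba_gt

end
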